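import Mathlib

/-!
# MP_f2148a_nt, block As (elementary part and final assembly): definitions (fixed, do not change)

`N(K)` = number of pairs of integers with `0 < |y² - x³| ≤ K`. The pairs with `x ≤ K ^ β` (`2 ≤ β < 8 / 3`) are counted
with the main term `c0 K ^ (5 / 6)`; `Giants β θ` is the hypothesis on the remaining pairs.
-/

set_option autoImplicit false

namespace Pool.Agent.Work.MP_f2148a_nt.As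

/-- the length of `{y : ℝ | |y ^ 2 - x ^ 3| ≤ K}` (the square root of a negative number is 0) -/
noncomputable def len (K x : ℝ) : ℝ := 2 * (√(x ^ 3 + K) - √(x ^ 3 - K))

/-- the area of the set of the real `(x, y)` with `|y ^ 2 - x ^ 3| ≤ 1` -/
noncomputable def c0 : ℝ := (MeasureTheory.volume {p : ℝ × ℝ | |p.2 ^ 2 - p.1 ^ 3| ≤ 1}).toReal

/-- the pairs of integers with `0 < |y ^ 2 - x ^ 3| ≤ K` -/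
def pr (K : ℝ) : Set (ℤ × ℤ) := {t | t.2 ^ 2 ≠ t.1 ^ 3 ∧ |(t.2 : ℝ) ^ 2 - (t.1 : ℝ) ^ 3| ≤ K}

/-- the `k ≠ 0`, `|k| ≤ K`, such that `y ^ 2 = x ^ 3 + k` has an integer solution -/
def sol (K : ℝ) : Set ℤ := {k | k ≠ 0 ∧ |(k : ℝ)| ≤ K ∧ ∃ x y : ℤ, y ^ 2 = x ^ 3 + k}

/-- the `k` of `sol K` with a solution larger than `|k| ^ (1 / 2 + κ)` -/
def big (κ K : ℝ) : Set ℤ := {k | k ≠ 0 ∧ |(k : ℝ)| ≤ K ∧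
  ∃ x y : ℤ, y ^ 2 = x ^ 3 + k ∧ |(k : ℝ)| ^ (1 / 2 + κ) < max |(x : ℝ)| |(y : ℝ)|}

/-- the natural number `⌈K ^ (1 / 3)⌉` -/
noncomputable def T0 (K : ℝ) : ℕ := ⌈K ^ (1 / 3 : ℝ)⌉₊

/-- hypothesis: at most `A K ^ θ` pairs of `pr K` have `x ≥ K ^ β` -/
def Giants (β θ : ℝ) : Prop := ∃ A : ℝ, ∀ K : ℝ, 1 ≤ K → ∀ S : Finset (ℤ × ℤ),
  (∀ t ∈ S, t ∈ pr K ∧ K ^ β ≤ (t.1 : ℝ)) → (S.card : ℝ) ≤ A * K ^ θ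

/-- the asymptotic formula with error exponent `θ` -/
def Asy (θ : ℝ) : Prop := ∃ A : ℝ, ∀ K : ℝ, 1 ≤ K →
  (pr K).Finite ∧ |((pr K).ncard : ℝ) - c0 * K ^ (5 / 6 : ℝ)| ≤ A * K ^ θ

/-- primitive pairs: no prime `p` with `p ^ 2 ∣ x`, `p ^ 3 ∣ y` -/
def IsPrim (t : ℤ × ℤ) : Prop := ∀ p : ℕ, p.Prime → ¬ ((p : ℤ) ^ 2 ∣ t.1 ∧ (p : ℤ) ^ 3 ∣ t.2)

/-- THE HYPOTHESIS to be delivered by the block M56: the primitive pairs with `y > 0`, `K / 2 < |y ^ 2 - x ^ 3| ≤ K` and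
`x ≥ K ^ (53 / 20)` -/
def PrimGiants : Prop := ∃ A d : ℝ, 0 < d ∧ ∀ K : ℝ, 1 ≤ K → ∀ S : Finset (ℤ × ℤ),
  (∀ t ∈ S, 0 < t.2 ∧ IsPrim t ∧ K / 2 < |(t.2 : ℝ) ^ 2 - (t.1 : ℝ) ^ 3| ∧
    |(t.2 : ℝ) ^ 2 - (t.1 : ℝ) ^ 3| ≤ K ∧ K ^ (53 / 20 : ℝ) ≤ (t.1 : ℝ)) →
  (S.card : ℝ) ≤ A * K ^ (5 / 6 - d)

end Pool.Agent.Work.MP_f2148a_nt.As
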