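import Mathlib
import Pool.Agent.Work.MP_f2148a_nt.DivisorBound
import Pool.Agent.Work.MP_f2148a_nt.As.Defs

/-!
# As/Coin (size M): coincidences

For `q ∈ S` with `x = q.1.1`, `x' = q.2.1`, `y = q.1.2`, `y' = q.2.2`: `(y - y') (y + y') = x ^ 3 - x' ^ 3 =: D ≠ 0`,
`|D| ≤ 2 K ^ (1 + 3 η)`. For given `(x, x')` the number of `(y, y')` is at most twice the number of divisors of `|D|`
(`y - y'` is plus or minus a divisor, `y + y'` is then determined), so `≤ A' K ^ ε`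
(`exists_card_divisors_le` with the exponent `ε / (1 + 3 η)`); the number of `(x, x')` is at most
`(2 K ^ (1 / 3 + η) + 1) ^ 2`.
-/

set_option autoImplicit false

namespace Pool.Agent.Work.MP_f2148a_nt.As

/-- for given `x, x'` at most twice as many pairs as divisors -/
private theorem fib_card (x x' : ℤ) (hx : x ≠ x') (F : Finset ((ℤ × ℤ) × (ℤ × ℤ)))
    (hF : ∀ q ∈ F, q.1.1 = x ∧ q.2.1 = x' ∧ q.1.2 ^ 2 - q.1.1 ^ 3 = q.2.2 ^ 2 - q.2.1 ^ 3) :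
    F.card ≤ 2 * (x ^ 3 - x' ^ 3).natAbs.divisors.card := by
  have hD : x ^ 3 - x' ^ 3 ≠ 0 := by
    intro h
    exact hx ((Odd.strictMono_pow (by decide : Odd 3)).injective (sub_eq_zero.1 h))
  have h1 : F.card ≤ ((x ^ 3 - x' ^ 3).natAbs.divisors ×ˢ (Finset.univ : Finset Bool)).card := by
    refine Finset.card_le_card_of_injOn
      (fun q => ((q.1.2 - q.2.2).natAbs, decide (0 ≤ q.1.2 - q.2.2))) ?_ ?_
    · intro q hq
      obtain ⟨h1, h2, h3⟩ := hF q hq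
      rw [h1, h2] at h3
      rw [Finset.mem_coe, Finset.mem_product]
      refine ⟨Nat.mem_divisors.2 ⟨?_, Int.natAbs_ne_zero.2 hD⟩, Finset.mem_univ _⟩
      refine Int.natAbs_dvd_natAbs.2 ⟨q.1.2 + q.2.2, ?_⟩
      linear_combination - h3
    · intro q hq r hr hqr
      obtain ⟨h1, h2, h3⟩ := hF q hq
      obtain ⟨k1, k2, k3⟩ := hF r hr
      rw [h1, h2] at h3
      rw [k1, k2] at k3
      have hqr1 : (q.1.2 - q.2.2).natAbs = (r.1.2 - r.2.2).natAbs := congrArg Prod.fst hqr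
      have hqr2 : decide (0 ≤ q.1.2 - q.2.2) = decide (0 ≤ r.1.2 - r.2.2) := congrArg Prod.snd hqr
      have hqr3 : (0 ≤ q.1.2 - q.2.2) ↔ (0 ≤ r.1.2 - r.2.2) := by
        simpa using hqr2
      have e1 : q.1.2 - q.2.2 = r.1.2 - r.2.2 := by
        rcases Int.natAbs_eq_natAbs_iff.1 hqr1 with h | h
        · exact h
        · by_cases h0 : 0 ≤ q.1.2 - q.2.2
          · have := hqr3.1 h0
            omega
          · have : ¬ 0 ≤ r.1.2 - r.2.2 := fun h5 => h0 (hqr3.2 h5)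
            omega
      have e0 : q.1.2 - q.2.2 ≠ 0 := by
        intro h
        apply hD
        have : (q.1.2 - q.2.2) * (q.1.2 + q.2.2) = x ^ 3 - x' ^ 3 := by linear_combination h3
        rw [← this, h, zero_mul]
      have e2 : q.1.2 + q.2.2 = r.1.2 + r.2.2 := by
        refine mul_left_cancel₀ e0 ?_
        have a1 : (q.1.2 - q.2.2) * (q.1.2 + q.2.2) = x ^ 3 - x' ^ 3 := by linear_combination h3
        have a2 : (r.1.2 - r.2.2) * (r.1.2 + r.2.2) = x ^ 3 - x' ^ 3 := by linear_combination k3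
        rw [a1, e1, a2]
      refine Prod.ext (Prod.ext (h1.trans k1.symm) ?_) (Prod.ext (h2.trans k2.symm) ?_)
      · omega
      · omega
  refine h1.trans (le_of_eq ?_)
  rw [Finset.card_product, Finset.card_univ, Fintype.card_bool, mul_comm]

theorem coin (η ε : ℝ) (hη : 0 ≤ η) (hε : 0 < ε) : ∃ A : ℝ, ∀ K : ℝ, 1 ≤ K →
    ∀ S : Finset ((ℤ × ℤ) × (ℤ × ℤ)),
    (∀ q ∈ S, |(q.1.1 : ℝ)| ≤ K ^ (1 / 3 + η) ∧ |(q.2.1 : ℝ)| ≤ K ^ (1 / 3 + η) ∧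
      q.1.1 ≠ q.2.1 ∧ q.1.2 ^ 2 - q.1.1 ^ 3 = q.2.2 ^ 2 - q.2.1 ^ 3) →
    (S.card : ℝ) ≤ A * K ^ (2 / 3 + 2 * η + ε) := by
  have hc : 0 < 1 + 3 * η := by positivity
  have hε' : 0 < ε / (1 + 3 * η) := div_pos hε hc
  obtain ⟨A, hA, hdiv⟩ := exists_card_divisors_le (ε / (1 + 3 * η)) hε'
  refine ⟨18 * (A * 2 ^ (ε / (1 + 3 * η))), fun K hK S hS => ?_⟩
  have hK0 : (0 : ℝ) < K := by linarith
  obtain ⟨B, hB⟩ : ∃ B : ℝ, B = K ^ (1 / 3 + η) := ⟨_, rfl⟩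
  have hB1 : 1 ≤ B := hB ▸ Real.one_le_rpow hK (by positivity)
  obtain ⟨N, hN⟩ : ∃ N : ℕ, N = ⌊B⌋₊ := ⟨_, rfl⟩
  have hNB : (N : ℝ) ≤ B := hN ▸ Nat.floor_le (by linarith)
  have habs : ∀ x : ℤ, |(x : ℝ)| ≤ B → |x| ≤ N := by
    intro x hx
    have h1 : ((x.natAbs : ℕ) : ℝ) ≤ B := by
      rw [Nat.cast_natAbs, Int.cast_abs]
      exact hx
    have h2 : x.natAbs ≤ N := hN ▸ Nat.le_floor h1
    rw [Int.abs_eq_natAbs]
    exact_mod_cast h2
  rw [← hB] at hS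
  obtain ⟨n, hn⟩ : ∃ n : ℕ, n = ⌊2 * (A * 2 ^ (ε / (1 + 3 * η)) * K ^ ε)⌋₊ := ⟨_, rfl⟩
  have hpos : 0 ≤ 2 * (A * 2 ^ (ε / (1 + 3 * η)) * K ^ ε) := by positivity
  have hfib : ∀ b ∈ (Finset.Icc (-(N : ℤ)) N) ×ˢ (Finset.Icc (-(N : ℤ)) N),
      (S.filter (fun q => (q.1.1, q.2.1) = b)).card ≤ n := by
    intro b _
    rcases Finset.eq_empty_or_nonempty (S.filter (fun q => (q.1.1, q.2.1) = b)) with h0 | ⟨q₀, hq₀⟩
    · rw [h0]
      exact Nat.zero_le _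
    · rw [Finset.mem_filter] at hq₀
      obtain ⟨hq, hb⟩ := hq₀
      have hx1 : q₀.1.1 = b.1 := by rw [← hb]
      have hx2 : q₀.2.1 = b.2 := by rw [← hb]
      obtain ⟨g1, g2, g3, g4⟩ := hS q₀ hq
      have k1 := fib_card b.1 b.2 (by rw [← hx1, ← hx2]; exact g3) (S.filter (fun q => (q.1.1, q.2.1) = b))
        (by
          intro q hq1
          rw [Finset.mem_filter] at hq1
          exact ⟨by rw [← hq1.2], by rw [← hq1.2], (hS q hq1.1).2.2.2⟩)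
      have hD : b.1 ^ 3 - b.2 ^ 3 ≠ 0 := by
        intro h
        rw [← hx1, ← hx2] at h
        exact g3 ((Odd.strictMono_pow (by decide : Odd 3)).injective (sub_eq_zero.1 h))
      have k2 := hdiv (b.1 ^ 3 - b.2 ^ 3).natAbs (Nat.one_le_iff_ne_zero.2 (Int.natAbs_ne_zero.2 hD))
      have k3 : (((b.1 ^ 3 - b.2 ^ 3).natAbs : ℕ) : ℝ) ≤ 2 * K ^ (1 + 3 * η) := by
        rw [Nat.cast_natAbs, Int.cast_abs]
        push_cast
        have u1 : |(b.1 : ℝ) ^ 3| ≤ B ^ 3 := by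
          rw [abs_pow]
          exact pow_le_pow_left₀ (abs_nonneg _) (by rw [← hx1]; exact g1) 3
        have u2 : |(b.2 : ℝ) ^ 3| ≤ B ^ 3 := by
          rw [abs_pow]
          exact pow_le_pow_left₀ (abs_nonneg _) (by rw [← hx2]; exact g2) 3
        have u3 : B ^ 3 = K ^ (1 + 3 * η) := by
          rw [hB, ← Real.rpow_natCast, ← Real.rpow_mul hK0.le]
          congr 1
          push_cast
          ring
        rw [← u3]
        have u4 := abs_sub (b.1 : ℝ) (b.2 : ℝ)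
        calc |(b.1 : ℝ) ^ 3 - (b.2 : ℝ) ^ 3| ≤ |(b.1 : ℝ) ^ 3| + |(b.2 : ℝ) ^ 3| := abs_sub _ _
          _ ≤ 2 * B ^ 3 := by linarith
      have k4 : ((((b.1 ^ 3 - b.2 ^ 3).natAbs : ℕ) : ℝ)) ^ (ε / (1 + 3 * η)) ≤
          2 ^ (ε / (1 + 3 * η)) * K ^ ε := by
        calc ((((b.1 ^ 3 - b.2 ^ 3).natAbs : ℕ) : ℝ)) ^ (ε / (1 + 3 * η)) ≤
            (2 * K ^ (1 + 3 * η)) ^ (ε / (1 + 3 * η)) :=
              Real.rpow_le_rpow (Nat.cast_nonneg _) k3 hε'.le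
          _ = 2 ^ (ε / (1 + 3 * η)) * K ^ ε := by
              rw [Real.mul_rpow (by norm_num) (by positivity), ← Real.rpow_mul hK0.le]
              congr 2
              field_simp
      rw [hn]
      refine Nat.le_floor ?_
      have k5 : (((S.filter (fun q => (q.1.1, q.2.1) = b)).card : ℕ) : ℝ) ≤
          2 * ((b.1 ^ 3 - b.2 ^ 3).natAbs.divisors.card : ℝ) := by
        exact_mod_cast k1
      have k6 : A * ((((b.1 ^ 3 - b.2 ^ 3).natAbs : ℕ) : ℝ)) ^ (ε / (1 + 3 * η)) ≤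
          A * (2 ^ (ε / (1 + 3 * η)) * K ^ ε) :=
        mul_le_mul_of_nonneg_left k4 (by linarith)
      have k7 : A * (2 ^ (ε / (1 + 3 * η)) * K ^ ε) = A * 2 ^ (ε / (1 + 3 * η)) * K ^ ε := by ring
      linarith
  have hmaps : ∀ q ∈ S, (q.1.1, q.2.1) ∈ (Finset.Icc (-(N : ℤ)) N) ×ˢ (Finset.Icc (-(N : ℤ)) N) := by
    intro q hq
    obtain ⟨g1, g2, -, -⟩ := hS q hq
    have h1 := abs_le.1 (habs _ g1)
    have h2 := abs_le.1 (habs _ g2)
    rw [Finset.mem_product, Finset.mem_Icc, Finset.mem_Icc]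
    exact ⟨⟨h1.1, h1.2⟩, ⟨h2.1, h2.2⟩⟩
  have hcard := Finset.card_le_mul_card_image_of_maps_to hmaps n hfib
  have hI : ((Finset.Icc (-(N : ℤ)) N) ×ˢ (Finset.Icc (-(N : ℤ)) N)).card = (2 * N + 1) ^ 2 := by
    rw [Finset.card_product, Int.card_Icc]
    have : ((N : ℤ) + 1 - -(N : ℤ)).toNat = 2 * N + 1 := by omega
    rw [this]
    ring
  rw [hI] at hcard
  have h1 : (S.card : ℝ) ≤ n * (2 * N + 1) ^ 2 := by exact_mod_cast hcard
  have h2 : (n : ℝ) ≤ 2 * (A * 2 ^ (ε / (1 + 3 * η)) * K ^ ε) := hn ▸ Nat.floor_le hpos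
  have h3 : ((2 * N + 1 : ℝ)) ^ 2 ≤ (3 * B) ^ 2 := by
    refine pow_le_pow_left₀ (by positivity) ?_ 2
    linarith
  have h4 : B ^ 2 = K ^ (2 / 3 + 2 * η) := by
    rw [hB, ← Real.rpow_natCast, ← Real.rpow_mul hK0.le]
    congr 1
    push_cast
    ring
  calc (S.card : ℝ) ≤ n * (2 * N + 1) ^ 2 := h1
    _ ≤ (2 * (A * 2 ^ (ε / (1 + 3 * η)) * K ^ ε)) * (3 * B) ^ 2 :=
        mul_le_mul h2 h3 (by positivity) hpos
    _ = 18 * (A * 2 ^ (ε / (1 + 3 * η))) * (B ^ 2 * K ^ ε) := by ring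
    _ = 18 * (A * 2 ^ (ε / (1 + 3 * η))) * K ^ (2 / 3 + 2 * η + ε) := by
        rw [h4, ← Real.rpow_add hK0]

end Pool.Agent.Work.MP_f2148a_nt.As
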