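import Mathlib

/-!
# As/Cusp (size S-M): the pairs with `y ^ 2 = x ^ 3`

`x ≥ 0`. If `x = 0` then `y = 0`. If `x > 0` then `x ∣ y` (`x ^ 2 ∣ y ^ 2`), `y = m x`, `x = m ^ 2`, `y = m ^ 3`. So
`m ↦ (m ^ 2, m ^ 3)` maps the integers `m` with `|m| ≤ X` (`m ^ 2 ≤ X` implies `|m| ≤ X`) onto a superset:
at most `2 X + 1 ≤ 3 X` pairs.
-/

set_option autoImplicit false

namespace Pool.Agent.Work.MP_f2148a_nt.As

private theorem par {x y : ℤ} (h1 : y ^ 2 = x ^ 3) : ∃ m : ℤ, x = m ^ 2 ∧ y = m ^ 3 := by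
  have hx0 : 0 ≤ x := by
    by_contra hn
    have h3 : x ^ 3 < 0 := Odd.pow_neg (by decide) (not_le.1 hn)
    have h4 : 0 ≤ y ^ 2 := sq_nonneg y
    rw [h1] at h4
    exact absurd h4 (not_le.2 h3)
  rcases hx0.eq_or_lt with h | h
  · subst h
    refine ⟨0, by norm_num, ?_⟩
    have h5 : y ^ 2 = 0 := by rw [h1]; norm_num
    rw [pow_eq_zero_iff two_ne_zero] at h5
    rw [h5]
    norm_num
  · have hd : x ∣ y := (Int.pow_dvd_pow_iff two_ne_zero).1 ⟨x, by rw [h1]; ring⟩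
    obtain ⟨m, rfl⟩ := hd
    have h6 : m ^ 2 = x := by
      have h7 : x ^ 2 * m ^ 2 = x ^ 2 * x := by
        calc x ^ 2 * m ^ 2 = (x * m) ^ 2 := by ring
          _ = x ^ 3 := h1
          _ = x ^ 2 * x := by ring
      exact mul_left_cancel₀ (pow_ne_zero 2 h.ne') h7
    exact ⟨m, h6.symm, by rw [← h6]; ring⟩

theorem cusp (X : ℕ) (hX : 1 ≤ X) :
    {t : ℤ × ℤ | t.2 ^ 2 = t.1 ^ 3 ∧ (t.1 : ℝ) ≤ X}.Finite ∧
    {t : ℤ × ℤ | t.2 ^ 2 = t.1 ^ 3 ∧ (t.1 : ℝ) ≤ X}.ncard ≤ 3 * X := by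
  have hsub : {t : ℤ × ℤ | t.2 ^ 2 = t.1 ^ 3 ∧ (t.1 : ℝ) ≤ X} ⊆
      (((Finset.Icc (-(X : ℤ)) X).image (fun m : ℤ => ((m ^ 2, m ^ 3) : ℤ × ℤ)) :
        Finset (ℤ × ℤ)) : Set (ℤ × ℤ)) := by
    rintro ⟨x, y⟩ ⟨h1, h2⟩
    have h3 : x ≤ (X : ℤ) := by exact_mod_cast h2
    obtain ⟨m, hm1, hm2⟩ : ∃ m : ℤ, x = m ^ 2 ∧ y = m ^ 3 := par h1
    rw [Finset.coe_image]
    refine ⟨m, ?_, by rw [hm1, hm2]⟩
    rw [Finset.coe_Icc, Set.mem_Icc, ← abs_le]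
    refine le_trans ?_ h3
    rw [hm1]
    rw [Int.abs_eq_natAbs]
    exact Int.natAbs_le_self_sq m
  refine ⟨(Finset.finite_toSet _).subset hsub, ?_⟩
  refine (Set.ncard_le_ncard hsub (Finset.finite_toSet _)).trans ?_
  rw [Set.ncard_coe_finset]
  refine Finset.card_image_le.trans ?_
  rw [Int.card_Icc]
  omega

end Pool.Agent.Work.MP_f2148a_nt.As
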