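import Mathlib
import Pool.Agent.Work.MP_f2148a_nt.As.Defs

/-!
# As/Fib (size M): the integers `y` with `|y ^ 2 - x ^ 3| ≤ K`

`a = x ^ 3 - K`, `b = x ^ 3 + K`, `a ≤ y ^ 2 ≤ b`. `b < 0`: no `y`, `len = 0`. `a ≤ 0 ≤ b`: `|y| ≤ √b`:
`2 ⌊√b⌋ + 1` integers, `len = 2 √b`. `0 < a`: `√a ≤ |y| ≤ √b`: twice the number of integers of `[√a, √b]`
(`⌊√b⌋ - ⌈√a⌉ + 1`, between `√b - √a - 1` and `√b - √a + 1`; it is `≥ 0`: `⌈√a⌉ ≤ ⌊√b⌋ + 1`), `len = 2 (√b - √a)`.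
-/

set_option autoImplicit false

namespace Pool.Agent.Work.MP_f2148a_nt.As

theorem fib {K : ℝ} (hK : 0 ≤ K) (x : ℤ) :
    {y : ℤ | |(y : ℝ) ^ 2 - (x : ℝ) ^ 3| ≤ K}.Finite ∧
    |({y : ℤ | |(y : ℝ) ^ 2 - (x : ℝ) ^ 3| ≤ K}.ncard : ℝ) - len K x| ≤ 2 := by
  unfold len
  set u : ℝ := (x : ℝ) ^ 3 with hu
  set a : ℝ := u - K with ha
  set b : ℝ := u + K with hb
  have hmem : ∀ y : ℤ, |(y : ℝ) ^ 2 - u| ≤ K ↔ a ≤ (y : ℝ) ^ 2 ∧ (y : ℝ) ^ 2 ≤ b := by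
    intro y
    rw [abs_le]
    constructor
    · rintro ⟨h1, h2⟩
      constructor <;> linarith
    · rintro ⟨h1, h2⟩
      constructor <;> linarith
  have hup : ∀ y : ℤ, 0 ≤ b → ((y : ℝ) ^ 2 ≤ b ↔ -⌊√b⌋ ≤ y ∧ y ≤ ⌊√b⌋) := by
    intro y h0
    rw [Int.le_floor, neg_le, Int.le_floor]
    push_cast
    rw [← sq_abs, ← Real.le_sqrt (abs_nonneg _) h0, abs_le']
    tauto
  rcases lt_or_ge b 0 with hb0 | hb0
  · have hS : {y : ℤ | |(y : ℝ) ^ 2 - u| ≤ K} = ∅ := by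
      ext y
      simp only [Set.mem_setOf_eq, Set.mem_empty_iff_false, iff_false]
      intro h
      have := ((hmem y).1 h).2
      nlinarith [sq_nonneg (y : ℝ)]
    rw [hS, Real.sqrt_eq_zero_of_nonpos hb0.le, Real.sqrt_eq_zero_of_nonpos (by linarith)]
    simp
  rcases le_or_gt a 0 with ha0 | ha0
  · have hS : {y : ℤ | |(y : ℝ) ^ 2 - u| ≤ K} = ↑(Finset.Icc (-⌊√b⌋) ⌊√b⌋) := by
      ext y
      simp only [Set.mem_setOf_eq, Finset.coe_Icc, Set.mem_Icc]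
      rw [hmem, hup y hb0]
      constructor
      · exact fun h => h.2
      · exact fun h => ⟨by nlinarith [sq_nonneg (y : ℝ)], h⟩
    rw [hS]
    refine ⟨Finset.finite_toSet _, ?_⟩
    rw [Set.ncard_coe_finset, Int.card_Icc, Real.sqrt_eq_zero_of_nonpos ha0]
    have h0 : 0 ≤ ⌊√b⌋ := Int.floor_nonneg.2 (Real.sqrt_nonneg _)
    have h1 : (((⌊√b⌋ + 1 - -⌊√b⌋).toNat : ℕ) : ℝ) = 2 * (⌊√b⌋ : ℝ) + 1 := by
      have h2 : (((⌊√b⌋ + 1 - -⌊√b⌋).toNat : ℕ) : ℤ) = 2 * ⌊√b⌋ + 1 := by omega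
      exact_mod_cast h2
    rw [h1]
    have h3 := Int.floor_le (√b)
    have h4 := Int.lt_floor_add_one (√b)
    rw [abs_le]
    constructor <;> linarith
  · have hsa : 0 < √a := Real.sqrt_pos.2 ha0
    have hc1 : 0 < ⌈√a⌉ := Int.ceil_pos.2 hsa
    have hdown : ∀ y : ℤ, a ≤ (y : ℝ) ^ 2 ↔ (⌈√a⌉ ≤ y ∨ y ≤ -⌈√a⌉) := by
      intro y
      rw [Int.ceil_le, le_neg, Int.ceil_le]
      push_cast
      rw [← sq_abs, ← Real.sqrt_le_left (abs_nonneg _), le_abs]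
    have hS : {y : ℤ | |(y : ℝ) ^ 2 - u| ≤ K} =
        ↑(Finset.Icc ⌈√a⌉ ⌊√b⌋ ∪ Finset.Icc (-⌊√b⌋) (-⌈√a⌉)) := by
      ext y
      simp only [Set.mem_setOf_eq, Finset.coe_union, Finset.coe_Icc, Set.mem_Icc, Set.mem_union]
      rw [hmem, hup y hb0, hdown y]
      constructor
      · rintro ⟨h1 | h1, h2, h3⟩
        · exact Or.inl ⟨h1, h3⟩
        · exact Or.inr ⟨h2, h1⟩
      · rintro (⟨h1, h2⟩ | ⟨h1, h2⟩)
        · exact ⟨Or.inl h1, by omega, h2⟩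
        · exact ⟨Or.inr h2, h1, by omega⟩
    rw [hS]
    refine ⟨Finset.finite_toSet _, ?_⟩
    have hdis : Disjoint (Finset.Icc ⌈√a⌉ ⌊√b⌋) (Finset.Icc (-⌊√b⌋) (-⌈√a⌉)) := by
      rw [Finset.disjoint_left]
      intro y h1 h2
      rw [Finset.mem_Icc] at h1 h2
      omega
    rw [Set.ncard_coe_finset, Finset.card_union_of_disjoint hdis, Int.card_Icc, Int.card_Icc]
    have hab : √a ≤ √b := Real.sqrt_le_sqrt (by linarith)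
    have h3 := Int.floor_le (√b)
    have h4 := Int.lt_floor_add_one (√b)
    have h5 := Int.le_ceil (√a)
    have h6 := Int.ceil_lt_add_one (√a)
    have h7 : ⌈√a⌉ - 1 < ⌊√b⌋ + 1 := by
      have : ((⌈√a⌉ - 1 : ℤ) : ℝ) < ((⌊√b⌋ + 1 : ℤ) : ℝ) := by
        push_cast
        linarith
      exact_mod_cast this
    have h1 : (((⌊√b⌋ + 1 - ⌈√a⌉).toNat + (-⌈√a⌉ + 1 - -⌊√b⌋).toNat : ℕ) : ℝ) =
        2 * ((⌊√b⌋ : ℝ) + 1 - ⌈√a⌉) := by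
      have h2 : (((⌊√b⌋ + 1 - ⌈√a⌉).toNat + (-⌈√a⌉ + 1 - -⌊√b⌋).toNat : ℕ) : ℤ) =
        2 * (⌊√b⌋ + 1 - ⌈√a⌉) := by omega
      exact_mod_cast h2
    rw [h1]
    rw [abs_le]
    constructor <;> linarith

end Pool.Agent.Work.MP_f2148a_nt.As
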