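import Mathlib

/-!
# As/Uni (size M): sum and integral of a unimodal function

`V x = f x` for `x ≤ c`, `V x = 2 f c - f x` for `x ≥ c`: `V` is monotone, `0 ≤ V ≤ 2 M`, and
`|f s - f t| ≤ V t - V s` for `s ≤ t` (three cases). So for every integer `n`,
`|f n - ∫ x in (n - 1)..n, f x| ≤ V n - V (n - 1)`; the sum telescopes.
-/

set_option autoImplicit false

namespace Pool.Agent.Work.MP_f2148a_nt.As

theorem sum_int {f : ℝ → ℝ} {c M : ℝ} (h0 : ∀ x, 0 ≤ f x) (hM : ∀ x, f x ≤ M)
    (hm : ∀ x y, x ≤ y → y ≤ c → f x ≤ f y) (ha : ∀ x y, c ≤ x → x ≤ y → f y ≤ f x)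
    (hf : Continuous f) (a b : ℤ) (hab : a ≤ b) :
    |∑ n ∈ Finset.Ioc a b, f (n : ℝ) - ∫ x in (a : ℝ)..(b : ℝ), f x| ≤ 2 * M := by
  classical
  set V : ℝ → ℝ := fun x => if x ≤ c then f x else 2 * f c - f x with hV
  have hdiff : ∀ s t, s ≤ t → |f s - f t| ≤ V t - V s := by
    intro s t hst
    simp only [hV]
    by_cases hs : s ≤ c
    · by_cases ht : t ≤ c
      · rw [if_pos hs, if_pos ht, abs_sub_comm, abs_of_nonneg (sub_nonneg.mpr (hm s t hst ht))]
      · rw [if_pos hs, if_neg ht]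
        have h1 := hm s c hs le_rfl
        have h2 := ha c t le_rfl (not_le.mp ht).le
        rw [abs_le]
        constructor <;> linarith
    · have hs' := (not_le.mp hs).le
      have ht : ¬ t ≤ c := fun h => hs (hst.trans h)
      rw [if_neg hs, if_neg ht]
      have h1 := ha s t hs' hst
      rw [abs_of_nonneg (sub_nonneg.mpr h1)]
      linarith
  have hstep : ∀ n : ℤ, |f ((n : ℝ) + 1) - ∫ x in (n : ℝ)..((n : ℝ) + 1), f x| ≤
      V ((n : ℝ) + 1) - V n := by
    intro n
    have e : f ((n : ℝ) + 1) - ∫ x in (n : ℝ)..((n : ℝ) + 1), f x =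
        ∫ x in (n : ℝ)..((n : ℝ) + 1), (f ((n : ℝ) + 1) - f x) := by
      rw [intervalIntegral.integral_sub (by simp) (hf.intervalIntegrable _ _)]
      simp
    rw [e]
    have := intervalIntegral.norm_integral_le_of_norm_le_const (a := (n : ℝ)) (b := (n : ℝ) + 1)
      (f := fun x => f ((n : ℝ) + 1) - f x) (C := V ((n : ℝ) + 1) - V n) (by
        intro x hx
        rw [Set.uIoc_of_le (by linarith)] at hx
        rw [Real.norm_eq_abs, abs_sub_comm]
        have h1 := hdiff x ((n : ℝ) + 1) hx.2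
        have h2 := hdiff n x hx.1.le
        linarith [abs_nonneg (f n - f x)])
    simpa using this
  have hM0 : 0 ≤ M := (h0 0).trans (hM 0)
  have key : |∑ n ∈ Finset.Ioc a b, f (n : ℝ) - ∫ x in (a : ℝ)..(b : ℝ), f x| ≤ V b - V a := by
    induction b, hab using Int.le_induction with
    | base => simp
    | succ b hab ih =>
      have h1 : Finset.Ioc a (b + 1) = insert (b + 1) (Finset.Ioc a b) := by
        ext x
        simp only [Finset.mem_Ioc, Finset.mem_insert]
        omega
      have h2 : (b + 1) ∉ Finset.Ioc a b := by simp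
      rw [h1, Finset.sum_insert h2, ← intervalIntegral.integral_add_adjacent_intervals
        (hf.intervalIntegrable (a : ℝ) (b : ℝ)) (hf.intervalIntegrable (b : ℝ) ((b + 1 : ℤ) : ℝ))]
      push_cast
      have h3 := hstep b
      have h4 : f ((b : ℝ) + 1) + ∑ n ∈ Finset.Ioc a b, f (n : ℝ) -
          ((∫ x in (a : ℝ)..(b : ℝ), f x) + ∫ x in (b : ℝ)..((b : ℝ) + 1), f x) =
          (f ((b : ℝ) + 1) - ∫ x in (b : ℝ)..((b : ℝ) + 1), f x) +
          (∑ n ∈ Finset.Ioc a b, f (n : ℝ) - ∫ x in (a : ℝ)..(b : ℝ), f x) := by ring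
      rw [h4]
      refine (abs_add_le _ _).trans ?_
      linarith
  have hVb : V b ≤ 2 * M := by
    simp only [hV]
    split_ifs
    · linarith [hM b]
    · linarith [hM c, h0 b]
  have hVa : 0 ≤ V a := by
    simp only [hV]
    split_ifs with h
    · exact h0 a
    · linarith [h0 c, ha c a le_rfl (not_le.mp h).le]
  linarith

end Pool.Agent.Work.MP_f2148a_nt.As
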