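import Mathlib
import Pool.Agent.Work.MP_f2148a_nt.As.Defs

/-!
# As/Len (size S-M): the function `len`

`u := x ^ 3` is monotone in `x`. `√` of a nonpositive number is 0.
* `len_zero`: both arguments are `≤ 0`.
* `len_le`: `u ≤ K`: `len ≤ 2 √(u + K) ≤ 2 √(2 K)`; `u ≥ K`: `√(u + K) - √(u - K) ≤ √(2 K)` (`√(a + b) ≤ √a + √b`).
* `len_mono`: `√(y ^ 3 - K) = 0`.
* `len_anti`: `√(u + K) - √(u - K) = 2 K / (√(u + K) + √(u - K))` decreases with `u ≥ K` (`K = 0`: everything is 0).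
* `len_tail`: the same formula, `√(u + K) + √(u - K) ≥ √u` and `x ^ (-3 / 2) = 1 / √u`.
-/

set_option autoImplicit false

namespace Pool.Agent.Work.MP_f2148a_nt.As

private lemma cube_mono {x y : ℝ} (h : x ≤ y) : x ^ 3 ≤ y ^ 3 :=
  (Odd.strictMono_pow (by decide : Odd 3)).monotone h

theorem len_nonneg {K : ℝ} (hK : 0 ≤ K) (x : ℝ) : 0 ≤ len K x := by
  have h : √(x ^ 3 - K) ≤ √(x ^ 3 + K) := Real.sqrt_le_sqrt (by linarith)
  unfold len
  linarith

theorem len_le {K : ℝ} (hK : 0 ≤ K) (x : ℝ) : len K x ≤ 2 * √(2 * K) := by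
  unfold len
  have h : √(x ^ 3 + K) ≤ √(x ^ 3 - K) + √(2 * K) := by
    rcases le_total 0 (x ^ 3 - K) with h | h
    · have e : x ^ 3 + K = (x ^ 3 - K) + 2 * K := by ring
      rw [e]
      refine Real.sqrt_le_iff.2 ⟨by positivity, ?_⟩
      have h1 := Real.sq_sqrt h
      have h2 := Real.sq_sqrt (show 0 ≤ 2 * K by linarith)
      have h3 := mul_nonneg (Real.sqrt_nonneg (x ^ 3 - K)) (Real.sqrt_nonneg (2 * K))
      nlinarith
    · rw [Real.sqrt_eq_zero_of_nonpos h, zero_add]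
      exact Real.sqrt_le_sqrt (by linarith)
  linarith

theorem len_zero {K x : ℝ} (hK : 0 ≤ K) (h : x ^ 3 ≤ -K) : len K x = 0 := by
  unfold len
  rw [Real.sqrt_eq_zero_of_nonpos (by linarith), Real.sqrt_eq_zero_of_nonpos (by linarith)]
  simp

theorem len_mono {K x y : ℝ} (hK : 0 ≤ K) (hxy : x ≤ y) (h : y ^ 3 ≤ K) :
    len K x ≤ len K y := by
  have h1 := cube_mono hxy
  unfold len
  rw [Real.sqrt_eq_zero_of_nonpos (show x ^ 3 - K ≤ 0 by linarith),
    Real.sqrt_eq_zero_of_nonpos (show y ^ 3 - K ≤ 0 by linarith)]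
  have h2 : √(x ^ 3 + K) ≤ √(y ^ 3 + K) := Real.sqrt_le_sqrt (by linarith)
  linarith

theorem len_anti {K x y : ℝ} (hK : 0 ≤ K) (hxy : x ≤ y) (h : K ≤ x ^ 3) :
    len K y ≤ len K x := by
  have h1 := cube_mono hxy
  unfold len
  have a2 := Real.sq_sqrt (show 0 ≤ x ^ 3 - K by linarith)
  have b2 := Real.sq_sqrt (show 0 ≤ x ^ 3 + K by linarith)
  have c2 := Real.sq_sqrt (show 0 ≤ y ^ 3 - K by linarith)
  have d2 := Real.sq_sqrt (show 0 ≤ y ^ 3 + K by linarith)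
  have ac : √(x ^ 3 - K) ≤ √(y ^ 3 - K) := Real.sqrt_le_sqrt (by linarith)
  have bd : √(x ^ 3 + K) ≤ √(y ^ 3 + K) := Real.sqrt_le_sqrt (by linarith)
  have ab : √(x ^ 3 - K) ≤ √(x ^ 3 + K) := Real.sqrt_le_sqrt (by linarith)
  have cd : √(y ^ 3 - K) ≤ √(y ^ 3 + K) := Real.sqrt_le_sqrt (by linarith)
  have a0 := Real.sqrt_nonneg (x ^ 3 - K)
  have b0 := Real.sqrt_nonneg (x ^ 3 + K)
  set a := √(x ^ 3 - K)
  set b := √(x ^ 3 + K)
  set c := √(y ^ 3 - K)
  set d := √(y ^ 3 + K)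
  have key : d - c ≤ b - a := by
    by_contra hc
    push Not at hc
    have e1 : (b - a) * (b + a) = (d - c) * (d + c) := by nlinarith
    rcases eq_or_lt_of_le (add_nonneg b0 a0) with h0 | h0
    · rw [← h0, mul_zero] at e1
      rcases mul_eq_zero.1 e1.symm with h2 | h2
      · linarith
      · linarith
    · have e2 : (d - c) * (b + a) ≤ (d - c) * (d + c) :=
        mul_le_mul_of_nonneg_left (by linarith) (by linarith)
      have e3 : (b - a) * (b + a) < (d - c) * (b + a) := mul_lt_mul_of_pos_right hc h0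
      linarith
  linarith

theorem len_tail {K x : ℝ} (hK : 0 ≤ K) (hx : 0 < x) (h : K ≤ x ^ 3) :
    len K x ≤ 4 * K * x ^ (-(3 / 2) : ℝ) := by
  have hx3 : 0 < x ^ 3 := by positivity
  have e : x ^ (-(3 / 2) : ℝ) = (√(x ^ 3))⁻¹ := by
    rw [Real.rpow_neg hx.le, Real.sqrt_eq_rpow, ← Real.rpow_natCast x 3, ← Real.rpow_mul hx.le]
    norm_num
  rw [e]
  unfold len
  have a2 := Real.sq_sqrt (show 0 ≤ x ^ 3 - K by linarith)
  have b2 := Real.sq_sqrt (show 0 ≤ x ^ 3 + K by linarith)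
  have sb : √(x ^ 3) ≤ √(x ^ 3 + K) := Real.sqrt_le_sqrt (by linarith)
  have s0 : 0 < √(x ^ 3) := Real.sqrt_pos.2 hx3
  have ab : √(x ^ 3 - K) ≤ √(x ^ 3 + K) := Real.sqrt_le_sqrt (by linarith)
  have a0 := Real.sqrt_nonneg (x ^ 3 - K)
  rw [← div_eq_mul_inv, le_div_iff₀ s0]
  set a := √(x ^ 3 - K)
  set b := √(x ^ 3 + K)
  set s := √(x ^ 3)
  have e1 : (b - a) * s ≤ (b - a) * (b + a) :=
    mul_le_mul_of_nonneg_left (by linarith) (by linarith)
  nlinarith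

theorem len_cont (K : ℝ) : Continuous (len K) := by
  unfold len
  fun_prop

end Pool.Agent.Work.MP_f2148a_nt.As
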