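import Mathlib
import Pool.Agent.Work.MP_f2148a_nt.As.Len

/-!
# As/VolA (size M): the integral of `len`

* `len_integrable`: `len K` is continuous, 0 for `x ≤ - max 1 K` (`x ^ 3 ≤ x ≤ -K` for `x ≤ -1`), and
  `≤ 4 K x ^ (-3 / 2)` for `x ≥ max 1 K` (`len_tail`, `x ^ 3 ≥ x ≥ K`; `integrableOn_Ioi_rpow_of_lt`).
* `len_scale`: `len K x = K ^ (1 / 2) len 1 (K ^ (-1 / 3) x)` (pull `K` out of the square roots), so
  `∫ len K = K ^ (1 / 2) K ^ (1 / 3) ∫ len 1` (`MeasureTheory.Measure.integral_comp_mul_left`).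
* `len_pos`: `len 1 ≥ 0` is continuous and `len 1 0 = 2 > 0` (`MeasureTheory.integral_pos_iff_support_of_nonneg`, the
  support is open and nonempty).
* `tail`: `len_tail`, `integral_Ioi_rpow_of_lt`.
-/

set_option autoImplicit false

namespace Pool.Agent.Work.MP_f2148a_nt.As

open MeasureTheory

private theorem cube_ge {x : ℝ} (hx : 1 ≤ x) : x ≤ x ^ 3 := le_self_pow₀ hx (by norm_num)

theorem len_integrable {K : ℝ} (hK : 0 ≤ K) : Integrable (len K) := by
  set M := max 1 K with hM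
  have hM1 : 1 ≤ M := le_max_left _ _
  have hMK : K ≤ M := le_max_right _ _
  have h1 : IntegrableOn (len K) (Set.Iic (-M)) := by
    refine (integrableOn_zero (μ := volume) (s := Set.Iic (-M))).congr_fun ?_ measurableSet_Iic
    intro x hx
    have hx : x ≤ -M := hx
    refine (len_zero hK ?_).symm
    have h2 : -x ≤ (-x) ^ 3 := cube_ge (by linarith)
    have h3 : (-x) ^ 3 = -x ^ 3 := by ring
    linarith
  have h2 : IntegrableOn (len K) (Set.Icc (-M) M) := (len_cont K).integrableOn_Icc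
  have h3 : IntegrableOn (len K) (Set.Ioi M) := by
    refine Integrable.mono' (g := fun x => 4 * K * x ^ (-(3 / 2) : ℝ)) ?_
      (len_cont K).aestronglyMeasurable ?_
    · exact (integrableOn_Ioi_rpow_of_lt (by norm_num) (by linarith)).const_mul _
    · filter_upwards [ae_restrict_mem measurableSet_Ioi] with x hx
      have hx : M < x := hx
      rw [Real.norm_eq_abs, abs_of_nonneg (len_nonneg hK x)]
      have h4 : x ≤ x ^ 3 := cube_ge (by linarith)
      exact len_tail hK (by linarith) (by linarith)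
  rw [← integrableOn_univ]
  have h4 : (Set.univ : Set ℝ) = Set.Iic (-M) ∪ (Set.Icc (-M) M ∪ Set.Ioi M) := by
    ext x
    simp only [Set.mem_univ, Set.mem_union, Set.mem_Iic, Set.mem_Icc, Set.mem_Ioi, true_iff]
    by_cases h5 : x ≤ -M
    · exact Or.inl h5
    · by_cases h6 : x ≤ M
      · exact Or.inr (Or.inl ⟨(not_le.mp h5).le, h6⟩)
      · exact Or.inr (Or.inr (not_le.mp h6))
  rw [h4]
  exact h1.union (h2.union h3)

theorem len_scale {K : ℝ} (hK : 0 < K) : ∫ x, len K x = (∫ x, len 1 x) * K ^ (5 / 6 : ℝ) := by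
  have h1 : ∀ x, len K x = √K * len 1 (K ^ (-(1 / 3) : ℝ) * x) := by
    intro x
    unfold len
    have h2 : K * (K ^ (-(1 / 3) : ℝ) * x) ^ 3 = x ^ 3 := by
      rw [mul_pow, ← Real.rpow_natCast (K ^ (-(1 / 3) : ℝ)) 3, ← Real.rpow_mul hK.le]
      have h3 : (-(1 / 3) : ℝ) * ((3 : ℕ) : ℝ) = -1 := by norm_num
      rw [h3, Real.rpow_neg_one, ← mul_assoc, mul_inv_cancel₀ hK.ne', one_mul]
    have h4 : x ^ 3 + K = K * ((K ^ (-(1 / 3) : ℝ) * x) ^ 3 + 1) := by
      rw [mul_add, h2, mul_one]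
    have h5 : x ^ 3 - K = K * ((K ^ (-(1 / 3) : ℝ) * x) ^ 3 - 1) := by
      rw [mul_sub, h2, mul_one]
    rw [h4, h5, Real.sqrt_mul hK.le, Real.sqrt_mul hK.le]
    ring
  have h2 : ∫ x, len K x = ∫ x, √K * len 1 (K ^ (-(1 / 3) : ℝ) * x) :=
    integral_congr_ae (Filter.Eventually.of_forall h1)
  rw [h2, integral_const_mul, Measure.integral_comp_mul_left (len 1) (K ^ (-(1 / 3) : ℝ))]
  have h3 : (K ^ (-(1 / 3) : ℝ))⁻¹ = K ^ (1 / 3 : ℝ) := by
    rw [Real.rpow_neg hK.le, inv_inv]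
  rw [h3, abs_of_nonneg (Real.rpow_nonneg hK.le _), smul_eq_mul, Real.sqrt_eq_rpow, ← mul_assoc,
    ← Real.rpow_add hK]
  norm_num
  ring

theorem len_pos : 0 < ∫ x, len 1 x := by
  rw [integral_pos_iff_support_of_nonneg (fun x => len_nonneg zero_le_one x)
    (len_integrable zero_le_one)]
  refine (len_cont 1).isOpen_support.measure_pos _ ⟨0, ?_⟩
  rw [Function.mem_support]
  unfold len
  norm_num

theorem tail {K X : ℝ} (hK : 0 ≤ K) (hX : 0 < X) (h : K ≤ X ^ 3) :
    ∫ x in Set.Ioi X, len K x ≤ 8 * K * X ^ (-(1 / 2) : ℝ) := by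
  have h1 : ∫ x in Set.Ioi X, len K x ≤ ∫ x in Set.Ioi X, 4 * K * x ^ (-(3 / 2) : ℝ) := by
    refine setIntegral_mono_on (len_integrable hK).integrableOn
      ((integrableOn_Ioi_rpow_of_lt (by norm_num) hX).const_mul _) measurableSet_Ioi ?_
    intro x hx
    have hx : X < x := hx
    exact len_tail hK (hX.trans hx) (h.trans (pow_le_pow_left₀ hX.le hx.le 3))
  rw [integral_const_mul, integral_Ioi_rpow_of_lt (by norm_num) hX] at h1
  have h2 : (-(3 / 2) : ℝ) + 1 = -(1 / 2) := by norm_num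
  rw [h2] at h1
  calc ∫ x in Set.Ioi X, len K x ≤ _ := h1
    _ = 8 * K * X ^ (-(1 / 2) : ℝ) := by ring

end Pool.Agent.Work.MP_f2148a_nt.As
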