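import Mathlib
import Pool.Agent.Work.MP_f2148a_nt.As.VolA

/-!
# As/VolB (size M): the area

`c0 = ∫ len 1`: Fubini (`MeasureTheory.Measure.prod_apply`, the set is closed), the fibre over `x` is
`{y | |y ^ 2 - x ^ 3| ≤ 1}`, of volume `ENNReal.ofReal (len 1 x)`: with `a = x ^ 3 - 1`, `b = x ^ 3 + 1` it is empty if `b < 0`,
`[-√b, √b]` if `a ≤ 0 ≤ b`, `[√a, √b] ∪ [-√b, -√a]` (disjoint) if `0 < a`. Then
`MeasureTheory.integral_eq_lintegral_of_nonneg_ae` (or `ofReal_integral_eq_lintegral_ofReal` with `len_integrable`).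
-/

set_option autoImplicit false

namespace Pool.Agent.Work.MP_f2148a_nt.As

open MeasureTheory

private theorem vol_ring {a b : ℝ} (ha : 0 ≤ a) (hab : a ≤ b) :
    volume {y : ℝ | a ≤ |y| ∧ |y| ≤ b} = ENNReal.ofReal (2 * (b - a)) := by
  have h1 : {y : ℝ | a ≤ |y| ∧ |y| ≤ b} = Set.Icc (-b) b \ Set.Ioo (-a) a := by
    ext y
    simp only [Set.mem_ofPred_eq, Set.mem_sdiff, Set.mem_Icc, Set.mem_Ioo, ← abs_lt, ← abs_le,
      not_lt]
    tauto
  have h2 : Set.Ioo (-a) a ⊆ Set.Icc (-b) b := fun y hy =>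
    ⟨by linarith [hy.1], by linarith [hy.2]⟩
  rw [h1, measure_sdiff h2 measurableSet_Ioo.nullMeasurableSet (by simp), Real.volume_Icc,
    Real.volume_Ioo, ← ENNReal.ofReal_sub _ (by linarith)]
  congr 1
  ring

private theorem vol_fib (x : ℝ) :
    volume {y : ℝ | |y ^ 2 - x ^ 3| ≤ 1} = ENNReal.ofReal (len 1 x) := by
  unfold len
  rcases lt_or_ge (x ^ 3 + 1) 0 with h | h
  · have h1 : {y : ℝ | |y ^ 2 - x ^ 3| ≤ 1} = ∅ := by
      ext y
      simp only [Set.mem_ofPred_eq, Set.mem_empty_iff_false, iff_false, abs_le, not_and, not_le]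
      intro _
      nlinarith [sq_nonneg y]
    rw [h1, measure_empty, Real.sqrt_eq_zero_of_nonpos h.le,
      Real.sqrt_eq_zero_of_nonpos (by linarith)]
    simp
  · have h1 : {y : ℝ | |y ^ 2 - x ^ 3| ≤ 1} =
        {y : ℝ | √(x ^ 3 - 1) ≤ |y| ∧ |y| ≤ √(x ^ 3 + 1)} := by
      ext y
      simp only [Set.mem_ofPred_eq]
      rw [Real.sqrt_le_iff, sq_abs, Real.le_sqrt (abs_nonneg y), sq_abs, abs_le]
      constructor
      · rintro ⟨h2, h3⟩
        exact ⟨⟨abs_nonneg y, by linarith⟩, by linarith⟩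
      · rintro ⟨⟨_, h2⟩, h3⟩
        exact ⟨by linarith, by linarith⟩
      · exact h
    rw [h1]
    exact vol_ring (Real.sqrt_nonneg _) (Real.sqrt_le_sqrt (by linarith))

theorem c0_eq : c0 = ∫ x, len 1 x := by
  have hm : MeasurableSet {p : ℝ × ℝ | |p.2 ^ 2 - p.1 ^ 3| ≤ 1} := by
    refine IsClosed.measurableSet (isClosed_le ?_ continuous_const)
    fun_prop
  have h1 : volume {p : ℝ × ℝ | |p.2 ^ 2 - p.1 ^ 3| ≤ 1} =
      ∫⁻ x, ENNReal.ofReal (len 1 x) := by
    rw [Measure.volume_eq_prod, Measure.prod_apply hm]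
    refine lintegral_congr fun x => ?_
    rw [← vol_fib]
    rfl
  have hc : Continuous (len 1) := by
    unfold len
    fun_prop
  have h0 : ∀ x, 0 ≤ len 1 x := by
    intro x
    unfold len
    have := Real.sqrt_le_sqrt (show x ^ 3 - 1 ≤ x ^ 3 + 1 by linarith)
    linarith
  rw [integral_eq_lintegral_of_nonneg_ae (Filter.Eventually.of_forall h0)
    hc.aestronglyMeasurable, c0, h1]

theorem c0_pos : 0 < c0 := by
  rw [c0_eq]
  exact len_pos

theorem integral_len {K : ℝ} (hK : 0 < K) : ∫ x, len K x = c0 * K ^ (5 / 6 : ℝ) := by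
  rw [c0_eq]
  exact len_scale hK

end Pool.Agent.Work.MP_f2148a_nt.As
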