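import Mathlib
import Pool.Agent.Work.MP_f2148a_nt.As.VolB
import Pool.Agent.Work.MP_f2148a_nt.As.Fib
import Pool.Agent.Work.MP_f2148a_nt.As.Uni
import Pool.Agent.Work.MP_f2148a_nt.As.Cusp

/-!
# As/Small (size M-L): the pairs with `x ≤ X`

Let `Q` be the set of all `t` with `|t.2 ^ 2 - t.1 ^ 3| ≤ K`, `t.1 ≤ X`; the set in the theorem is `Q` minus the set of
`cusp` (contained in `Q`), which has at most `3 X` elements. Put `a = -(⌈K ^ (1 / 3)⌉ + 1)` (an integer). For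
`t ∈ Q`, `t.1 ^ 3 ≥ -K`, so `t.1 > a`: `Q` is the disjoint union of the fibres over `n ∈ Finset.Ioc a X`, and
`|#Q - ∑ len K n| ≤ 2 (X + ⌈K ^ (1 / 3)⌉ + 1) ≤ 8 X` by `fib` (`K ^ (1 / 3) ≤ X`, `1 ≤ X`).
`sum_int` with `c = K ^ (1 / 3)`, `M = 2 √(2 K)` (`len_mono`, `len_anti`, `len_le`): `|∑ len K n - ∫ a..X| ≤ 4 √(2 K) ≤ 6 √K`.
`∫ a..X = ∫ - ∫ over Ioi X` since `len K = 0` on `Iic a` (`len_zero`, `a ^ 3 ≤ -K`), and `0 ≤ ∫ over Ioi X ≤ 8 K X ^ (-1 / 2)`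
(`tail`). `integral_len`.
-/

set_option autoImplicit false

namespace Pool.Agent.Work.MP_f2148a_nt.As

open MeasureTheory

private theorem cube_root {K : ℝ} (hK : 0 ≤ K) : (K ^ (1 / 3 : ℝ)) ^ 3 = K := by
  rw [← Real.rpow_natCast, ← Real.rpow_mul hK]
  norm_num

private theorem cube_le {x y : ℝ} (h : x ≤ y) : x ^ 3 ≤ y ^ 3 :=
  (Odd.strictMono_pow (by decide : Odd 3)).monotone h

private theorem cube_lt {x y : ℝ} (h : x < y) : x ^ 3 < y ^ 3 :=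
  (Odd.strictMono_pow (by decide : Odd 3)) h

/-- the number of pairs as a sum over the fibres -/
private theorem fibres {K : ℝ} (hK : 0 ≤ K) (a X : ℤ) (ha : (a : ℝ) ^ 3 < -K) :
    {t : ℤ × ℤ | |(t.2 : ℝ) ^ 2 - (t.1 : ℝ) ^ 3| ≤ K ∧ (t.1 : ℝ) ≤ X}.Finite ∧
    {t : ℤ × ℤ | |(t.2 : ℝ) ^ 2 - (t.1 : ℝ) ^ 3| ≤ K ∧ (t.1 : ℝ) ≤ X}.ncard =
      ∑ n ∈ Finset.Ioc a X, {y : ℤ | |(y : ℝ) ^ 2 - (n : ℝ) ^ 3| ≤ K}.ncard := by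
  classical
  have e : {t : ℤ × ℤ | |(t.2 : ℝ) ^ 2 - (t.1 : ℝ) ^ 3| ≤ K ∧ (t.1 : ℝ) ≤ X} =
      (((Finset.Ioc a X).biUnion fun n =>
        ((fib hK n).1.toFinset).image fun y => (n, y) : Finset (ℤ × ℤ)) : Set (ℤ × ℤ)) := by
    ext ⟨n, y⟩
    simp only [Set.mem_ofPred_eq, Finset.coe_biUnion, Finset.coe_image, Set.mem_iUnion,
      Set.mem_image, Finset.mem_coe, Finset.mem_Ioc, Set.Finite.mem_toFinset, Prod.mk.injEq]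
    constructor
    · rintro ⟨h1, h2⟩
      refine ⟨n, ⟨?_, by exact_mod_cast h2⟩, y, h1, rfl, rfl⟩
      by_contra hc
      have hc' : (n : ℝ) ≤ a := by exact_mod_cast not_lt.1 hc
      have h3 := cube_le hc'
      have h4 := (abs_le.1 h1).2
      have h5 : 0 ≤ (y : ℝ) ^ 2 := sq_nonneg _
      linarith
    · rintro ⟨n', ⟨h1, h2⟩, y', h3, rfl, rfl⟩
      exact ⟨h3, by exact_mod_cast h2⟩
  rw [e]
  refine ⟨Finset.finite_toSet _, ?_⟩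
  rw [Set.ncard_coe_finset, Finset.card_biUnion]
  · refine Finset.sum_congr rfl fun n _ => ?_
    rw [Finset.card_image_of_injective _ (fun y y' h => (Prod.mk.inj h).2)]
    exact (Set.ncard_eq_toFinset_card _ (fib hK n).1).symm
  · intro n _ n' _ hne
    refine Finset.disjoint_left.2 fun t ht ht' => ?_
    obtain ⟨y, -, rfl⟩ := Finset.mem_image.1 ht
    obtain ⟨y', -, h⟩ := Finset.mem_image.1 ht'
    exact hne (Prod.mk.inj h).1.symm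

theorem small {K : ℝ} (hK : 1 ≤ K) (X : ℕ) (hX : K ≤ (X : ℝ) ^ 3) :
    {t : ℤ × ℤ | t ∈ pr K ∧ (t.1 : ℝ) ≤ X}.Finite ∧
    |({t : ℤ × ℤ | t ∈ pr K ∧ (t.1 : ℝ) ≤ X}.ncard : ℝ) - c0 * K ^ (5 / 6 : ℝ)| ≤
      12 * X + 6 * √K + 8 * K * (X : ℝ) ^ (-(1 / 2) : ℝ) := by
  have hK0 : 0 ≤ K := zero_le_one.trans hK
  have hX1 : 1 ≤ X := by
    rcases Nat.eq_zero_or_pos X with h | h
    · subst h; norm_num at hX; linarith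
    · exact h
  have hX1' : (1 : ℝ) ≤ X := by exact_mod_cast hX1
  -- the cube root
  have hr3 := cube_root hK0
  have hr0 : 0 ≤ K ^ (1 / 3 : ℝ) := Real.rpow_nonneg hK0 _
  have hrX : K ^ (1 / 3 : ℝ) ≤ X := by
    by_contra hc
    have := cube_lt (not_le.1 hc)
    linarith
  obtain ⟨a0, ha0⟩ : ∃ a0 : ℤ, a0 = ⌈K ^ (1 / 3 : ℝ)⌉ + 1 := ⟨_, rfl⟩
  have h1 : K ^ (1 / 3 : ℝ) < a0 := by
    have := Int.le_ceil (K ^ (1 / 3 : ℝ))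
    rw [ha0]; push_cast; linarith
  have h2 : (a0 : ℝ) ≤ X + 1 := by
    have : ⌈K ^ (1 / 3 : ℝ)⌉ ≤ (X : ℤ) := Int.ceil_le.2 (by exact_mod_cast hrX)
    have h3 : a0 ≤ (X : ℤ) + 1 := by omega
    exact_mod_cast h3
  have h3 : K < (a0 : ℝ) ^ 3 := by
    have := cube_lt h1
    linarith
  have h4 : (((-a0 : ℤ) : ℝ)) ^ 3 < -K := by
    push_cast
    have : (-(a0 : ℝ)) ^ 3 = -(a0 : ℝ) ^ 3 := by ring
    rw [this]; linarith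
  have hpos : (0 : ℝ) < a0 := lt_of_le_of_lt hr0 h1
  have hab : -a0 ≤ (X : ℤ) := by
    have : (0 : ℤ) < a0 := by exact_mod_cast hpos
    omega
  obtain ⟨hQf, hQc⟩ := fibres hK0 (-a0) (X : ℤ) h4
  -- the set of all pairs
  have hXX : (((X : ℤ) : ℤ) : ℝ) = (X : ℝ) := by push_cast; rfl
  have e1 : |(∑ n ∈ Finset.Ioc (-a0) (X : ℤ), {y : ℤ | |(y : ℝ) ^ 2 - (n : ℝ) ^ 3| ≤ K}.ncard : ℕ)
      - ∑ n ∈ Finset.Ioc (-a0) (X : ℤ), len K (n : ℝ)| ≤ 6 * (X : ℝ) := by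
    push_cast
    rw [← Finset.sum_sub_distrib]
    refine (Finset.abs_sum_le_sum_abs _ _).trans ?_
    refine (Finset.sum_le_sum fun n _ => (fib hK0 n).2).trans ?_
    rw [Finset.sum_const, Int.card_Ioc, nsmul_eq_mul]
    have h5 : ((((X : ℤ) - (-a0)).toNat : ℕ) : ℝ) = X + a0 := by
      have h6 : (((X : ℤ) - (-a0)).toNat : ℤ) = X + a0 := by
        rw [Int.toNat_of_nonneg (by omega)]; ring
      exact_mod_cast h6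
    rw [h5]
    linarith
  -- the sum and the integral
  have e2 : |∑ n ∈ Finset.Ioc (-a0) (X : ℤ), len K (n : ℝ) -
      ∫ x in ((-a0 : ℤ) : ℝ)..((X : ℤ) : ℝ), len K x| ≤ 6 * √K := by
    refine (sum_int (c := K ^ (1 / 3 : ℝ)) (M := 2 * √(2 * K)) (len_nonneg hK0) (len_le hK0)
      (fun x y hxy hy => len_mono hK0 hxy ((cube_le hy).trans_eq hr3))
      (fun x y hx hxy => len_anti hK0 hxy (hr3.symm.trans_le (cube_le hx)))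
      (len_cont K) (-a0) (X : ℤ) hab).trans ?_
    rw [Real.sqrt_mul (by norm_num)]
    have h6 : √2 ≤ 3 / 2 := by
      rw [Real.sqrt_le_left (by norm_num)]; norm_num
    nlinarith [Real.sqrt_nonneg K, Real.sqrt_nonneg 2]
  -- the integral
  have hint := len_integrable hK0
  have e3 : ∫ x in ((-a0 : ℤ) : ℝ)..((X : ℤ) : ℝ), len K x =
      c0 * K ^ (5 / 6 : ℝ) - ∫ x in Set.Ioi (X : ℝ), len K x := by
    rw [← integral_len (zero_lt_one.trans_le hK), ← intervalIntegral.integral_Iic_add_Ioi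
      (b := ((-a0 : ℤ) : ℝ)) hint.integrableOn hint.integrableOn,
      ← intervalIntegral.integral_interval_add_Ioi (a := ((-a0 : ℤ) : ℝ)) (b := ((X : ℤ) : ℝ))
      hint.integrableOn hint.integrableOn, setIntegral_eq_zero_of_forall_eq_zero, hXX]
    · ring
    · intro x hx
      exact len_zero hK0 ((cube_le (Set.mem_Iic.1 hx)).trans h4.le)
  have e4 : 0 ≤ ∫ x in Set.Ioi (X : ℝ), len K x :=
    integral_nonneg fun x => len_nonneg hK0 x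
  have e5 : ∫ x in Set.Ioi (X : ℝ), len K x ≤ 8 * K * (X : ℝ) ^ (-(1 / 2) : ℝ) :=
    tail hK0 (by linarith) hX
  rw [e3] at e2
  rw [← hQc] at e1
  -- the cusp
  obtain ⟨hCf, hCc⟩ := cusp X hX1
  have hCc' : ({t : ℤ × ℤ | t.2 ^ 2 = t.1 ^ 3 ∧ (t.1 : ℝ) ≤ X}.ncard : ℝ) ≤ 3 * X := by
    exact_mod_cast hCc
  have e6 : {t : ℤ × ℤ | t ∈ pr K ∧ (t.1 : ℝ) ≤ X} =
      {t : ℤ × ℤ | |(t.2 : ℝ) ^ 2 - (t.1 : ℝ) ^ 3| ≤ K ∧ (t.1 : ℝ) ≤ ((X : ℤ) : ℝ)} \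
      {t : ℤ × ℤ | t.2 ^ 2 = t.1 ^ 3 ∧ (t.1 : ℝ) ≤ X} := by
    ext t
    simp only [pr, Set.mem_ofPred_eq, Set.mem_sdiff, not_and, hXX, ne_eq]
    tauto
  have e7 : {t : ℤ × ℤ | t.2 ^ 2 = t.1 ^ 3 ∧ (t.1 : ℝ) ≤ X} ⊆
      {t : ℤ × ℤ | |(t.2 : ℝ) ^ 2 - (t.1 : ℝ) ^ 3| ≤ K ∧ (t.1 : ℝ) ≤ ((X : ℤ) : ℝ)} := by
    rintro t ⟨h5, h6⟩
    refine ⟨?_, by rw [hXX]; exact h6⟩
    have h7 : (t.2 : ℝ) ^ 2 = (t.1 : ℝ) ^ 3 := by exact_mod_cast h5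
    rw [h7, sub_self, abs_zero]
    exact hK0
  rw [e6]
  refine ⟨hQf.subset Set.sdiff_subset, ?_⟩
  have e8 := Set.ncard_sdiff_add_ncard_of_subset e7 hQf
  have e9 : (({t : ℤ × ℤ | |(t.2 : ℝ) ^ 2 - (t.1 : ℝ) ^ 3| ≤ K ∧ (t.1 : ℝ) ≤ ((X : ℤ) : ℝ)} \
      {t : ℤ × ℤ | t.2 ^ 2 = t.1 ^ 3 ∧ (t.1 : ℝ) ≤ X}).ncard : ℝ) +
      ({t : ℤ × ℤ | t.2 ^ 2 = t.1 ^ 3 ∧ (t.1 : ℝ) ≤ X}.ncard : ℝ) =
      ({t : ℤ × ℤ | |(t.2 : ℝ) ^ 2 - (t.1 : ℝ) ^ 3| ≤ K ∧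
        (t.1 : ℝ) ≤ ((X : ℤ) : ℝ)}.ncard : ℝ) := by
    exact_mod_cast e8
  have e10 : (0 : ℝ) ≤ ({t : ℤ × ℤ | t.2 ^ 2 = t.1 ^ 3 ∧ (t.1 : ℝ) ≤ X}.ncard : ℝ) :=
    Nat.cast_nonneg _
  rw [abs_le] at e1 e2 ⊢
  constructor <;> linarith [e1.1, e1.2, e2.1, e2.2]

end Pool.Agent.Work.MP_f2148a_nt.As
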