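import Mathlib
import Pool.Agent.Work.MP_f2148a_nt.As.Small

/-!
# As/Tailpr (size M): few pairs with `x ≥ K ^ (1 / 3 + η)`

`X = ⌈K ^ (1 / 3 + η)⌉₊`, `K ≤ X ^ 3`, `X ≤ 2 K ^ (1 / 3 + η) ≤ 2 K ^ (1 / 2)`. The elements of `S` with `t.1 ≤ X` have
`t.1 = X`: at most `len K X + 2 ≤ 2 √(2 K) + 2 ≤ 5 √K` by `fib`, `len_le`. The other elements of `S` lie in `pr K` minus the
set of `small`: at most `A K ^ θ + 12 X + 6 √K + 8 K X ^ (-1 / 2)` by `Asy θ` and `small`, and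
`K X ^ (-1 / 2) ≤ K ^ (5 / 6 - η / 2)`, `√K ≤ K ^ (5 / 6 - η / 2)` (`η ≤ 1 / 6`).
-/

set_option autoImplicit false

namespace Pool.Agent.Work.MP_f2148a_nt.As

theorem tailpr {θ : ℝ} (hA : Asy θ) (η : ℝ) (hη : 0 ≤ η) (hη' : η ≤ 1 / 6) :
    ∃ A : ℝ, ∀ K : ℝ, 1 ≤ K → ∀ S : Finset (ℤ × ℤ),
    (∀ t ∈ S, t ∈ pr K ∧ K ^ (1 / 3 + η) ≤ (t.1 : ℝ)) →
    (S.card : ℝ) ≤ A * (K ^ θ + K ^ (5 / 6 - η / 2)) := by
  obtain ⟨A1, hA1⟩ := hA
  refine ⟨|A1| + 43, fun K hK S hS => ?_⟩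
  have hK0 : 0 < K := lt_of_lt_of_le one_pos hK
  obtain ⟨hfP, hP⟩ := hA1 K hK
  obtain ⟨k, hk⟩ : ∃ k : ℝ, k = K ^ (1 / 3 + η) := ⟨_, rfl⟩
  obtain ⟨X, hX⟩ : ∃ X : ℕ, X = ⌈k⌉₊ := ⟨_, rfl⟩
  obtain ⟨M, hM⟩ : ∃ M : ℝ, M = K ^ (5 / 6 - η / 2) := ⟨_, rfl⟩
  have hk1 : 1 ≤ k := by
    rw [hk]
    exact Real.one_le_rpow hK (by linarith)
  have hX1 : k ≤ X := by
    rw [hX]
    exact Nat.le_ceil k
  have hX2 : (X : ℝ) ≤ 2 * k := by
    have h1 := Nat.ceil_lt_add_one (zero_le_one.trans hk1)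
    rw [hX]
    linarith
  have hKX : K ≤ (X : ℝ) ^ 3 := by
    have h1 : K ^ (1 / 3 : ℝ) ≤ k := by
      rw [hk]
      exact Real.rpow_le_rpow_of_exponent_le hK (by linarith)
    have h2 : (K ^ (1 / 3 : ℝ)) ^ 3 = K := by
      rw [← Real.rpow_natCast, ← Real.rpow_mul hK0.le]
      norm_num
    calc K = (K ^ (1 / 3 : ℝ)) ^ 3 := h2.symm
      _ ≤ (X : ℝ) ^ 3 := pow_le_pow_left₀ (Real.rpow_nonneg hK0.le _) (h1.trans hX1) 3
  have hM1 : k ≤ M := by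
    rw [hk, hM]
    exact Real.rpow_le_rpow_of_exponent_le hK (by linarith)
  have hM2 : √K ≤ M := by
    rw [hM, Real.sqrt_eq_rpow]
    exact Real.rpow_le_rpow_of_exponent_le hK (by linarith)
  have hM3 : K * (X : ℝ) ^ (-(1 / 2) : ℝ) ≤ M := by
    have h1 : (X : ℝ) ^ (-(1 / 2) : ℝ) ≤ k ^ (-(1 / 2) : ℝ) :=
      Real.rpow_le_rpow_of_nonpos (by linarith) hX1 (by norm_num)
    have h2 : K * k ^ (-(1 / 2) : ℝ) = M := by
      rw [hk, hM, ← Real.rpow_mul hK0.le]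
      nth_rewrite 1 [← Real.rpow_one K]
      rw [← Real.rpow_add hK0]
      congr 1
      ring
    calc K * (X : ℝ) ^ (-(1 / 2) : ℝ) ≤ K * k ^ (-(1 / 2) : ℝ) :=
          mul_le_mul_of_nonneg_left h1 hK0.le
      _ = M := h2
  obtain ⟨hfQ, hQ⟩ := small hK X hKX
  obtain ⟨hfF, hF⟩ := fib hK0.le (X : ℤ)
  have hge : ∀ t ∈ S, (X : ℤ) ≤ t.1 := by
    intro t ht
    have h1 := (hS t ht).2
    rw [← hk] at h1
    have h0 : (0 : ℝ) ≤ (t.1 : ℝ) := (zero_le_one.trans hk1).trans h1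
    have h0' : 0 ≤ t.1 := by exact_mod_cast h0
    obtain ⟨n, hn⟩ := Int.eq_ofNat_of_zero_le h0'
    rw [hn] at h1 ⊢
    rw [hX, Nat.cast_le, Nat.ceil_le]
    exact_mod_cast h1
  -- the pairs with `t.1 = X`
  have hS1 : ((S.filter fun t => t.1 = (X : ℤ)).card : ℝ) ≤ 5 * √K := by
    have h1 : ((S.filter fun t => t.1 = (X : ℤ)).image Prod.snd).card =
        (S.filter fun t => t.1 = (X : ℤ)).card := by
      refine Finset.card_image_of_injOn fun t ht u hu htu => ?_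
      have h2 := (Finset.mem_filter.1 (Finset.mem_coe.1 ht)).2
      have h3 := (Finset.mem_filter.1 (Finset.mem_coe.1 hu)).2
      exact Prod.ext (h2.trans h3.symm) htu
    have h4 : (((S.filter fun t => t.1 = (X : ℤ)).image Prod.snd : Finset ℤ) : Set ℤ) ⊆
        {y : ℤ | |(y : ℝ) ^ 2 - ((X : ℤ) : ℝ) ^ 3| ≤ K} := by
      intro y hy
      obtain ⟨t, ht, rfl⟩ := Finset.mem_image.1 (Finset.mem_coe.1 hy)
      obtain ⟨h5, h6⟩ := Finset.mem_filter.1 ht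
      have h7 := (hS t h5).1.2
      rw [h6] at h7
      exact h7
    have h5 := Set.ncard_le_ncard h4 hfF
    rw [Set.ncard_coe_finset, h1] at h5
    have h6 : ((S.filter fun t => t.1 = (X : ℤ)).card : ℝ) ≤
        ({y : ℤ | |(y : ℝ) ^ 2 - ((X : ℤ) : ℝ) ^ 3| ≤ K}.ncard : ℝ) := by exact_mod_cast h5
    have h7 := (abs_le.1 hF).2
    have h8 := len_le hK0.le ((X : ℤ) : ℝ)
    have h9 : √(2 * K) ≤ 3 / 2 * √K := by
      rw [Real.sqrt_le_left (by positivity), mul_pow, Real.sq_sqrt hK0.le]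
      linarith
    have h10 : 1 ≤ √K := Real.one_le_sqrt.2 hK
    linarith
  -- the other pairs
  have hS2 : ((S.filter fun t => ¬ t.1 = (X : ℤ)).card : ℝ) ≤
      A1 * K ^ θ + (12 * X + 6 * √K + 8 * K * (X : ℝ) ^ (-(1 / 2) : ℝ)) := by
    have h1 : Disjoint ((S.filter fun t => ¬ t.1 = (X : ℤ) : Finset (ℤ × ℤ)) : Set (ℤ × ℤ))
        {t : ℤ × ℤ | t ∈ pr K ∧ (t.1 : ℝ) ≤ X} := by
      rw [Set.disjoint_left]
      intro t ht hu
      obtain ⟨h2, h3⟩ := Finset.mem_filter.1 (Finset.mem_coe.1 ht)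
      have h4 : t.1 ≤ (X : ℤ) := by exact_mod_cast hu.2
      exact h3 (le_antisymm h4 (hge t h2))
    have h2 : ((S.filter fun t => ¬ t.1 = (X : ℤ) : Finset (ℤ × ℤ)) : Set (ℤ × ℤ)) ∪
        {t : ℤ × ℤ | t ∈ pr K ∧ (t.1 : ℝ) ≤ X} ⊆ pr K := by
      refine Set.union_subset (fun t ht => ?_) fun t ht => ht.1
      exact (hS t (Finset.mem_filter.1 (Finset.mem_coe.1 ht)).1).1
    have h3 := Set.ncard_le_ncard h2 hfP
    rw [Set.ncard_union_eq h1 (Finset.finite_toSet _) hfQ, Set.ncard_coe_finset] at h3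
    have h4 : ((S.filter fun t => ¬ t.1 = (X : ℤ)).card : ℝ) +
        ({t : ℤ × ℤ | t ∈ pr K ∧ (t.1 : ℝ) ≤ X}.ncard : ℝ) ≤ ((pr K).ncard : ℝ) := by
      exact_mod_cast h3
    have h5 := (abs_le.1 hP).2
    have h6 := (abs_le.1 hQ).1
    linarith
  have hc : (S.card : ℝ) = ((S.filter fun t => t.1 = (X : ℤ)).card : ℝ) +
      ((S.filter fun t => ¬ t.1 = (X : ℤ)).card : ℝ) := by
    rw [← Nat.cast_add, Finset.card_filter_add_card_filter_not]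
  have hθ : 0 ≤ K ^ θ := Real.rpow_nonneg hK0.le θ
  have hM0 : 0 ≤ M := (Real.sqrt_nonneg K).trans hM2
  have h1 : A1 * K ^ θ ≤ |A1| * K ^ θ := mul_le_mul_of_nonneg_right (le_abs_self A1) hθ
  have h2 : 0 ≤ |A1| * M := mul_nonneg (abs_nonneg _) hM0
  have h3 : 8 * K * (X : ℝ) ^ (-(1 / 2) : ℝ) ≤ 8 * M := by
    rw [mul_assoc]
    linarith
  rw [← hM, hc]
  have e : (|A1| + 43) * (K ^ θ + M) = |A1| * K ^ θ + |A1| * M + 43 * K ^ θ + 43 * M := by ring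
  rw [e]
  linarith

end Pool.Agent.Work.MP_f2148a_nt.As
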