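import Mathlib
import Pool.Agent.Work.MP_f2148a_nt.As.Tailpr
import Pool.Agent.Work.MP_f2148a_nt.As.Coin

/-!
# As/Cnt (size M-L): the number of solvable `k`

`φ t = t.2 ^ 2 - t.1 ^ 3`, `P = {t ∈ pr K | 0 ≤ t.2}`: `sol K = φ '' P`. `#(pr K) = 2 #P - #{t ∈ pr K | t.2 = 0}` and the last
number is at most `2 K ^ (1 / 3) + 1 ≤ 3 K ^ (1 / 3)`. So `#sol ≤ #P ≤ #(pr K) / 2 + 2 K ^ (1 / 3)`.
`η = 1 / 15`, `P' = {t ∈ P | t.1 ≤ K ^ (1 / 3 + η)}`, `#P' ≥ #P - A (K ^ θ + K ^ (4 / 5))` (`tailpr`). If `t ≠ t'` are in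
`P'` and `φ t = φ t'` then `t.1 ≠ t'.1` (else `t.2 ^ 2 = t'.2 ^ 2`, `t.2 = t'.2`), and `|t.1| ≤ K ^ (1 / 3 + η)`
(`t.1 ^ 3 ≥ -K`): `coin` with `ε = θ - 4 / 5` bounds the number of such pairs `(t, t')` by `A' K ^ θ`, so also the number of
the `t ∈ P'` that have a partner; `φ` is injective on the rest of `P'`. Hence `#sol ≥ #P' - A' K ^ θ`.
-/

set_option autoImplicit false

namespace Pool.Agent.Work.MP_f2148a_nt.As

open Classical in
private theorem card_half (F : Finset (ℤ × ℤ)) (hF : ∀ t ∈ F, (t.1, -t.2) ∈ F) :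
    F.card + (F.filter fun t => t.2 = 0).card = 2 * (F.filter fun t => 0 ≤ t.2).card := by
  have h1 : (F.filter fun t => 0 ≤ t.2).card + (F.filter fun t => ¬ 0 ≤ t.2).card = F.card :=
    Finset.card_filter_add_card_filter_not _
  have h2 : (F.filter fun t => ¬ 0 ≤ t.2).card = (F.filter fun t => 0 < t.2).card := by
    refine Finset.card_bij' (fun t _ => (t.1, -t.2)) (fun t _ => (t.1, -t.2)) ?_ ?_ ?_ ?_
    · intro t ht
      rw [Finset.mem_filter] at ht ⊢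
      exact ⟨hF t ht.1, by simpa using ht.2⟩
    · intro t ht
      rw [Finset.mem_filter] at ht ⊢
      exact ⟨hF t ht.1, by simpa using ht.2⟩
    · intro t _
      simp
    · intro t _
      simp
  have h3 : (F.filter fun t => 0 < t.2).card + (F.filter fun t => t.2 = 0).card =
      (F.filter fun t => 0 ≤ t.2).card := by
    rw [← Finset.card_union_of_disjoint]
    · congr 1
      ext t
      simp only [Finset.mem_union, Finset.mem_filter]
      constructor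
      · rintro (⟨h, h'⟩ | ⟨h, h'⟩)
        · exact ⟨h, h'.le⟩
        · exact ⟨h, h'.ge⟩
      · rintro ⟨h, h'⟩
        rcases h'.lt_or_eq with h'' | h''
        · exact Or.inl ⟨h, h''⟩
        · exact Or.inr ⟨h, h''.symm⟩
    · rw [Finset.disjoint_left]
      intro t ht ht'
      rw [Finset.mem_filter] at ht ht'
      omega
  omega

private theorem abs_le_of_cube {K : ℝ} {x : ℤ} (h : |(x : ℝ) ^ 3| ≤ K) :
    |(x : ℝ)| ≤ K ^ (1 / 3 : ℝ) := by
  rw [abs_pow] at h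
  have h0 : |(x : ℝ)| = (|(x : ℝ)| ^ 3) ^ (1 / 3 : ℝ) := by
    rw [← Real.rpow_natCast, ← Real.rpow_mul (abs_nonneg _)]
    norm_num
  rw [h0]
  exact Real.rpow_le_rpow (by positivity) h (by norm_num)

private theorem card_zero {K : ℝ} (hK : 1 ≤ K) (Z : Finset (ℤ × ℤ)) (hZ : ∀ t ∈ Z, t ∈ pr K ∧ t.2 = 0) :
    (Z.card : ℝ) ≤ 3 * K ^ (1 / 3 : ℝ) := by
  have hR : (1 : ℝ) ≤ K ^ (1 / 3 : ℝ) := Real.one_le_rpow hK (by norm_num)
  set R := K ^ (1 / 3 : ℝ)
  have h1 : Z.card ≤ (Finset.Icc (-(⌊R⌋₊ : ℤ)) (⌊R⌋₊ : ℤ)).card := by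
    refine Finset.card_le_card_of_injOn (fun t => t.1) ?_ ?_
    · intro t ht
      obtain ⟨h, h0⟩ := hZ t ht
      have h2 := h.2
      rw [h0] at h2
      have h3 : |(t.1 : ℝ) ^ 3| ≤ K := by
        have : |((0 : ℤ) : ℝ) ^ 2 - (t.1 : ℝ) ^ 3| = |(t.1 : ℝ) ^ 3| := by
          rw [← abs_neg]; congr 1; push_cast; ring
        rwa [this] at h2
      have h4 := abs_le_of_cube h3
      have h5 : (t.1.natAbs : ℝ) ≤ R := by
        rw [Nat.cast_natAbs]
        push_cast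
        exact h4
      have h6 : t.1.natAbs ≤ ⌊R⌋₊ := Nat.le_floor h5
      rw [Finset.mem_coe, Finset.mem_Icc]
      show -(⌊R⌋₊ : ℤ) ≤ t.1 ∧ t.1 ≤ (⌊R⌋₊ : ℤ)
      omega
    · intro t ht t' ht' h
      have h1 := (hZ t ht).2
      have h2 := (hZ t' ht').2
      exact Prod.ext h (h1.trans h2.symm)
  have h2 : ((Finset.Icc (-(⌊R⌋₊ : ℤ)) (⌊R⌋₊ : ℤ)).card : ℝ) = 2 * (⌊R⌋₊ : ℝ) + 1 := by
    rw [Int.card_Icc]
    have : ((⌊R⌋₊ : ℤ) + 1 - -(⌊R⌋₊ : ℤ)).toNat = 2 * ⌊R⌋₊ + 1 := by omega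
    rw [this]
    push_cast
    ring
  have h3 : (⌊R⌋₊ : ℝ) ≤ R := Nat.floor_le (by linarith)
  have h4 : (Z.card : ℝ) ≤ ((Finset.Icc (-(⌊R⌋₊ : ℤ)) (⌊R⌋₊ : ℤ)).card : ℝ) := by exact_mod_cast h1
  linarith

theorem cnt {θ : ℝ} (hA : Asy θ) (hθ : 4 / 5 < θ) :
    ∃ A : ℝ, ∀ K : ℝ, 1 ≤ K → (sol K).Finite ∧
      |((sol K).ncard : ℝ) - c0 / 2 * K ^ (5 / 6 : ℝ)| ≤ A * K ^ θ := by
  classical
  obtain ⟨A0, hA0⟩ := id hA
  obtain ⟨A1, hA1⟩ := tailpr hA (1 / 15) (by norm_num) (by norm_num)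
  obtain ⟨A2, hA2⟩ := coin (1 / 15) (θ - 4 / 5) (by norm_num) (by linarith)
  refine ⟨|A0| / 2 + 2 * |A1| + |A2| + 2, fun K hK => ?_⟩
  obtain ⟨hfin, hasy⟩ := hA0 K hK
  set F : Finset (ℤ × ℤ) := hfin.toFinset with hFdef
  have hFm : ∀ t, t ∈ F ↔ t ∈ pr K := fun t => Set.Finite.mem_toFinset _
  have hFc : (pr K).ncard = F.card := Set.ncard_eq_toFinset_card _ hfin
  rw [hFc] at hasy
  set φ : ℤ × ℤ → ℤ := fun t => t.2 ^ 2 - t.1 ^ 3 with hφ
  set P := F.filter fun t => 0 ≤ t.2 with hP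
  have hsym : ∀ t ∈ F, (t.1, -t.2) ∈ F := by
    intro t ht
    rw [hFm] at ht ⊢
    obtain ⟨h1, h2⟩ := ht
    refine ⟨by simpa using h1, ?_⟩
    simpa using h2
  have hhalf := card_half F hsym
  have hZ := card_zero hK (F.filter fun t => t.2 = 0) (fun t ht => by
    rw [Finset.mem_filter, hFm] at ht
    exact ht)
  -- sol K is the image
  have hsol : sol K = ((P.image φ : Finset ℤ) : Set ℤ) := by
    ext k
    simp only [Finset.coe_image, Set.mem_image, Finset.mem_coe]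
    constructor
    · rintro ⟨h0, h1, x, y, h2⟩
      have hk : k = y ^ 2 - x ^ 3 := by linarith
      refine ⟨(x, |y|), ?_, ?_⟩
      · rw [hP, Finset.mem_filter, hFm]
        refine ⟨⟨?_, ?_⟩, abs_nonneg _⟩
        · simp only [sq_abs]
          intro h
          apply h0
          rw [hk, h, sub_self]
        · have : (((|y| : ℤ) : ℝ)) ^ 2 - (x : ℝ) ^ 3 = (k : ℝ) := by
            rw [hk]
            push_cast
            rw [sq_abs]
          show |(((|y| : ℤ) : ℝ)) ^ 2 - (x : ℝ) ^ 3| ≤ K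
          rw [this]
          exact h1
      · simp only [hφ, sq_abs]
        exact hk.symm
    · rintro ⟨t, ht, rfl⟩
      rw [hP, Finset.mem_filter, hFm] at ht
      refine ⟨sub_ne_zero.mpr ht.1.1, ?_, t.1, t.2, by simp only [hφ]; ring⟩
      have := ht.1.2
      simp only [hφ]
      push_cast
      exact this
  have hsolc : (sol K).ncard = (P.image φ).card := by
    rw [hsol, Set.ncard_coe_finset]
  refine ⟨by rw [hsol]; exact Finset.finite_toSet _, ?_⟩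
  rw [hsolc]
  -- upper bound
  have hup : (P.image φ).card ≤ P.card := Finset.card_image_le
  -- lower bound
  set P1 := P.filter fun t => (t.1 : ℝ) ≤ K ^ (1 / 3 + 1 / 15 : ℝ) with hP1
  set P2 := P.filter fun t => ¬ (t.1 : ℝ) ≤ K ^ (1 / 3 + 1 / 15 : ℝ) with hP2
  have hP12 : P1.card + P2.card = P.card := Finset.card_filter_add_card_filter_not _
  have hPF : ∀ t ∈ P, t ∈ pr K := by
    intro t ht
    rw [hP, Finset.mem_filter, hFm] at ht
    exact ht.1
  have hP2c := hA1 K hK P2 (fun t ht => by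
    rw [hP2, Finset.mem_filter] at ht
    exact ⟨hPF t ht.1, (not_le.mp ht.2).le⟩)
  set S := (P1 ×ˢ P1).filter (fun q : (ℤ × ℤ) × (ℤ × ℤ) => q.1 ≠ q.2 ∧ φ q.1 = φ q.2) with hS
  have hRpos : (1 : ℝ) ≤ K ^ (1 / 3 + 1 / 15 : ℝ) := Real.one_le_rpow hK (by norm_num)
  have habs : ∀ t ∈ P1, |(t.1 : ℝ)| ≤ K ^ (1 / 3 + 1 / 15 : ℝ) := by
    intro t ht
    rw [hP1, Finset.mem_filter] at ht
    rw [abs_le]
    refine ⟨?_, ht.2⟩
    by_contra hcon
    push Not at hcon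
    have h1 := (hPF t ht.1).2
    have h2 : (0 : ℝ) ≤ (t.2 : ℝ) ^ 2 := sq_nonneg _
    have hx : (t.1 : ℝ) < 0 := by linarith
    have h3 : |(t.1 : ℝ) ^ 3| ≤ K := by
      have h4 : (t.1 : ℝ) ^ 3 ≤ 0 := by
        have : (t.1 : ℝ) ^ 3 = (t.1 : ℝ) * (t.1 : ℝ) ^ 2 := by ring
        rw [this]
        exact mul_nonpos_of_nonpos_of_nonneg hx.le (sq_nonneg _)
      rw [abs_of_nonpos h4]
      have h5 := (abs_le.mp h1).2
      linarith
    have h6 := abs_le_of_cube h3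
    have h7 : K ^ (1 / 3 : ℝ) ≤ K ^ (1 / 3 + 1 / 15 : ℝ) :=
      Real.rpow_le_rpow_of_exponent_le hK (by norm_num)
    rw [abs_of_neg hx] at h6
    linarith
  have hSc := hA2 K hK S (fun q hq => by
    rw [hS, Finset.mem_filter, Finset.mem_product] at hq
    obtain ⟨⟨h1, h2⟩, h3, h4⟩ := hq
    refine ⟨habs _ h1, habs _ h2, ?_, h4⟩
    intro h5
    apply h3
    have h6 : q.1.2 ^ 2 = q.2.2 ^ 2 := by
      simp only [hφ] at h4
      rw [h5] at h4
      linarith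
    have h7 : 0 ≤ q.1.2 := by
      rw [hP1, Finset.mem_filter, hP, Finset.mem_filter] at h1
      exact h1.1.2
    have h8 : 0 ≤ q.2.2 := by
      rw [hP1, Finset.mem_filter, hP, Finset.mem_filter] at h2
      exact h2.1.2
    have h9 : q.1.2 = q.2.2 := by
      rcases sq_eq_sq_iff_eq_or_eq_neg.mp h6 with h | h
      · exact h
      · omega
    exact Prod.ext h5 h9)
  set B := P1.filter (fun t => ∃ t' ∈ P1, t ≠ t' ∧ φ t = φ t') with hB
  have hBS : B.card ≤ S.card := by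
    have : B ⊆ S.image Prod.fst := by
      intro t ht
      rw [hB, Finset.mem_filter] at ht
      obtain ⟨h1, t', h2, h3, h4⟩ := ht
      rw [Finset.mem_image]
      refine ⟨(t, t'), ?_, rfl⟩
      rw [hS, Finset.mem_filter, Finset.mem_product]
      exact ⟨⟨h1, h2⟩, h3, h4⟩
    exact (Finset.card_le_card this).trans Finset.card_image_le
  have hlow : P1.card - B.card ≤ (P.image φ).card := by
    have h1 : ((P1 \ B).image φ).card = (P1 \ B).card := by
      refine Finset.card_image_of_injOn ?_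
      intro t ht t' ht' h
      by_contra hne
      have h1 : t ∈ P1 \ B := ht
      have h2 : t' ∈ P1 \ B := ht'
      rw [Finset.mem_sdiff] at h1 h2
      apply h1.2
      rw [hB, Finset.mem_filter]
      exact ⟨h1.1, t', h2.1, hne, h⟩
    have h2 : ((P1 \ B).image φ) ⊆ P.image φ := by
      refine Finset.image_subset_image ?_
      intro t ht
      rw [Finset.mem_sdiff, hP1, Finset.mem_filter] at ht
      exact ht.1.1
    have h3 : (P1 \ B).card = P1.card - B.card :=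
      Finset.card_sdiff_of_subset (Finset.filter_subset _ _)
    rw [← h3, ← h1]
    exact Finset.card_le_card h2
  -- numbers
  have e1 : (1 / 3 + 1 / 15 : ℝ) = 1 / 3 + 1 / 15 := rfl
  have hKθ : (1 : ℝ) ≤ K ^ θ := Real.one_le_rpow hK (by linarith)
  have hK3 : K ^ (1 / 3 : ℝ) ≤ K ^ θ := Real.rpow_le_rpow_of_exponent_le hK (by linarith)
  have hK45 : K ^ (5 / 6 - 1 / 15 / 2 : ℝ) ≤ K ^ θ :=
    Real.rpow_le_rpow_of_exponent_le hK (by linarith)
  have hexp : (2 / 3 + 2 * (1 / 15) + (θ - 4 / 5) : ℝ) = θ := by ring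
  rw [hexp] at hSc
  have hhalfR : (F.card : ℝ) + ((F.filter fun t => t.2 = 0).card : ℝ) = 2 * (P.card : ℝ) := by
    exact_mod_cast hhalf
  have hP12R : (P1.card : ℝ) + (P2.card : ℝ) = (P.card : ℝ) := by exact_mod_cast hP12
  have hupR : ((P.image φ).card : ℝ) ≤ (P.card : ℝ) := by exact_mod_cast hup
  have hBSR : (B.card : ℝ) ≤ (S.card : ℝ) := by exact_mod_cast hBS
  have hlowR : (P1.card : ℝ) - (B.card : ℝ) ≤ ((P.image φ).card : ℝ) := by
    have : P1.card ≤ (P.image φ).card + B.card := by omega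
    have : (P1.card : ℝ) ≤ ((P.image φ).card : ℝ) + (B.card : ℝ) := by exact_mod_cast this
    linarith
  have hZ0 : (0 : ℝ) ≤ ((F.filter fun t => t.2 = 0).card : ℝ) := Nat.cast_nonneg _
  have hA0' : A0 * K ^ θ ≤ |A0| * K ^ θ := mul_le_mul_of_nonneg_right (le_abs_self _) (by linarith)
  have hA2' : A2 * K ^ θ ≤ |A2| * K ^ θ := mul_le_mul_of_nonneg_right (le_abs_self _) (by linarith)
  have hA1' : A1 * (K ^ θ + K ^ (5 / 6 - 1 / 15 / 2 : ℝ)) ≤ |A1| * (2 * K ^ θ) := by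
    refine (mul_le_mul_of_nonneg_right (le_abs_self _) (by positivity)).trans ?_
    exact mul_le_mul_of_nonneg_left (by linarith) (abs_nonneg _)
  obtain ⟨ha, hb⟩ := abs_le.mp hasy
  have hAA0 : 0 ≤ |A0| * K ^ θ := by positivity
  have hAA1 : 0 ≤ |A1| * K ^ θ := by positivity
  have hAA2 : 0 ≤ |A2| * K ^ θ := by positivity
  rw [abs_le]
  constructor
  · nlinarith [hP2c, hSc]
  · nlinarith [hP2c, hSc]

end Pool.Agent.Work.MP_f2148a_nt.As
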