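import Mathlib
import Pool.Agent.Work.MP_f2148a_nt.As.Cnt

/-!
# As/Two: few `k` have two solutions with different `x` (helper4)

`P = {t ∈ pr K | 0 ≤ t.2}`, `φ t = t.2 ^ 2 - t.1 ^ 3`, `#P = (#(pr K) + #{t | t.2 = 0}) / 2`. Every `k ∈ sol K` has a
fibre in `P`, and the fibre of `k ∈ two K` has two elements. So `#two ≤ #P - #sol`.
-/

set_option autoImplicit false

namespace Pool.Agent.Work.MP_f2148a_nt.As

/-- the `k` with `0 < |k| ≤ K` such that `y ^ 2 = x ^ 3 + k` has two solutions with different `x` -/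
def two (K : ℝ) : Set ℤ := {k | k ≠ 0 ∧ |(k : ℝ)| ≤ K ∧
  ∃ x y x' y' : ℤ, y ^ 2 = x ^ 3 + k ∧ y' ^ 2 = x' ^ 3 + k ∧ x' ≠ x}

open Classical in
theorem card_half (F : Finset (ℤ × ℤ)) (hF : ∀ t ∈ F, (t.1, -t.2) ∈ F) :
    F.card + (F.filter fun t => t.2 = 0).card = 2 * (F.filter fun t => 0 ≤ t.2).card := by
  have h1 : (F.filter fun t => 0 ≤ t.2).card + (F.filter fun t => ¬ 0 ≤ t.2).card = F.card :=
    Finset.card_filter_add_card_filter_not _
  have h2 : (F.filter fun t => ¬ 0 ≤ t.2).card = (F.filter fun t => 0 < t.2).card := by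
    refine Finset.card_bij' (fun t _ => (t.1, -t.2)) (fun t _ => (t.1, -t.2)) ?_ ?_ ?_ ?_
    · intro t ht
      rw [Finset.mem_filter] at ht ⊢
      exact ⟨hF t ht.1, by simpa using ht.2⟩
    · intro t ht
      rw [Finset.mem_filter] at ht ⊢
      exact ⟨hF t ht.1, by simpa using ht.2⟩
    · intro t _
      simp
    · intro t _
      simp
  have h3 : (F.filter fun t => 0 < t.2).card + (F.filter fun t => t.2 = 0).card =
      (F.filter fun t => 0 ≤ t.2).card := by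
    rw [← Finset.card_union_of_disjoint]
    · congr 1
      ext t
      simp only [Finset.mem_union, Finset.mem_filter]
      constructor
      · rintro (⟨h, h'⟩ | ⟨h, h'⟩)
        · exact ⟨h, h'.le⟩
        · exact ⟨h, h'.ge⟩
      · rintro ⟨h, h'⟩
        rcases h'.lt_or_eq with h'' | h''
        · exact Or.inl ⟨h, h''⟩
        · exact Or.inr ⟨h, h''.symm⟩
    · rw [Finset.disjoint_left]
      intro t ht ht'
      rw [Finset.mem_filter] at ht ht'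
      omega
  omega

private theorem abs_le_of_cube {K : ℝ} {x : ℤ} (h : |(x : ℝ) ^ 3| ≤ K) :
    |(x : ℝ)| ≤ K ^ (1 / 3 : ℝ) := by
  rw [abs_pow] at h
  have h0 : |(x : ℝ)| = (|(x : ℝ)| ^ 3) ^ (1 / 3 : ℝ) := by
    rw [← Real.rpow_natCast, ← Real.rpow_mul (abs_nonneg _)]
    norm_num
  rw [h0]
  exact Real.rpow_le_rpow (by positivity) h (by norm_num)

theorem card_zero {K : ℝ} (hK : 1 ≤ K) (Z : Finset (ℤ × ℤ)) (hZ : ∀ t ∈ Z, t ∈ pr K ∧ t.2 = 0) :
    (Z.card : ℝ) ≤ 3 * K ^ (1 / 3 : ℝ) := by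
  have hR : (1 : ℝ) ≤ K ^ (1 / 3 : ℝ) := Real.one_le_rpow hK (by norm_num)
  set R := K ^ (1 / 3 : ℝ)
  have h1 : Z.card ≤ (Finset.Icc (-(⌊R⌋₊ : ℤ)) (⌊R⌋₊ : ℤ)).card := by
    refine Finset.card_le_card_of_injOn (fun t => t.1) ?_ ?_
    · intro t ht
      obtain ⟨h, h0⟩ := hZ t ht
      have h2 := h.2
      rw [h0] at h2
      have h3 : |(t.1 : ℝ) ^ 3| ≤ K := by
        have : |((0 : ℤ) : ℝ) ^ 2 - (t.1 : ℝ) ^ 3| = |(t.1 : ℝ) ^ 3| := by
          rw [← abs_neg]; congr 1; push_cast; ring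
        rwa [this] at h2
      have h4 := abs_le_of_cube h3
      have h5 : (t.1.natAbs : ℝ) ≤ R := by
        rw [Nat.cast_natAbs]
        push_cast
        exact h4
      have h6 : t.1.natAbs ≤ ⌊R⌋₊ := Nat.le_floor h5
      rw [Finset.mem_coe, Finset.mem_Icc]
      show -(⌊R⌋₊ : ℤ) ≤ t.1 ∧ t.1 ≤ (⌊R⌋₊ : ℤ)
      omega
    · intro t ht t' ht' h
      have h1 := (hZ t ht).2
      have h2 := (hZ t' ht').2
      exact Prod.ext h (h1.trans h2.symm)
  have h2 : ((Finset.Icc (-(⌊R⌋₊ : ℤ)) (⌊R⌋₊ : ℤ)).card : ℝ) = 2 * (⌊R⌋₊ : ℝ) + 1 := by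
    rw [Int.card_Icc]
    have : ((⌊R⌋₊ : ℤ) + 1 - -(⌊R⌋₊ : ℤ)).toNat = 2 * ⌊R⌋₊ + 1 := by omega
    rw [this]
    push_cast
    ring
  have h3 : (⌊R⌋₊ : ℝ) ≤ R := Nat.floor_le (by linarith)
  have h4 : (Z.card : ℝ) ≤ ((Finset.Icc (-(⌊R⌋₊ : ℤ)) (⌊R⌋₊ : ℤ)).card : ℝ) := by exact_mod_cast h1
  linarith

theorem mem_pr_abs {K : ℝ} {k x y : ℤ} (hk : k ≠ 0) (hkK : |(k : ℝ)| ≤ K)
    (h : y ^ 2 = x ^ 3 + k) : ((x, |y|) : ℤ × ℤ) ∈ pr K ∧ |y| ^ 2 - x ^ 3 = k := by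
  have hk' : |y| ^ 2 - x ^ 3 = k := by
    rw [sq_abs]
    linarith
  refine ⟨⟨?_, ?_⟩, hk'⟩
  · intro h1
    simp only at h1
    apply hk
    rw [← hk', h1, sub_self]
  · have h1 : (((|y| : ℤ) : ℝ)) ^ 2 - (x : ℝ) ^ 3 = (k : ℝ) := by
      rw [← hk']
      push_cast
      ring
    show |(((|y| : ℤ) : ℝ)) ^ 2 - (x : ℝ) ^ 3| ≤ K
    rw [h1]
    exact hkK

/-- few `k` have two solutions with different `x` -/
theorem card_two {θ : ℝ} (hA : Asy θ) (hθ : 4 / 5 < θ) :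
    ∃ A : ℝ, ∀ K : ℝ, 1 ≤ K → (two K).Finite ∧ ((two K).ncard : ℝ) ≤ A * K ^ θ := by
  classical
  obtain ⟨A1, hA1⟩ := cnt hA hθ
  obtain ⟨A0, hA0⟩ := hA
  refine ⟨|A0| / 2 + |A1| + 2, fun K hK => ?_⟩
  obtain ⟨hfin, hasy⟩ := hA0 K hK
  obtain ⟨hsfin, hsasy⟩ := hA1 K hK
  have hsub : two K ⊆ sol K := by
    rintro k ⟨h0, h1, x, y, -, -, h2, -, -⟩
    exact ⟨h0, h1, x, y, h2⟩
  have htfin : (two K).Finite := hsfin.subset hsub
  refine ⟨htfin, ?_⟩
  set F : Finset (ℤ × ℤ) := hfin.toFinset with hFdef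
  have hFm : ∀ t, t ∈ F ↔ t ∈ pr K := fun t => Set.Finite.mem_toFinset _
  have hFc : (pr K).ncard = F.card := Set.ncard_eq_toFinset_card _ hfin
  rw [hFc] at hasy
  set S : Finset ℤ := hsfin.toFinset with hSdef
  have hSm : ∀ t, t ∈ S ↔ t ∈ sol K := fun t => Set.Finite.mem_toFinset _
  have hSc : (sol K).ncard = S.card := Set.ncard_eq_toFinset_card _ hsfin
  rw [hSc] at hsasy
  set T : Finset ℤ := htfin.toFinset with hTdef
  have hTm : ∀ t, t ∈ T ↔ t ∈ two K := fun t => Set.Finite.mem_toFinset _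
  have hTc : (two K).ncard = T.card := Set.ncard_eq_toFinset_card _ htfin
  rw [hTc]
  set φ : ℤ × ℤ → ℤ := fun t => t.2 ^ 2 - t.1 ^ 3 with hφ
  set P := F.filter fun t => 0 ≤ t.2 with hP
  have hsym : ∀ t ∈ F, (t.1, -t.2) ∈ F := by
    intro t ht
    rw [hFm] at ht ⊢
    obtain ⟨h1, h2⟩ := ht
    refine ⟨by simpa using h1, ?_⟩
    simpa using h2
  have hhalf := card_half F hsym
  have hZ := card_zero hK (F.filter fun t => t.2 = 0) (fun t ht => by
    rw [Finset.mem_filter, hFm] at ht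
    exact ht)
  have hmaps : ∀ t ∈ P, φ t ∈ S := by
    intro t ht
    rw [hP, Finset.mem_filter, hFm] at ht
    rw [hSm]
    refine ⟨sub_ne_zero.mpr ht.1.1, ?_, t.1, t.2, by simp only [hφ]; ring⟩
    have := ht.1.2
    simp only [hφ]
    push_cast
    exact this
  have hcount : S.card + T.card ≤ P.card := by
    rw [Finset.card_eq_sum_card_fiberwise hmaps]
    have h1 : S.card + T.card = ∑ k ∈ S, (1 + if k ∈ T then 1 else 0) := by
      rw [Finset.sum_add_distrib, Finset.sum_const, smul_eq_mul, mul_one, Finset.sum_ite_mem,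
        Finset.sum_const, smul_eq_mul, mul_one]
      congr 2
      symm
      rw [Finset.inter_eq_right]
      intro k hk
      rw [hSm]
      rw [hTm] at hk
      exact hsub hk
    rw [h1]
    apply Finset.sum_le_sum
    intro k hk
    have hk' := hk
    rw [hSm] at hk
    obtain ⟨h0, hkK, x, y, hxy⟩ := hk
    obtain ⟨m1, m2⟩ := mem_pr_abs h0 hkK hxy
    have hmem : ((x, |y|) : ℤ × ℤ) ∈ P.filter fun t => φ t = k := by
      rw [Finset.mem_filter, hP, Finset.mem_filter, hFm]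
      exact ⟨⟨m1, abs_nonneg _⟩, m2⟩
    by_cases hT : k ∈ T
    · rw [if_pos hT]
      rw [hTm] at hT
      obtain ⟨-, -, x₁, y₁, x₂, y₂, e1, e2, hne⟩ := hT
      obtain ⟨n1, n2⟩ := mem_pr_abs h0 hkK e1
      obtain ⟨l1, l2⟩ := mem_pr_abs h0 hkK e2
      have : 1 < (P.filter fun t => φ t = k).card := by
        rw [Finset.one_lt_card]
        refine ⟨(x₁, |y₁|), ?_, (x₂, |y₂|), ?_, ?_⟩
        · rw [Finset.mem_filter, hP, Finset.mem_filter, hFm]
          exact ⟨⟨n1, abs_nonneg _⟩, n2⟩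
        · rw [Finset.mem_filter, hP, Finset.mem_filter, hFm]
          exact ⟨⟨l1, abs_nonneg _⟩, l2⟩
        · intro h
          exact hne (Prod.mk.inj h).1.symm
      omega
    · rw [if_neg hT]
      have : 0 < (P.filter fun t => φ t = k).card := Finset.card_pos.2 ⟨_, hmem⟩
      omega
  have hK0 : (0 : ℝ) < K := by linarith
  have hcount' : (S.card : ℝ) + T.card ≤ P.card := by exact_mod_cast hcount
  have hhalf' : (F.card : ℝ) + ((F.filter fun t => t.2 = 0).card : ℝ) = 2 * (P.card : ℝ) := by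
    exact_mod_cast hhalf
  have hpow : 0 ≤ K ^ θ := Real.rpow_nonneg hK0.le _
  have h13 : K ^ (1 / 3 : ℝ) ≤ K ^ θ := Real.rpow_le_rpow_of_exponent_le hK (by linarith)
  have b0 : A0 * K ^ θ ≤ |A0| * K ^ θ := mul_le_mul_of_nonneg_right (le_abs_self _) hpow
  have b1 : A1 * K ^ θ ≤ |A1| * K ^ θ := mul_le_mul_of_nonneg_right (le_abs_self _) hpow
  have c1 := (abs_le.1 hasy).2
  have c2 := (abs_le.1 hsasy).1
  have e1 : (|A0| / 2 + |A1| + 2) * K ^ θ = (|A0| * K ^ θ) / 2 + |A1| * K ^ θ + 2 * K ^ θ := by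
    ring
  rw [e1]
  linarith

end Pool.Agent.Work.MP_f2148a_nt.As
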