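import Mathlib
import Pool.Agent.Work.MP_f2148a_nt.As.Two

/-!
# As/HallT: the law of the size of the solutions, upper bound (helper4)

`bigT T K`: the `k`, `0 < |k| ≤ K`, with a solution of size larger than `T |k| ^ (1 / 2)`. At most
`A (T ^ (-1 / 3) K ^ (5 / 6) + K ^ θ)` elements for all `T ≥ 1`, `K ≥ 1`.

Upper half `K / 2 < |k|`, `8 ≤ T ≤ K ^ (1 / 8)`: with `X = ⌊(T ^ 2 K / 8) ^ (1 / 3)⌋` a solution with `x ≤ X` has
`|y| ≤ T √K / 2`, so `x > X` and the pairs of `pr K` with `x > X` are counted by `Asy θ` and `small`. Then a dyadic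
induction over `K`.
-/

set_option autoImplicit false

namespace Pool.Agent.Work.MP_f2148a_nt.As

/-- the `k`, `0 < |k| ≤ K`, with a solution larger than `T |k| ^ (1 / 2)` -/
def bigT (T K : ℝ) : Set ℤ := {k | k ≠ 0 ∧ |(k : ℝ)| ≤ K ∧
  ∃ x y : ℤ, y ^ 2 = x ^ 3 + k ∧ T * |(k : ℝ)| ^ (1 / 2 : ℝ) < max |(x : ℝ)| |(y : ℝ)|}

theorem bigT_sub_sol (T K : ℝ) : bigT T K ⊆ sol K := by
  rintro k ⟨h0, h1, x, y, h2, -⟩
  exact ⟨h0, h1, x, y, h2⟩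

theorem bigT_anti {T T' : ℝ} (h : T' ≤ T) (K : ℝ) : bigT T K ⊆ bigT T' K := by
  rintro k ⟨h0, h1, x, y, h2, h3⟩
  refine ⟨h0, h1, x, y, h2, lt_of_le_of_lt ?_ h3⟩
  exact mul_le_mul_of_nonneg_right h (Real.rpow_nonneg (abs_nonneg _) _)

/-- the pairs with `x > X` -/
private theorem tailX {θ : ℝ} (hA : Asy θ) : ∃ A : ℝ, 0 ≤ A ∧ ∀ K : ℝ, 1 ≤ K → ∀ X : ℕ, K ≤ (X : ℝ) ^ 3 →
    ({t : ℤ × ℤ | t ∈ pr K ∧ (X : ℝ) < (t.1 : ℝ)}.Finite ∧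
    ({t : ℤ × ℤ | t ∈ pr K ∧ (X : ℝ) < (t.1 : ℝ)}.ncard : ℝ) ≤
      A * K ^ θ + (12 * X + 6 * √K + 8 * K * (X : ℝ) ^ (-(1 / 2) : ℝ))) := by
  obtain ⟨A1, hA1⟩ := hA
  refine ⟨|A1|, abs_nonneg _, fun K hK X hX => ?_⟩
  have hK0 : 0 < K := lt_of_lt_of_le one_pos hK
  obtain ⟨hfP, hP⟩ := hA1 K hK
  obtain ⟨hfQ, hQ⟩ := small hK X hX
  have hfR : {t : ℤ × ℤ | t ∈ pr K ∧ (X : ℝ) < (t.1 : ℝ)}.Finite := hfP.subset fun t ht => ht.1
  refine ⟨hfR, ?_⟩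
  have h1 : Disjoint {t : ℤ × ℤ | t ∈ pr K ∧ (X : ℝ) < (t.1 : ℝ)}
      {t : ℤ × ℤ | t ∈ pr K ∧ (t.1 : ℝ) ≤ X} := by
    rw [Set.disjoint_left]
    intro t ht hu
    exact absurd hu.2 (not_le.2 ht.2)
  have h2 : {t : ℤ × ℤ | t ∈ pr K ∧ (X : ℝ) < (t.1 : ℝ)} ∪
      {t : ℤ × ℤ | t ∈ pr K ∧ (t.1 : ℝ) ≤ X} ⊆ pr K :=
    Set.union_subset (fun t ht => ht.1) fun t ht => ht.1
  have h3 := Set.ncard_le_ncard h2 hfP
  rw [Set.ncard_union_eq h1 hfR hfQ] at h3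
  have h4 : ({t : ℤ × ℤ | t ∈ pr K ∧ (X : ℝ) < (t.1 : ℝ)}.ncard : ℝ) +
      ({t : ℤ × ℤ | t ∈ pr K ∧ (t.1 : ℝ) ≤ X}.ncard : ℝ) ≤ ((pr K).ncard : ℝ) := by
    exact_mod_cast h3
  have h5 := (abs_le.1 hP).2
  have h6 := (abs_le.1 hQ).1
  have h7 : A1 * K ^ θ ≤ |A1| * K ^ θ :=
    mul_le_mul_of_nonneg_right (le_abs_self A1) (Real.rpow_nonneg hK0.le θ)
  linarith

/-- the upper half -/
private def up (T K : ℝ) : Set ℤ := {k | k ∈ bigT T K ∧ K / 2 < |(k : ℝ)|}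

private theorem up_sub {T K : ℝ} (hK : 1 ≤ K) (hT : 1 ≤ T) (X : ℕ) (hX1 : K ≤ (X : ℝ) ^ 3)
    (hX2 : (X : ℝ) ^ 3 ≤ T ^ 2 * K / 8) :
    up T K ⊆ (fun t : ℤ × ℤ => t.2 ^ 2 - t.1 ^ 3) '' {t : ℤ × ℤ | t ∈ pr K ∧ (X : ℝ) < (t.1 : ℝ)} := by
  rintro k ⟨⟨hk, hkK, x, y, hxy, hm⟩, hk2⟩
  have hK0 : 0 < K := by linarith
  have e : (y : ℝ) ^ 2 = (x : ℝ) ^ 3 + k := by exact_mod_cast hxy
  have hmem : (x, y) ∈ pr K := by
    refine ⟨fun h' => hk ?_, ?_⟩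
    · simp only at h'
      linarith
    · show |(y : ℝ) ^ 2 - (x : ℝ) ^ 3| ≤ K
      have : (y : ℝ) ^ 2 - (x : ℝ) ^ 3 = k := by linarith
      rw [this]
      exact hkK
  refine ⟨(x, y), ⟨hmem, ?_⟩, ?_⟩
  swap
  · show y ^ 2 - x ^ 3 = k
    linarith
  show (X : ℝ) < (x : ℝ)
  by_contra hx
  push Not at hx
  have hX0 : (0 : ℝ) ≤ (X : ℝ) := Nat.cast_nonneg X
  have hX3 : (1 : ℝ) ≤ (X : ℝ) := by
    rcases Nat.eq_zero_or_pos X with h | h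
    · subst h
      norm_num at hX1
      linarith
    · exact_mod_cast h
  have hk1 := abs_le.1 hkK
  have hx3 : -K ≤ (x : ℝ) ^ 3 := by nlinarith [sq_nonneg (y : ℝ)]
  have habs : |(x : ℝ)| ≤ X := by
    rw [abs_le]
    refine ⟨?_, hx⟩
    by_contra hc
    push Not at hc
    have h5 : (X : ℝ) < -(x : ℝ) := by linarith
    have h6 := pow_lt_pow_left₀ h5 hX0 (n := 3) (by norm_num)
    have h7 : (-(x : ℝ)) ^ 3 = -(x : ℝ) ^ 3 := by ring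
    rw [h7] at h6
    linarith
  have hS : 0 ≤ T * √K / 2 := by positivity
  have hSq : (T * √K / 2) ^ 2 = T ^ 2 * K / 4 := by
    have := Real.sq_sqrt hK0.le
    calc (T * √K / 2) ^ 2 = T ^ 2 * (√K) ^ 2 / 4 := by ring
      _ = T ^ 2 * K / 4 := by rw [this]
  have hy : |(y : ℝ)| ≤ T * √K / 2 := by
    apply abs_le_of_sq_le_sq _ hS
    rw [hSq]
    have h8 : (x : ℝ) ^ 3 ≤ |(x : ℝ)| ^ 3 := by
      rw [← abs_pow]
      exact le_abs_self _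
    have h9 := pow_le_pow_left₀ (abs_nonneg (x : ℝ)) habs 3
    linarith [hk1.2]
  have hx' : |(x : ℝ)| ≤ T * √K / 2 := by
    refine habs.trans ?_
    have : (X : ℝ) ^ 2 ≤ (T * √K / 2) ^ 2 := by
      rw [hSq]
      have : (X : ℝ) ^ 2 ≤ (X : ℝ) ^ 3 := pow_le_pow_right₀ hX3 (by norm_num)
      have : 0 ≤ T ^ 2 * K / 8 := by positivity
      linarith
    exact le_of_sq_le_sq this hS
  have h10 := max_le hx' hy
  have h11 : T * √K / 2 < T * |(k : ℝ)| ^ (1 / 2 : ℝ) := by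
    rw [← Real.sqrt_eq_rpow]
    have : √K / 2 < √|(k : ℝ)| := by
      apply Real.lt_sqrt_of_sq_lt
      have := Real.sq_sqrt hK0.le
      calc (√K / 2) ^ 2 = (√K) ^ 2 / 4 := by ring
        _ = K / 4 := by rw [this]
        _ < |(k : ℝ)| := by linarith
    have := mul_lt_mul_of_pos_left this (show (0 : ℝ) < T by linarith)
    linarith
  linarith

/-- the upper half for `8 ≤ T ≤ K ^ (1 / 8)` -/
private theorem up_card1 {θ : ℝ} (hA : Asy θ) (hθ : 4 / 5 < θ) : ∃ B : ℝ, 0 ≤ B ∧ ∀ K : ℝ, 1 ≤ K →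
    ∀ T : ℝ, 8 ≤ T → T ≤ K ^ (1 / 8 : ℝ) →
    ((up T K).ncard : ℝ) ≤ B * (T ^ (-(1 / 3) : ℝ) * K ^ (5 / 6 : ℝ) + K ^ θ) := by
  obtain ⟨A, hA0, H⟩ := tailX hA
  refine ⟨A + 18 + 16, by positivity, fun K hK T hT hTK => ?_⟩
  have hK0 : 0 < K := by linarith
  have hT0 : 0 < T := by linarith
  set r : ℝ := (T ^ 2 * K / 8) ^ (1 / 3 : ℝ) with hr
  have hb : 0 ≤ T ^ 2 * K / 8 := by positivity
  have hr0 : 0 ≤ r := Real.rpow_nonneg hb _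
  have hr3 : r ^ 3 = T ^ 2 * K / 8 := by
    rw [hr, ← Real.rpow_natCast, ← Real.rpow_mul hb]
    norm_num
  have hr2 : 2 ≤ r := by
    have : (2 : ℝ) ^ 3 ≤ r ^ 3 := by
      rw [hr3]
      nlinarith
    exact le_of_pow_le_pow_left₀ (by norm_num) hr0 this
  set X : ℕ := ⌊r⌋₊ with hX
  have hXle : (X : ℝ) ≤ r := Nat.floor_le hr0
  have hXge : r / 2 ≤ (X : ℝ) := by
    have := Nat.lt_floor_add_one r
    rw [← hX] at this
    linarith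
  have hX3 : (X : ℝ) ^ 3 ≤ T ^ 2 * K / 8 := by
    rw [← hr3]
    exact pow_le_pow_left₀ (Nat.cast_nonneg X) hXle 3
  have hX3' : K ≤ (X : ℝ) ^ 3 := by
    have h1 : (r / 2) ^ 3 ≤ (X : ℝ) ^ 3 := pow_le_pow_left₀ (by positivity) hXge 3
    have h2 : (r / 2) ^ 3 = T ^ 2 * K / 64 := by
      calc (r / 2) ^ 3 = r ^ 3 / 8 := by ring
        _ = T ^ 2 * K / 64 := by rw [hr3]; ring
    have h3 : K ≤ T ^ 2 * K / 64 := by
      have h4 : (64 : ℝ) ≤ T ^ 2 := by nlinarith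
      have := mul_le_mul_of_nonneg_right h4 hK0.le
      linarith
    linarith
  obtain ⟨hf, hc⟩ := H K hK X hX3'
  have hsub := up_sub hK (by linarith) X hX3' hX3
  have c1 := Set.ncard_le_ncard hsub (hf.image _)
  have c2 := Set.ncard_image_le (f := fun t : ℤ × ℤ => t.2 ^ 2 - t.1 ^ 3) hf
  have c3 : ((up T K).ncard : ℝ) ≤
      ({t : ℤ × ℤ | t ∈ pr K ∧ (X : ℝ) < (t.1 : ℝ)}.ncard : ℝ) := by exact_mod_cast c1.trans c2
  have hKθ : 0 ≤ K ^ θ := Real.rpow_nonneg hK0.le θ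
  -- `X ≤ K ^ (5 / 12)`
  have d1 : (X : ℝ) ≤ K ^ θ := by
    have e1 : T ^ 2 ≤ K ^ (1 / 4 : ℝ) := by
      have := pow_le_pow_left₀ hT0.le hTK 2
      rw [← Real.rpow_natCast (K ^ (1 / 8 : ℝ)), ← Real.rpow_mul hK0.le] at this
      norm_num at this
      exact this
    have e2 : T ^ 2 * K / 8 ≤ K ^ (5 / 4 : ℝ) := by
      have h1 : K ^ (5 / 4 : ℝ) = K ^ (1 / 4 : ℝ) * K := by
        nth_rewrite 3 [← Real.rpow_one K]
        rw [← Real.rpow_add hK0]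
        norm_num
      rw [h1]
      have h2 := mul_le_mul_of_nonneg_right e1 hK0.le
      have h3 : 0 ≤ T ^ 2 * K := by positivity
      linarith
    calc (X : ℝ) ≤ r := hXle
      _ ≤ (K ^ (5 / 4 : ℝ)) ^ (1 / 3 : ℝ) := Real.rpow_le_rpow hb e2 (by norm_num)
      _ = K ^ (5 / 12 : ℝ) := by rw [← Real.rpow_mul hK0.le]; norm_num
      _ ≤ K ^ θ := Real.rpow_le_rpow_of_exponent_le hK (by linarith)
  have d2 : √K ≤ K ^ θ := by
    rw [Real.sqrt_eq_rpow]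
    exact Real.rpow_le_rpow_of_exponent_le hK (by linarith)
  have d3 : K * (X : ℝ) ^ (-(1 / 2) : ℝ) ≤ 2 * (T ^ (-(1 / 3) : ℝ) * K ^ (5 / 6 : ℝ)) := by
    have h1 : (X : ℝ) ^ (-(1 / 2) : ℝ) ≤ (r / 2) ^ (-(1 / 2) : ℝ) :=
      Real.rpow_le_rpow_of_nonpos (by linarith) hXge (by norm_num)
    have h2 : r / 2 = (T ^ 2 * K / 64) ^ (1 / 3 : ℝ) := by
      have e64 : (T ^ 2 * K / 64) = (T ^ 2 * K / 8) * (1 / 2) ^ 3 := by ring
      rw [e64, Real.mul_rpow hb (by norm_num), ← Real.rpow_natCast (1 / 2 : ℝ),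
        ← Real.rpow_mul (by norm_num)]
      norm_num
      rw [hr]
      ring_nf
    have h3 : (r / 2) ^ (-(1 / 2) : ℝ) = (T ^ 2 * K / 64) ^ (-(1 / 6) : ℝ) := by
      rw [h2, ← Real.rpow_mul (by positivity)]
      norm_num
    have h4 : (T ^ 2 * K / 64) ^ (-(1 / 6) : ℝ) = 2 * (T ^ (-(1 / 3) : ℝ) * K ^ (-(1 / 6) : ℝ)) := by
      have e64 : (T ^ 2 * K / 64) = (T ^ 2 * K) * (1 / 2) ^ 6 := by ring
      rw [e64, Real.mul_rpow (by positivity) (by norm_num), Real.mul_rpow (by positivity) hK0.le,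
        ← Real.rpow_natCast (1 / 2 : ℝ), ← Real.rpow_mul (by norm_num), ← Real.rpow_natCast T,
        ← Real.rpow_mul hT0.le]
      have e1 : ((6 : ℕ) : ℝ) * (-(1 / 6) : ℝ) = -1 := by norm_num
      have e2 : ((2 : ℕ) : ℝ) * (-(1 / 6) : ℝ) = -(1 / 3) := by norm_num
      rw [e1, e2, Real.rpow_neg_one]
      ring
    have h5 : K * K ^ (-(1 / 6) : ℝ) = K ^ (5 / 6 : ℝ) := by
      nth_rewrite 1 [← Real.rpow_one K]
      rw [← Real.rpow_add hK0]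
      norm_num
    calc K * (X : ℝ) ^ (-(1 / 2) : ℝ) ≤ K * (2 * (T ^ (-(1 / 3) : ℝ) * K ^ (-(1 / 6) : ℝ))) := by
          rw [← h4, ← h3]
          exact mul_le_mul_of_nonneg_left h1 hK0.le
      _ = 2 * (T ^ (-(1 / 3) : ℝ) * (K * K ^ (-(1 / 6) : ℝ))) := by ring
      _ = 2 * (T ^ (-(1 / 3) : ℝ) * K ^ (5 / 6 : ℝ)) := by rw [h5]
  have hU : 0 ≤ T ^ (-(1 / 3) : ℝ) * K ^ (5 / 6 : ℝ) :=
    mul_nonneg (Real.rpow_nonneg hT0.le _) (Real.rpow_nonneg hK0.le _)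
  have n1 : 0 ≤ A * (T ^ (-(1 / 3) : ℝ) * K ^ (5 / 6 : ℝ)) := mul_nonneg hA0 hU
  have d4 : 8 * K * (X : ℝ) ^ (-(1 / 2) : ℝ) = 8 * (K * (X : ℝ) ^ (-(1 / 2) : ℝ)) := by ring
  rw [d4] at hc
  have e : (A + 18 + 16) * (T ^ (-(1 / 3) : ℝ) * K ^ (5 / 6 : ℝ) + K ^ θ) =
      A * (T ^ (-(1 / 3) : ℝ) * K ^ (5 / 6 : ℝ)) + 34 * (T ^ (-(1 / 3) : ℝ) * K ^ (5 / 6 : ℝ)) +
        A * K ^ θ + 34 * K ^ θ := by ring
  rw [e]
  linarith

/-- the number of solvable `k` -/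
theorem sol_le {θ : ℝ} (hA : Asy θ) (hθ : 4 / 5 < θ) (hθ' : θ < 5 / 6) : ∃ B : ℝ, 0 ≤ B ∧ ∀ K : ℝ, 1 ≤ K →
    (sol K).Finite ∧ ((sol K).ncard : ℝ) ≤ B * K ^ (5 / 6 : ℝ) := by
  obtain ⟨A1, hA1⟩ := cnt hA hθ
  have hc0 : 0 ≤ c0 := ENNReal.toReal_nonneg
  refine ⟨c0 / 2 + |A1|, by positivity, fun K hK => ?_⟩
  obtain ⟨h1, h2⟩ := hA1 K hK
  refine ⟨h1, ?_⟩
  have hK0 : 0 < K := by linarith
  have h3 := (abs_le.1 h2).2
  have h4 : A1 * K ^ θ ≤ |A1| * K ^ θ :=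
    mul_le_mul_of_nonneg_right (le_abs_self A1) (Real.rpow_nonneg hK0.le θ)
  have h5 : |A1| * K ^ θ ≤ |A1| * K ^ (5 / 6 : ℝ) :=
    mul_le_mul_of_nonneg_left (Real.rpow_le_rpow_of_exponent_le hK hθ'.le) (abs_nonneg _)
  have e : (c0 / 2 + |A1|) * K ^ (5 / 6 : ℝ) = c0 / 2 * K ^ (5 / 6 : ℝ) + |A1| * K ^ (5 / 6 : ℝ) := by
    ring
  rw [e]
  linarith

/-- the upper half, all `T` -/
private theorem up_card {θ : ℝ} (hA : Asy θ) (hθ : 4 / 5 < θ) (hθ' : θ < 5 / 6) : ∃ B : ℝ, 0 ≤ B ∧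
    ∀ K : ℝ, 1 ≤ K → ∀ T : ℝ, 1 ≤ T →
    ((up T K).ncard : ℝ) ≤ B * (T ^ (-(1 / 3) : ℝ) * K ^ (5 / 6 : ℝ) + K ^ θ) := by
  obtain ⟨B1, hB1, H1⟩ := up_card1 hA hθ
  obtain ⟨B2, hB2, H2⟩ := sol_le hA hθ hθ'
  refine ⟨2 * B1 + 2 * B2, by positivity, fun K hK T hT => ?_⟩
  have hK0 : 0 < K := by linarith
  have hT0 : 0 < T := by linarith
  obtain ⟨hsf, hsc⟩ := H2 K hK
  set T' := min T (K ^ (1 / 8 : ℝ)) with hT'
  have hK8 : 1 ≤ K ^ (1 / 8 : ℝ) := Real.one_le_rpow hK (by norm_num)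
  have hT'1 : 1 ≤ T' := le_min hT hK8
  have hT'0 : 0 < T' := by linarith
  have hU0 : 0 ≤ K ^ (5 / 6 : ℝ) := Real.rpow_nonneg hK0.le _
  have hθ0 : 0 ≤ K ^ θ := Real.rpow_nonneg hK0.le _
  have hsubU : up T K ⊆ up T' K := fun k hk => ⟨bigT_anti (min_le_left _ _) K hk.1, hk.2⟩
  have hUf : (up T' K).Finite := hsf.subset fun k hk => bigT_sub_sol _ _ hk.1
  have c1 : ((up T K).ncard : ℝ) ≤ ((up T' K).ncard : ℝ) := by
    exact_mod_cast Set.ncard_le_ncard hsubU hUf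
  have key : T' ^ (-(1 / 3) : ℝ) * K ^ (5 / 6 : ℝ) ≤
      T ^ (-(1 / 3) : ℝ) * K ^ (5 / 6 : ℝ) + K ^ θ := by
    rcases le_total T (K ^ (1 / 8 : ℝ)) with h | h
    · rw [hT', min_eq_left h]
      linarith
    · rw [hT', min_eq_right h, ← Real.rpow_mul hK0.le, ← Real.rpow_add hK0]
      have h1 : K ^ ((1 / 8 : ℝ) * (-(1 / 3)) + 5 / 6) ≤ K ^ θ :=
        Real.rpow_le_rpow_of_exponent_le hK (by linarith)
      have h2 : 0 ≤ T ^ (-(1 / 3) : ℝ) * K ^ (5 / 6 : ℝ) :=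
        mul_nonneg (Real.rpow_nonneg hT0.le _) hU0
      linarith
  have hP0 : 0 ≤ T' ^ (-(1 / 3) : ℝ) * K ^ (5 / 6 : ℝ) :=
    mul_nonneg (Real.rpow_nonneg hT'0.le _) hU0
  have hmain : ((up T' K).ncard : ℝ) ≤
      B1 * (T' ^ (-(1 / 3) : ℝ) * K ^ (5 / 6 : ℝ) + K ^ θ) +
      2 * B2 * (T' ^ (-(1 / 3) : ℝ) * K ^ (5 / 6 : ℝ)) := by
    rcases le_total 8 T' with h | h
    · have := H1 K hK T' h (min_le_right _ _)
      have h2 : 0 ≤ 2 * B2 * (T' ^ (-(1 / 3) : ℝ) * K ^ (5 / 6 : ℝ)) := by positivity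
      linarith
    · have h1 : (1 : ℝ) ≤ 2 * T' ^ (-(1 / 3) : ℝ) := by
        have h3 : (8 : ℝ) ^ (-(1 / 3) : ℝ) ≤ T' ^ (-(1 / 3) : ℝ) :=
          Real.rpow_le_rpow_of_nonpos hT'0 h (by norm_num)
        have h4 : (8 : ℝ) ^ (-(1 / 3) : ℝ) = 1 / 2 := by
          rw [show (8 : ℝ) = 2 ^ (3 : ℝ) by norm_num, ← Real.rpow_mul (by norm_num)]
          norm_num
        rw [h4] at h3
        linarith
      have h2 : ((up T' K).ncard : ℝ) ≤ ((sol K).ncard : ℝ) := by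
        exact_mod_cast Set.ncard_le_ncard (fun k (hk : k ∈ up T' K) => bigT_sub_sol _ _ hk.1) hsf
      have h5 : B2 * K ^ (5 / 6 : ℝ) * 1 ≤ B2 * K ^ (5 / 6 : ℝ) * (2 * T' ^ (-(1 / 3) : ℝ)) :=
        mul_le_mul_of_nonneg_left h1 (by positivity)
      have h6 : 0 ≤ B1 * (T' ^ (-(1 / 3) : ℝ) * K ^ (5 / 6 : ℝ) + K ^ θ) := by positivity
      have e : B2 * K ^ (5 / 6 : ℝ) * (2 * T' ^ (-(1 / 3) : ℝ)) =
        2 * B2 * (T' ^ (-(1 / 3) : ℝ) * K ^ (5 / 6 : ℝ)) := by ring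
      linarith
  have g1 : 2 * B2 * (T' ^ (-(1 / 3) : ℝ) * K ^ (5 / 6 : ℝ)) ≤
      2 * B2 * (T ^ (-(1 / 3) : ℝ) * K ^ (5 / 6 : ℝ) + K ^ θ) :=
    mul_le_mul_of_nonneg_left key (by positivity)
  have g2 : B1 * (T' ^ (-(1 / 3) : ℝ) * K ^ (5 / 6 : ℝ)) ≤
      B1 * (T ^ (-(1 / 3) : ℝ) * K ^ (5 / 6 : ℝ) + K ^ θ) :=
    mul_le_mul_of_nonneg_left key hB1
  have g3 : 0 ≤ B1 * (T ^ (-(1 / 3) : ℝ) * K ^ (5 / 6 : ℝ)) := by positivity
  have e1 : B1 * (T' ^ (-(1 / 3) : ℝ) * K ^ (5 / 6 : ℝ) + K ^ θ) =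
    B1 * (T' ^ (-(1 / 3) : ℝ) * K ^ (5 / 6 : ℝ)) + B1 * K ^ θ := by ring
  have e2 : (2 * B1 + 2 * B2) * (T ^ (-(1 / 3) : ℝ) * K ^ (5 / 6 : ℝ) + K ^ θ) =
    B1 * (T ^ (-(1 / 3) : ℝ) * K ^ (5 / 6 : ℝ) + K ^ θ) + B1 * (T ^ (-(1 / 3) : ℝ) * K ^ (5 / 6 : ℝ)) +
      B1 * K ^ θ + 2 * B2 * (T ^ (-(1 / 3) : ℝ) * K ^ (5 / 6 : ℝ) + K ^ θ) := by ring
  rw [e2]
  linarith

/-- the upper bound -/
theorem bigT_le {θ : ℝ} (hA : Asy θ) (hθ : 4 / 5 < θ) (hθ' : θ < 5 / 6) : ∃ A : ℝ, 0 ≤ A ∧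
    ∀ K : ℝ, 1 ≤ K → ∀ T : ℝ, 1 ≤ T →
    ((bigT T K).ncard : ℝ) ≤ A * (T ^ (-(1 / 3) : ℝ) * K ^ (5 / 6 : ℝ) + K ^ θ) := by
  obtain ⟨B, hB, H⟩ := up_card hA hθ hθ'
  obtain ⟨B2, hB2, H2⟩ := sol_le hA hθ hθ'
  refine ⟨5 / 2 * B, by positivity, ?_⟩
  have main : ∀ n : ℕ, ∀ K : ℝ, 1 ≤ K → K < 2 ^ n → ∀ T : ℝ, 1 ≤ T →
      ((bigT T K).ncard : ℝ) ≤ 5 / 2 * B * (T ^ (-(1 / 3) : ℝ) * K ^ (5 / 6 : ℝ) + K ^ θ) := by
    intro n
    induction n with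
    | zero =>
      intro K hK hK2
      norm_num at hK2
      linarith
    | succ n ih =>
      intro K hK hKn T hT
      have hK0 : 0 < K := by linarith
      have hT0 : 0 < T := by linarith
      have hu := H K hK T hT
      have hsf := (H2 K hK).1
      have hT3 : 0 ≤ T ^ (-(1 / 3) : ℝ) := Real.rpow_nonneg hT0.le _
      have hU0 : 0 ≤ T ^ (-(1 / 3) : ℝ) * K ^ (5 / 6 : ℝ) :=
        mul_nonneg hT3 (Real.rpow_nonneg hK0.le _)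
      have hθ0 : 0 ≤ K ^ θ := Real.rpow_nonneg hK0.le _
      have hsub : bigT T K ⊆ bigT T (K / 2) ∪ up T K := by
        intro k hk
        by_cases h : |(k : ℝ)| ≤ K / 2
        · exact Or.inl ⟨hk.1, h, hk.2.2⟩
        · exact Or.inr ⟨hk, not_le.1 h⟩
      have hf1 : (bigT T (K / 2)).Finite := hsf.subset fun k hk =>
        ⟨hk.1, hk.2.1.trans (by linarith), (bigT_sub_sol _ _ hk).2.2⟩
      have hf2 : (up T K).Finite := hsf.subset fun k hk => bigT_sub_sol _ _ hk.1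
      have c1 : ((bigT T K).ncard : ℝ) ≤ ((bigT T (K / 2)).ncard : ℝ) + ((up T K).ncard : ℝ) := by
        exact_mod_cast (Set.ncard_le_ncard hsub (hf1.union hf2)).trans (Set.ncard_union_le _ _)
      have c2 : ((bigT T (K / 2)).ncard : ℝ) ≤
          3 / 2 * B * (T ^ (-(1 / 3) : ℝ) * K ^ (5 / 6 : ℝ) + K ^ θ) := by
        by_cases h : 1 ≤ K / 2
        · have h1 := ih (K / 2) h (by rw [pow_succ] at hKn; linarith) T hT
          have h45 : (2 : ℝ) ^ (-(4 / 5) : ℝ) ≤ 3 / 5 := by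
            have e1 : ((2 : ℝ) ^ (-(4 / 5) : ℝ)) ^ 5 = 1 / 16 := by
              rw [← Real.rpow_natCast, ← Real.rpow_mul (by norm_num)]
              norm_num
            by_contra hc
            push Not at hc
            have := pow_lt_pow_left₀ hc (by norm_num) (n := 5) (by norm_num)
            rw [e1] at this
            norm_num at this
          have gen : ∀ s : ℝ, 4 / 5 ≤ s → (K / 2) ^ s ≤ 3 / 5 * K ^ s := by
            intro s hs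
            have e1 : (K / 2) ^ s = (2 : ℝ) ^ (-s) * K ^ s := by
              rw [div_eq_mul_inv, Real.mul_rpow hK0.le (by norm_num), Real.inv_rpow (by norm_num),
                Real.rpow_neg (by norm_num)]
              ring
            rw [e1]
            refine mul_le_mul_of_nonneg_right ?_ (Real.rpow_nonneg hK0.le _)
            exact (Real.rpow_le_rpow_of_exponent_le (by norm_num) (by linarith)).trans h45
          have g1 := mul_le_mul_of_nonneg_left (gen (5 / 6) (by norm_num)) hT3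
          have g2 := gen θ hθ.le
          have g3 : T ^ (-(1 / 3) : ℝ) * (K / 2) ^ (5 / 6 : ℝ) + (K / 2) ^ θ ≤
              3 / 5 * (T ^ (-(1 / 3) : ℝ) * K ^ (5 / 6 : ℝ) + K ^ θ) := by
            linarith
          have g4 := mul_le_mul_of_nonneg_left g3 (show 0 ≤ 5 / 2 * B by positivity)
          linarith
        · have : bigT T (K / 2) = ∅ := by
            rw [Set.eq_empty_iff_forall_notMem]
            rintro k ⟨h0, h1, -⟩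
            have h2 : (1 : ℝ) ≤ |(k : ℝ)| := by
              have : (1 : ℤ) ≤ |k| := Int.one_le_abs h0
              exact_mod_cast this
            linarith
          rw [this, Set.ncard_empty]
          push_cast
          positivity
      linarith
  intro K hK T hT
  obtain ⟨n, hn⟩ := pow_unbounded_of_one_lt K (show (1 : ℝ) < 2 by norm_num)
  exact main n K hK hn T hT

end Pool.Agent.Work.MP_f2148a_nt.As
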