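import Mathlib
import Pool.Agent.Work.MP_f2148a_nt.MainCount
import Pool.Agent.Work.MP_f2148a_nt.As.Defs

/-!
# As/Mid (size M): the pairs with `T0 ^ 2 < x ≤ K ^ β`

`T = T0 K`, `K ≤ T ^ 3`, `N = ⌊K⌋₊` (`|y ^ 2 - x ^ 3|` is an integer, so `≤ N`), `1 ≤ N ≤ T ^ 3`.
* `x` is not a square: `x = a ^ 2` gives `0 ≠ |y ^ 2 - a ^ 6| = ||y| - |a| ^ 3| (|y| + |a| ^ 3) ≥ |a| ^ 3`, so
  `|a| ^ 3 ≤ K`, `|a| ≤ T`, `x ≤ T ^ 2`.
* `T_j = 2 ^ j T`. For `t ∈ S` let `j` be the largest index with `T_j ^ 2 ≤ t.1`; then `t.1 ≤ 4 T_j ^ 2` and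
  `T_j ≤ K ^ (β / 2)`, `2 ^ j ≤ K ^ (β / 2)`, so there are at most `1 + (β / 2) log₂ K ≤ C K ^ (ε / 2)` indices.
* `main_count ε'` with `ε' = ε / β`: at most `A T_j ^ ε' (K ^ (2 / 3) + T_j ^ (1 / 2) K ^ (1 / 6)) ≤
  2 A K ^ (ε / 2) K ^ (β / 4 + 1 / 6)` pairs for every `j` (`β ≥ 2`).
-/

set_option autoImplicit false

namespace Pool.Agent.Work.MP_f2148a_nt.As

private theorem le_T0_pow (K : ℝ) (hK : 1 ≤ K) : K ≤ (T0 K : ℝ) ^ 3 := by
  have h0 : (0 : ℝ) ≤ K := by linarith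
  have h1 : K ^ (1 / 3 : ℝ) ≤ (T0 K : ℝ) := Nat.le_ceil _
  calc K = (K ^ (1 / 3 : ℝ)) ^ 3 := by
        rw [← Real.rpow_natCast, ← Real.rpow_mul h0]
        norm_num
    _ ≤ (T0 K : ℝ) ^ 3 := pow_le_pow_left₀ (by positivity) h1 3

private theorem not_sq (K : ℝ) (hK : 1 ≤ K) (t : ℤ × ℤ) (ht : t ∈ pr K) (h : (T0 K : ℝ) ^ 2 < (t.1 : ℝ)) :
    ¬ IsSquare t.1 := by
  rintro ⟨a, ha⟩
  obtain ⟨h1, h2⟩ := ht
  have e1 : (|t.2| - |a| ^ 3) * (|t.2| + |a| ^ 3) = t.2 ^ 2 - t.1 ^ 3 := by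
    have u1 : |t.2| ^ 2 = t.2 ^ 2 := sq_abs _
    have u2 : |a| ^ 2 = a ^ 2 := sq_abs _
    have u3 : (|a| ^ 3) ^ 2 = (a * a) ^ 3 := by
      calc (|a| ^ 3) ^ 2 = (|a| ^ 2) ^ 3 := by ring
        _ = (a * a) ^ 3 := by rw [u2]; ring
    rw [ha]
    linear_combination u1 - u3
  have e2 : t.2 ^ 2 - t.1 ^ 3 ≠ 0 := sub_ne_zero.2 h1
  have e3 : |t.2| - |a| ^ 3 ≠ 0 := by
    intro h
    rw [h, zero_mul] at e1
    exact e2 e1.symm
  have e4 : |a| ^ 3 ≤ |t.2 ^ 2 - t.1 ^ 3| := by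
    rw [← e1, abs_mul]
    have v1 : 1 ≤ |(|t.2| - |a| ^ 3)| := Int.one_le_abs e3
    have v2 : |t.2| + |a| ^ 3 ≤ |(|t.2| + |a| ^ 3)| := le_abs_self _
    have v3 : 0 ≤ |t.2| := abs_nonneg _
    have v4 : 0 ≤ |a| ^ 3 := by positivity
    nlinarith
  have e5 : (|a| : ℝ) ^ 3 ≤ K := by
    have w : ((|a| ^ 3 : ℤ) : ℝ) ≤ ((|t.2 ^ 2 - t.1 ^ 3| : ℤ) : ℝ) := by exact_mod_cast e4
    push_cast at w
    exact w.trans h2
  have e6 : (|a| : ℝ) ≤ (T0 K : ℝ) :=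
    le_of_pow_le_pow_left₀ (by norm_num : 3 ≠ 0) (Nat.cast_nonneg _) (e5.trans (le_T0_pow K hK))
  have e7 : (t.1 : ℝ) = (|a| : ℝ) ^ 2 := by
    rw [ha]
    push_cast
    rw [sq_abs]
    ring
  rw [e7] at h
  have e8 : (|a| : ℝ) ^ 2 ≤ (T0 K : ℝ) ^ 2 := pow_le_pow_left₀ (abs_nonneg _) e6 2
  linarith

theorem mid (β ε : ℝ) (hβ : 2 ≤ β) (hε : 0 < ε) : ∃ A : ℝ, ∀ K : ℝ, 1 ≤ K →
    ∀ S : Finset (ℤ × ℤ),
    (∀ t ∈ S, t ∈ pr K ∧ (T0 K : ℝ) ^ 2 < (t.1 : ℝ) ∧ (t.1 : ℝ) ≤ K ^ β) →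
    (S.card : ℝ) ≤ A * K ^ (β / 4 + 1 / 6 + ε) := by
  have hβ0 : 0 < β := by linarith
  have hε' : 0 < ε / β := div_pos hε hβ0
  obtain ⟨A, hA, hmain⟩ := main_count (ε / β) hε'
  have hlog4 : 0 < Real.log 4 := Real.log_pos (by norm_num)
  refine ⟨(β / Real.log 4 / (ε / 2) + 1) * (2 * A), fun K hK S hS => ?_⟩
  have hK0 : (0 : ℝ) < K := by linarith
  obtain ⟨T, hT⟩ : ∃ T : ℕ, T = T0 K := ⟨_, rfl⟩
  have hTK : K ≤ (T : ℝ) ^ 3 := hT ▸ le_T0_pow K hK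
  have hT1 : 1 ≤ T := by
    rw [hT]
    refine Nat.one_le_iff_ne_zero.2 fun h => ?_
    have := le_T0_pow K hK
    rw [h] at this
    norm_num at this
    linarith
  obtain ⟨N, hN⟩ : ∃ N : ℕ, N = ⌊K⌋₊ := ⟨_, rfl⟩
  have hNK : (N : ℝ) ≤ K := hN ▸ Nat.floor_le hK0.le
  have hN1 : 1 ≤ N := hN ▸ Nat.le_floor (by exact_mod_cast hK)
  have hNT : N ≤ T ^ 3 := by
    have : (N : ℝ) ≤ ((T ^ 3 : ℕ) : ℝ) := by
      push_cast
      exact hNK.trans hTK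
    exact_mod_cast this
  rw [← hT] at hS
  -- the index
  obtain ⟨f, hf⟩ : ∃ f : ℤ × ℤ → ℕ, f = fun t => Nat.log 4 (t.1 / (T : ℤ) ^ 2).toNat := ⟨_, rfl⟩
  have hTp : (0 : ℤ) < (T : ℤ) ^ 2 := by positivity
  have hidx : ∀ t ∈ S, ((2 ^ f t * T : ℕ) : ℤ) ^ 2 ≤ t.1 ∧ t.1 ≤ 4 * ((2 ^ f t * T : ℕ) : ℤ) ^ 2 := by
    intro t ht
    obtain ⟨-, h2, -⟩ := hS t ht
    have h3 : (T : ℤ) ^ 2 ≤ t.1 := by
      have : ((T : ℤ) ^ 2 : ℝ) < (t.1 : ℝ) := by exact_mod_cast h2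
      exact_mod_cast this.le
    obtain ⟨m, hm⟩ : ∃ m : ℕ, m = (t.1 / (T : ℤ) ^ 2).toNat := ⟨_, rfl⟩
    have h4 : 1 ≤ t.1 / (T : ℤ) ^ 2 := (Int.le_ediv_iff_mul_le hTp).2 (by linarith)
    have hmz : (m : ℤ) = t.1 / (T : ℤ) ^ 2 := by rw [hm]; omega
    have hm0 : m ≠ 0 := by omega
    have hft : f t = Nat.log 4 m := by rw [hf, hm]
    have h5 : 4 ^ (f t) ≤ m := hft ▸ Nat.pow_log_le_self 4 hm0
    have h6 : m < 4 ^ (f t + 1) := hft ▸ Nat.lt_pow_succ_log_self (by norm_num) m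
    have h7 : (m : ℤ) * (T : ℤ) ^ 2 ≤ t.1 := hmz ▸ Int.ediv_mul_le _ hTp.ne'
    have h8 : t.1 < ((m : ℤ) + 1) * (T : ℤ) ^ 2 := hmz ▸ Int.lt_ediv_add_one_mul_self _ hTp
    have h9 : ((2 ^ f t * T : ℕ) : ℤ) ^ 2 = (4 : ℤ) ^ (f t) * (T : ℤ) ^ 2 := by
      push_cast
      rw [mul_pow, ← pow_mul, mul_comm (f t) 2, pow_mul]
      norm_num
    have h10 : ((4 ^ (f t) : ℕ) : ℤ) ≤ m := by exact_mod_cast h5
    have h11 : ((m : ℤ) + 1) ≤ ((4 ^ (f t + 1) : ℕ) : ℤ) := by exact_mod_cast h6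
    push_cast at h10 h11
    rw [h9]
    constructor
    · exact (mul_le_mul_of_nonneg_right h10 hTp.le).trans h7
    · have := mul_le_mul_of_nonneg_right h11 hTp.le
      rw [pow_succ (4 : ℤ) (f t)] at this
      linarith
  obtain ⟨J, hJ⟩ : ∃ J : ℕ, J = ⌊β * Real.log K / Real.log 4⌋₊ := ⟨_, rfl⟩
  have hlogK : 0 ≤ Real.log K := Real.log_nonneg hK
  have hsq : ∀ t ∈ S, ((2 ^ f t * T : ℕ) : ℝ) ^ 2 ≤ K ^ β := by
    intro t ht
    have h1 : ((((2 ^ f t * T : ℕ) : ℤ) ^ 2 : ℤ) : ℝ) ≤ (t.1 : ℝ) := by exact_mod_cast (hidx t ht).1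
    have h2 := (hS t ht).2.2
    have h3 : ((((2 ^ f t * T : ℕ) : ℤ) ^ 2 : ℤ) : ℝ) = ((2 ^ f t * T : ℕ) : ℝ) ^ 2 := by push_cast; ring
    rw [h3] at h1
    exact h1.trans h2
  have hfJ : ∀ t ∈ S, f t ∈ Finset.range (J + 1) := by
    intro t ht
    rw [Finset.mem_range, Nat.lt_succ_iff, hJ]
    refine Nat.le_floor ?_
    rw [le_div_iff₀ hlog4]
    have h1 := hsq t ht
    have h2 : (4 : ℝ) ^ (f t) ≤ ((2 ^ f t * T : ℕ) : ℝ) ^ 2 := by
      have h3 : (1 : ℝ) ≤ (T : ℝ) := by exact_mod_cast hT1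
      push_cast
      rw [mul_pow, ← pow_mul, mul_comm (f t) 2, pow_mul]
      have h4 : (1 : ℝ) ≤ (T : ℝ) ^ 2 := one_le_pow₀ h3
      have h5 : (0 : ℝ) < ((2 : ℝ) ^ 2) ^ f t := by positivity
      have h6 : ((2 : ℝ) ^ 2) ^ f t = 4 ^ f t := by norm_num
      rw [← h6]
      exact le_mul_of_one_le_right h5.le h4
    have h7 := Real.log_le_log (by positivity) (h2.trans h1)
    rw [Real.log_pow, Real.log_rpow hK0] at h7
    exact h7
  have hfib : ∀ j ∈ Finset.range (J + 1), ((S.filter (fun t => f t = j)).card : ℝ) ≤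
      2 * A * K ^ (β / 4 + 1 / 6 + ε / 2) := by
    intro j _
    rcases Finset.eq_empty_or_nonempty (S.filter (fun t => f t = j)) with h0 | ⟨t₀, ht₀⟩
    · rw [h0, Finset.card_empty, Nat.cast_zero]
      positivity
    · rw [Finset.mem_filter] at ht₀
      obtain ⟨htS, htj⟩ := ht₀
      have h1 := hmain (2 ^ j * T) N (Nat.one_le_iff_ne_zero.2 (by positivity)) hN1
        (hNT.trans (Nat.pow_le_pow_left (Nat.le_mul_of_pos_left T (by positivity)) 3))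
        (S.filter (fun t => f t = j)) (by
          intro t ht
          rw [Finset.mem_filter] at ht
          obtain ⟨ht1, ht2⟩ := ht
          have g := hidx t ht1
          rw [ht2] at g
          refine ⟨g.1, g.2, ?_, ?_⟩
          · obtain ⟨⟨-, g1⟩, -, -⟩ := hS t ht1
            have g2 : (((t.2 ^ 2 - t.1 ^ 3).natAbs : ℕ) : ℝ) ≤ K := by
              rw [Nat.cast_natAbs, Int.cast_abs]
              push_cast
              exact g1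
            have g3 : (t.2 ^ 2 - t.1 ^ 3).natAbs ≤ N := hN ▸ Nat.le_floor g2
            rw [Int.abs_eq_natAbs]
            exact_mod_cast g3
          · have g4 := hS t ht1
            rw [hT] at g4
            exact not_sq K hK t g4.1 g4.2.1)
      have h2 : ((2 ^ j * T : ℕ) : ℝ) ≤ K ^ (β / 2) := by
        have h3 := hsq t₀ htS
        rw [htj] at h3
        have h4 : (K ^ (β / 2)) ^ 2 = K ^ β := by
          rw [← Real.rpow_natCast, ← Real.rpow_mul hK0.le]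
          congr 1
          push_cast
          ring
        rw [← h4] at h3
        exact le_of_pow_le_pow_left₀ (by norm_num) (by positivity) h3
      have h5 : ((2 ^ j * T : ℕ) : ℝ) ^ (ε / β) ≤ K ^ (ε / 2) := by
        calc ((2 ^ j * T : ℕ) : ℝ) ^ (ε / β) ≤ (K ^ (β / 2)) ^ (ε / β) :=
              Real.rpow_le_rpow (Nat.cast_nonneg _) h2 hε'.le
          _ = K ^ (ε / 2) := by
              rw [← Real.rpow_mul hK0.le]
              congr 1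
              field_simp
      have h6 : (N : ℝ) ^ (2 / 3 : ℝ) ≤ K ^ (β / 4 + 1 / 6) :=
        (Real.rpow_le_rpow (Nat.cast_nonneg _) hNK (by norm_num)).trans
          (Real.rpow_le_rpow_of_exponent_le hK (by linarith))
      have h7 : ((2 ^ j * T : ℕ) : ℝ) ^ (1 / 2 : ℝ) * (N : ℝ) ^ (1 / 6 : ℝ) ≤ K ^ (β / 4 + 1 / 6) := by
        calc ((2 ^ j * T : ℕ) : ℝ) ^ (1 / 2 : ℝ) * (N : ℝ) ^ (1 / 6 : ℝ) ≤
              (K ^ (β / 2)) ^ (1 / 2 : ℝ) * K ^ (1 / 6 : ℝ) :=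
              mul_le_mul (Real.rpow_le_rpow (Nat.cast_nonneg _) h2 (by norm_num))
                (Real.rpow_le_rpow (Nat.cast_nonneg _) hNK (by norm_num)) (by positivity) (by positivity)
          _ = K ^ (β / 4 + 1 / 6) := by
              rw [← Real.rpow_mul hK0.le, ← Real.rpow_add hK0]
              congr 1
              ring
      calc ((S.filter (fun t => f t = j)).card : ℝ) ≤ A * ((2 ^ j * T : ℕ) : ℝ) ^ (ε / β) *
            ((N : ℝ) ^ (2 / 3 : ℝ) + ((2 ^ j * T : ℕ) : ℝ) ^ (1 / 2 : ℝ) * (N : ℝ) ^ (1 / 6 : ℝ)) := h1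
        _ ≤ A * K ^ (ε / 2) * (K ^ (β / 4 + 1 / 6) + K ^ (β / 4 + 1 / 6)) :=
            mul_le_mul (mul_le_mul_of_nonneg_left h5 (by linarith)) (add_le_add h6 h7)
              (by positivity) (by positivity)
        _ = 2 * A * K ^ (β / 4 + 1 / 6 + ε / 2) := by
            rw [Real.rpow_add hK0 (β / 4 + 1 / 6) (ε / 2)]
            ring
  have hJ1 : ((J : ℝ) + 1) ≤ (β / Real.log 4 / (ε / 2) + 1) * K ^ (ε / 2) := by
    have h1 : (J : ℝ) ≤ β * Real.log K / Real.log 4 := hJ ▸ Nat.floor_le (by positivity)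
    have h2 : Real.log K ≤ K ^ (ε / 2) / (ε / 2) := Real.log_le_rpow_div hK0.le (by positivity)
    have h3 : β * Real.log K / Real.log 4 ≤ β / Real.log 4 / (ε / 2) * K ^ (ε / 2) := by
      calc β * Real.log K / Real.log 4 = β / Real.log 4 * Real.log K := by ring
        _ ≤ β / Real.log 4 * (K ^ (ε / 2) / (ε / 2)) := mul_le_mul_of_nonneg_left h2 (by positivity)
        _ = β / Real.log 4 / (ε / 2) * K ^ (ε / 2) := by ring
    have h4 : 1 ≤ K ^ (ε / 2) := Real.one_le_rpow hK (by positivity)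
    linarith
  have hcard : (S.card : ℝ) = ∑ j ∈ Finset.range (J + 1), ((S.filter (fun t => f t = j)).card : ℝ) := by
    rw [Finset.card_eq_sum_card_fiberwise hfJ]
    push_cast
    rfl
  rw [hcard]
  calc ∑ j ∈ Finset.range (J + 1), ((S.filter (fun t => f t = j)).card : ℝ) ≤
        ∑ _j ∈ Finset.range (J + 1), 2 * A * K ^ (β / 4 + 1 / 6 + ε / 2) := Finset.sum_le_sum hfib
    _ = ((J : ℝ) + 1) * (2 * A * K ^ (β / 4 + 1 / 6 + ε / 2)) := by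
        rw [Finset.sum_const, Finset.card_range, nsmul_eq_mul]
        push_cast
        ring
    _ ≤ (β / Real.log 4 / (ε / 2) + 1) * K ^ (ε / 2) * (2 * A * K ^ (β / 4 + 1 / 6 + ε / 2)) :=
        mul_le_mul_of_nonneg_right hJ1 (by positivity)
    _ = (β / Real.log 4 / (ε / 2) + 1) * (2 * A) * K ^ (β / 4 + 1 / 6 + ε) := by
        have : K ^ (β / 4 + 1 / 6 + ε) = K ^ (ε / 2) * K ^ (β / 4 + 1 / 6 + ε / 2) := by
          rw [← Real.rpow_add hK0]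
          congr 1
          ring
        rw [this]
        ring

end Pool.Agent.Work.MP_f2148a_nt.As
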