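import Mathlib
import Pool.Agent.Work.MP_f2148a_nt.As.Small
import Pool.Agent.Work.MP_f2148a_nt.As.Mid

/-!
# As/AsyM (size M): the asymptotic formula

`X = T0 ^ 2`: `K ^ (1 / 3) ≤ T0 ≤ 2 K ^ (1 / 3)`, `K ≤ X ^ 3`, `X ≤ 4 K ^ (2 / 3)`, `X ^ (-1 / 2) = 1 / T0 ≤ K ^ (-1 / 3)`:
`small` has error `≤ 48 K ^ (2 / 3) + 6 K ^ (1 / 2) + 8 K ^ (2 / 3)`. Every finite set of pairs of `pr K` with `x > X` has at
most `A1 K ^ θ + A2 K ^ θ` elements (`mid` with `ε = θ - β / 4 - 1 / 6`, `Giants`), so `pr K` is finite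
(`Set.Infinite.exists_subset_card_eq`). `2 / 3 ≤ β / 4 + 1 / 6 < θ`.
-/

set_option autoImplicit false

namespace Pool.Agent.Work.MP_f2148a_nt.As

theorem T0_bd {K : ℝ} (hK : 1 ≤ K) : K ^ (1 / 3 : ℝ) ≤ T0 K ∧ (T0 K : ℝ) ≤ 2 * K ^ (1 / 3 : ℝ) := by
  have h1 : (1 : ℝ) ≤ K ^ (1 / 3 : ℝ) := Real.one_le_rpow hK (by norm_num)
  refine ⟨Nat.le_ceil _, ?_⟩
  have h2 := Nat.ceil_lt_add_one (a := K ^ (1 / 3 : ℝ)) (by linarith)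
  unfold T0
  linarith

theorem asy {β θ : ℝ} (hβ : 2 ≤ β) (hθ : β / 4 + 1 / 6 < θ) (hG : Giants β θ) : Asy θ := by
  classical
  obtain ⟨A1, hA1⟩ := hG
  obtain ⟨A2, hA2⟩ := mid β (θ - β / 4 - 1 / 6) hβ (by linarith)
  refine ⟨62 + (A1 + A2), fun K hK => ?_⟩
  have hθ' : β / 4 + 1 / 6 + (θ - β / 4 - 1 / 6) = θ := by ring
  have hK0 : 0 < K := by linarith
  obtain ⟨t1, t2⟩ := T0_bd hK
  have hT1 : (1 : ℝ) ≤ T0 K := le_trans (Real.one_le_rpow hK (by norm_num)) t1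
  have hT0 : (0 : ℝ) < T0 K := by linarith
  have hr3 : (K ^ (1 / 3 : ℝ)) ^ 3 = K := by
    rw [← Real.rpow_natCast, ← Real.rpow_mul hK0.le]
    norm_num
  have hr2 : (K ^ (1 / 3 : ℝ)) ^ 2 = K ^ (2 / 3 : ℝ) := by
    rw [← Real.rpow_natCast, ← Real.rpow_mul hK0.le]
    norm_num
  have hr0 : 0 ≤ K ^ (1 / 3 : ℝ) := Real.rpow_nonneg hK0.le _
  have hKT : K ≤ (T0 K : ℝ) ^ 3 := by
    calc K = (K ^ (1 / 3 : ℝ)) ^ 3 := hr3.symm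
      _ ≤ (T0 K : ℝ) ^ 3 := pow_le_pow_left₀ hr0 t1 3
  have hX : K ≤ (((T0 K ^ 2 : ℕ)) : ℝ) ^ 3 := by
    push_cast
    refine le_trans hKT ?_
    rw [← pow_mul]
    exact pow_le_pow_right₀ hT1 (by norm_num)
  obtain ⟨fQ, hQ⟩ := small hK (T0 K ^ 2) hX
  have hKθ : K ^ (2 / 3 : ℝ) ≤ K ^ θ := Real.rpow_le_rpow_of_exponent_le hK (by linarith)
  have hX4 : (((T0 K ^ 2 : ℕ)) : ℝ) ≤ 4 * K ^ (2 / 3 : ℝ) := by
    push_cast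
    rw [← hr2]
    nlinarith
  have hsq : √K ≤ K ^ (2 / 3 : ℝ) := by
    rw [Real.sqrt_eq_rpow]
    exact Real.rpow_le_rpow_of_exponent_le hK (by norm_num)
  have hXi : (((T0 K ^ 2 : ℕ)) : ℝ) ^ (-(1 / 2) : ℝ) = (T0 K : ℝ)⁻¹ := by
    push_cast
    rw [← Real.rpow_natCast, ← Real.rpow_mul hT0.le]
    norm_num
    rw [Real.rpow_neg_one]
  have hKi : K * (((T0 K ^ 2 : ℕ)) : ℝ) ^ (-(1 / 2) : ℝ) ≤ K ^ (2 / 3 : ℝ) := by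
    rw [hXi, ← hr2]
    have h5 : K * (T0 K : ℝ)⁻¹ ≤ (K ^ (1 / 3 : ℝ)) ^ 3 * (K ^ (1 / 3 : ℝ))⁻¹ := by
      rw [hr3]
      refine mul_le_mul_of_nonneg_left ?_ hK0.le
      exact inv_anti₀ (Real.rpow_pos_of_pos hK0 _) t1
    refine le_trans h5 (le_of_eq ?_)
    have h6 : K ^ (1 / 3 : ℝ) ≠ 0 := (Real.rpow_pos_of_pos hK0 _).ne'
    field_simp
  have finbd : ∀ S : Finset (ℤ × ℤ), (∀ t ∈ S, t ∈ pr K ∧ (T0 K : ℝ) ^ 2 < (t.1 : ℝ)) →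
      (S.card : ℝ) ≤ (A1 + A2) * K ^ θ := by
    intro S hS
    have e := Finset.card_filter_add_card_filter_not (s := S) (fun t => K ^ β ≤ (t.1 : ℝ))
    have s1 := hA1 K hK (S.filter (fun t => K ^ β ≤ (t.1 : ℝ))) (by
      intro t ht
      rw [Finset.mem_filter] at ht
      exact ⟨(hS t ht.1).1, ht.2⟩)
    have s2 := hA2 K hK (S.filter (fun t => ¬ K ^ β ≤ (t.1 : ℝ))) (by
      intro t ht
      rw [Finset.mem_filter] at ht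
      exact ⟨(hS t ht.1).1, (hS t ht.1).2, (not_le.1 ht.2).le⟩)
    rw [hθ'] at s2
    have e2 : (S.card : ℝ) = ((S.filter (fun t => K ^ β ≤ (t.1 : ℝ))).card : ℝ) +
        ((S.filter (fun t => ¬ K ^ β ≤ (t.1 : ℝ))).card : ℝ) := by
      exact_mod_cast e.symm
    rw [e2]
    linarith
  have fB : {t : ℤ × ℤ | t ∈ pr K ∧ (T0 K : ℝ) ^ 2 < (t.1 : ℝ)}.Finite := by
    by_contra hinf
    obtain ⟨S, hS, hc⟩ := Set.Infinite.exists_subset_card_eq hinf (⌈(A1 + A2) * K ^ θ⌉₊ + 1)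
    have h7 := finbd S (fun t ht => hS ht)
    rw [hc] at h7
    have h8 := Nat.le_ceil ((A1 + A2) * K ^ θ)
    push_cast at h7
    linarith
  have hunion : pr K = {t : ℤ × ℤ | t ∈ pr K ∧ (t.1 : ℝ) ≤ ((T0 K ^ 2 : ℕ) : ℝ)} ∪
      {t : ℤ × ℤ | t ∈ pr K ∧ (T0 K : ℝ) ^ 2 < (t.1 : ℝ)} := by
    ext t
    simp only [Set.mem_union, Set.mem_ofPred_eq]
    push_cast
    constructor
    · intro h
      rcases le_or_gt (t.1 : ℝ) ((T0 K : ℝ) ^ 2) with h9 | h9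
      · exact Or.inl ⟨h, h9⟩
      · exact Or.inr ⟨h, h9⟩
    · rintro (h | h)
      · exact h.1
      · exact h.1
  have hdisj : Disjoint {t : ℤ × ℤ | t ∈ pr K ∧ (t.1 : ℝ) ≤ ((T0 K ^ 2 : ℕ) : ℝ)}
      {t : ℤ × ℤ | t ∈ pr K ∧ (T0 K : ℝ) ^ 2 < (t.1 : ℝ)} := by
    rw [Set.disjoint_left]
    intro t h9 h10
    have h11 := h9.2
    push_cast at h11
    exact absurd h10.2 (not_lt.2 h11)
  have hcard : ((pr K).ncard : ℝ) =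
      ({t : ℤ × ℤ | t ∈ pr K ∧ (t.1 : ℝ) ≤ ((T0 K ^ 2 : ℕ) : ℝ)}.ncard : ℝ) +
      ({t : ℤ × ℤ | t ∈ pr K ∧ (T0 K : ℝ) ^ 2 < (t.1 : ℝ)}.ncard : ℝ) := by
    have h12 := Set.ncard_union_eq hdisj fQ fB
    rw [← hunion] at h12
    exact_mod_cast h12
  have hBn : ({t : ℤ × ℤ | t ∈ pr K ∧ (T0 K : ℝ) ^ 2 < (t.1 : ℝ)}.ncard : ℝ) ≤
      (A1 + A2) * K ^ θ := by
    rw [Set.ncard_eq_toFinset_card _ fB]
    refine finbd _ fun t ht => ?_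
    rw [Set.Finite.mem_toFinset] at ht
    exact ht
  refine ⟨?_, ?_⟩
  · rw [hunion]
    exact fQ.union fB
  · rw [hcard]
    have h13 : (0 : ℝ) ≤ ({t : ℤ × ℤ | t ∈ pr K ∧ (T0 K : ℝ) ^ 2 < (t.1 : ℝ)}.ncard : ℝ) :=
      Nat.cast_nonneg _
    rw [abs_le] at hQ ⊢
    have h14 : 12 * (((T0 K ^ 2 : ℕ)) : ℝ) + 6 * √K +
        8 * K * (((T0 K ^ 2 : ℕ)) : ℝ) ^ (-(1 / 2) : ℝ) ≤ 62 * K ^ θ := by
      have h15 : 8 * K * (((T0 K ^ 2 : ℕ)) : ℝ) ^ (-(1 / 2) : ℝ) =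
        8 * (K * (((T0 K ^ 2 : ℕ)) : ℝ) ^ (-(1 / 2) : ℝ)) := by ring
      rw [h15]
      linarith
    have h16 : (62 + (A1 + A2)) * K ^ θ = 62 * K ^ θ + (A1 + A2) * K ^ θ := by ring
    rw [h16]
    constructor
    · linarith [hQ.1]
    · linarith [hQ.2]

end Pool.Agent.Work.MP_f2148a_nt.As
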