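import Mathlib
import Pool.Agent.Work.MP_f2148a_nt.As.Tailpr

/-!
# As/Hall (size M-L): almost all solvable `k` have only small solutions

`big κ K` is finite as `pr K` is (`k = y ^ 2 - x ^ 3`). We may assume `κ ≤ 1 / 2`
(`big κ K ⊆ big κ' K` for `κ' ≤ κ`, since `|k| ≥ 1`). Put `ρ = κ / 2`: `(1 - ρ) (1 / 2 + κ) ≥ 1 / 2 + κ / 2` for `κ ≤ 1 / 2`.
* The `k ∈ big κ K` with `|k| ≤ K ^ (1 - ρ)`: at most `#pr (K ^ (1 - ρ)) ≤ (c0 + A) K ^ ((1 - ρ) 5 / 6 )` (`Asy θ`, `θ < 5 / 6`;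
  `k ↦` a solution is injective).
* The others: a solution has `max > K ^ ((1 - ρ) (1 / 2 + κ)) ≥ K ^ (1 / 2 + κ / 2)`. Put `η = κ / 4 ≤ 1 / 8`. If `x < K ^ (1 / 3 + η)`
  then `|x| ≤ K ^ (1 / 3 + η)` (`x ^ 3 ≥ -K`) and `y ^ 2 ≤ 2 K ^ (1 + 3 η)`, so `max ≤ 2 K ^ (1 / 2 + 3 κ / 8)`,
  impossible for `K ^ (κ / 8) ≥ 2`. So `x ≥ K ^ (1 / 3 + η)` and `tailpr` gives at most
  `A (K ^ θ + K ^ (5 / 6 - η / 2))` such `k`. For `K ^ (κ / 8) < 2` the number of all `k` is at most `2 K + 1`, bounded.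
`δ = min (5 ρ / 6) (min (η / 2) (5 / 6 - θ))`.
-/

set_option autoImplicit false

namespace Pool.Agent.Work.MP_f2148a_nt.As

private noncomputable def kk (t : ℤ × ℤ) : ℤ := t.2 ^ 2 - t.1 ^ 3

private theorem mem_pr_of {k x y : ℤ} (hk : k ≠ 0) {K : ℝ} (hkK : |(k : ℝ)| ≤ K)
    (h : y ^ 2 = x ^ 3 + k) : (x, y) ∈ pr K ∧ kk (x, y) = k := by
  have e : (y : ℝ) ^ 2 - (x : ℝ) ^ 3 = k := by
    have : ((y ^ 2 : ℤ) : ℝ) = ((x ^ 3 + k : ℤ) : ℝ) := by rw [h]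
    push_cast at this
    linarith
  refine ⟨⟨fun h' => hk ?_, ?_⟩, ?_⟩
  · simp only at h'
    linarith
  · show |(y : ℝ) ^ 2 - (x : ℝ) ^ 3| ≤ K
    rw [e]
    exact hkK
  · show y ^ 2 - x ^ 3 = k
    linarith

private theorem big_image (κ K : ℝ) : big κ K ⊆ kk '' pr K := by
  rintro k ⟨hk, hkK, x, y, hxy, -⟩
  have h := mem_pr_of hk hkK hxy
  exact ⟨(x, y), h.1, h.2⟩

private theorem big_anti {κ κ' : ℝ} (h : κ' ≤ κ) (K : ℝ) : big κ K ⊆ big κ' K := by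
  rintro k ⟨hk, hkK, x, y, hxy, hm⟩
  refine ⟨hk, hkK, x, y, hxy, lt_of_le_of_lt ?_ hm⟩
  have h1 : (1 : ℝ) ≤ |(k : ℝ)| := by
    have : (1 : ℤ) ≤ |k| := Int.one_le_abs hk
    exact_mod_cast this
  exact Real.rpow_le_rpow_of_exponent_le h1 (by linarith)

private theorem big_split {κ K : ℝ} (hκ : 0 < κ) (hκ' : κ ≤ 1 / 2) (hK : 1 ≤ K)
    (h2 : 2 ≤ K ^ (κ / 8)) :
    big κ K ⊆ kk '' pr (K ^ (1 - κ / 2)) ∪ kk '' {t | t ∈ pr K ∧ K ^ (1 / 3 + κ / 4) ≤ (t.1 : ℝ)} := by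
  rintro k ⟨hk, hkK, x, y, hxy, hm⟩
  have hK0 : 0 < K := by linarith
  by_cases hs : |(k : ℝ)| ≤ K ^ (1 - κ / 2)
  · left
    have h := mem_pr_of hk hs hxy
    exact ⟨(x, y), h.1, h.2⟩
  · right
    have h := mem_pr_of hk hkK hxy
    refine ⟨(x, y), ⟨h.1, ?_⟩, h.2⟩
    show K ^ (1 / 3 + κ / 4) ≤ (x : ℝ)
    by_contra hx
    push Not at hx hs
    have a1 : K ^ (1 / 2 + κ / 2) < max |(x : ℝ)| |(y : ℝ)| := by
      refine lt_of_le_of_lt ?_ hm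
      calc K ^ (1 / 2 + κ / 2) ≤ K ^ ((1 - κ / 2) * (1 / 2 + κ)) :=
            Real.rpow_le_rpow_of_exponent_le hK (by nlinarith)
        _ = (K ^ (1 - κ / 2)) ^ (1 / 2 + κ) := Real.rpow_mul hK0.le _ _
        _ ≤ |(k : ℝ)| ^ (1 / 2 + κ) :=
            Real.rpow_le_rpow (Real.rpow_nonneg hK0.le _) hs.le (by linarith)
    have e : (y : ℝ) ^ 2 = (x : ℝ) ^ 3 + k := by exact_mod_cast hxy
    have hk1 := abs_le.1 hkK
    have hx3 : -K ≤ (x : ℝ) ^ 3 := by nlinarith [sq_nonneg (y : ℝ)]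
    have e3 : (K ^ (1 / 3 + κ / 4)) ^ 3 = K ^ (1 + 3 * (κ / 4)) := by
      rw [← Real.rpow_natCast, ← Real.rpow_mul hK0.le]
      congr 1
      push_cast
      ring
    have hKle : K ≤ K ^ (1 + 3 * (κ / 4)) := by
      conv_lhs => rw [← Real.rpow_one K]
      exact Real.rpow_le_rpow_of_exponent_le hK (by linarith)
    have hpos : 0 ≤ K ^ (1 / 3 + κ / 4) := Real.rpow_nonneg hK0.le _
    have habs : |(x : ℝ)| ≤ K ^ (1 / 3 + κ / 4) := by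
      rw [abs_le]
      refine ⟨?_, hx.le⟩
      by_contra hc
      push Not at hc
      have h5 : K ^ (1 / 3 + κ / 4) < -(x : ℝ) := by linarith
      have h6 := pow_lt_pow_left₀ h5 hpos (n := 3) (by norm_num)
      rw [e3] at h6
      have h7 : (-(x : ℝ)) ^ 3 = -(x : ℝ) ^ 3 := by ring
      rw [h7] at h6
      linarith
    have hy2 : (y : ℝ) ^ 2 ≤ 2 * K ^ (1 + 3 * (κ / 4)) := by
      have h8 : (x : ℝ) ^ 3 ≤ |(x : ℝ)| ^ 3 := by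
        rw [← abs_pow]
        exact le_abs_self _
      have h9 := pow_le_pow_left₀ (abs_nonneg (x : ℝ)) habs 3
      rw [e3] at h9
      linarith [hk1.2]
    have e4 : (2 * K ^ (1 / 2 + 3 * κ / 8)) ^ 2 = 4 * K ^ (1 + 3 * (κ / 4)) := by
      rw [mul_pow, ← Real.rpow_natCast (K ^ (1 / 2 + 3 * κ / 8)), ← Real.rpow_mul hK0.le]
      have : (1 / 2 + 3 * κ / 8) * ((2 : ℕ) : ℝ) = 1 + 3 * (κ / 4) := by
        push_cast
        ring
      rw [this]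
      norm_num
    have hpos2 : 0 ≤ K ^ (1 / 2 + 3 * κ / 8) := Real.rpow_nonneg hK0.le _
    have hy3 : |(y : ℝ)| ≤ 2 * K ^ (1 / 2 + 3 * κ / 8) := by
      apply abs_le_of_sq_le_sq _ (by positivity)
      rw [e4]
      have := Real.rpow_nonneg hK0.le (1 + 3 * (κ / 4))
      linarith
    have hx4 : |(x : ℝ)| ≤ 2 * K ^ (1 / 2 + 3 * κ / 8) := by
      have := Real.rpow_le_rpow_of_exponent_le hK
        (show 1 / 3 + κ / 4 ≤ 1 / 2 + 3 * κ / 8 by linarith)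
      linarith
    have h10 : 2 * K ^ (1 / 2 + 3 * κ / 8) ≤ K ^ (1 / 2 + κ / 2) := by
      have e5 : K ^ (1 / 2 + κ / 2) = K ^ (κ / 8) * K ^ (1 / 2 + 3 * κ / 8) := by
        rw [← Real.rpow_add hK0]
        congr 1
        ring
      rw [e5]
      exact mul_le_mul_of_nonneg_right h2 hpos2
    have h11 := max_le hx4 hy3
    linarith

private theorem hall_aux {θ : ℝ} (hA : Asy θ) (hθ : θ < 5 / 6) (κ : ℝ) (hκ : 0 < κ)
    (hκ' : κ ≤ 1 / 2) :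
    ∃ δ : ℝ, 0 < δ ∧ ∃ A : ℝ, ∀ K : ℝ, 1 ≤ K →
      (big κ K).Finite ∧ ((big κ K).ncard : ℝ) ≤ A * K ^ (5 / 6 - δ) := by
  obtain ⟨A1, hA1⟩ := tailpr hA (κ / 4) (by linarith) (by linarith)
  obtain ⟨A0, hA0⟩ := hA
  set δ := min (5 / 6 * (κ / 2)) (min (κ / 8) (5 / 6 - θ)) with hδ
  have hδ0 : 0 < δ := lt_min (by linarith) (lt_min (by linarith) (by linarith))
  have hδ1 : δ ≤ 5 / 6 * (κ / 2) := min_le_left _ _
  have hδ2 : δ ≤ κ / 8 := (min_le_right _ _).trans (min_le_left _ _)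
  have hδ3 : δ ≤ 5 / 6 - θ := (min_le_right _ _).trans (min_le_right _ _)
  have hc0 : 0 ≤ c0 := ENNReal.toReal_nonneg
  have hA0' : A0 ≤ |A0| := le_abs_self _
  have hA1' : A1 ≤ |A1| := le_abs_self _
  set K0 : ℝ := 2 ^ (8 / κ) with hK0
  have hK0' : 1 ≤ K0 := Real.one_le_rpow (by norm_num) (by positivity)
  refine ⟨δ, hδ0, 3 * K0 + (c0 + |A0| + 2 * |A1|), fun K hK => ?_⟩
  have hKp : 0 < K := by linarith
  have hfin : (big κ K).Finite := ((hA0 K hK).1.image kk).subset (big_image κ K)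
  refine ⟨hfin, ?_⟩
  have h1K : 1 ≤ K ^ (5 / 6 - δ) := Real.one_le_rpow hK (by linarith)
  have hnn : 0 ≤ c0 + |A0| + 2 * |A1| := by positivity
  by_cases h2 : 2 ≤ K ^ (κ / 8)
  · have hK1 : 1 ≤ K ^ (1 - κ / 2) := Real.one_le_rpow hK (by linarith)
    have hf1 := (hA0 _ hK1).1
    have hf2 : {t | t ∈ pr K ∧ K ^ (1 / 3 + κ / 4) ≤ (t.1 : ℝ)}.Finite :=
      (hA0 K hK).1.subset fun t ht => ht.1
    have b1 : ((pr (K ^ (1 - κ / 2))).ncard : ℝ) ≤ (c0 + |A0|) * K ^ (5 / 6 - δ) := by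
      have h3 := (abs_le.1 (hA0 _ hK1).2).2
      have e1 : (K ^ (1 - κ / 2)) ^ (5 / 6 : ℝ) = K ^ ((1 - κ / 2) * (5 / 6)) :=
        (Real.rpow_mul hKp.le _ _).symm
      have e2 : (K ^ (1 - κ / 2)) ^ θ ≤ (K ^ (1 - κ / 2)) ^ (5 / 6 : ℝ) :=
        Real.rpow_le_rpow_of_exponent_le hK1 hθ.le
      have e3 : K ^ ((1 - κ / 2) * (5 / 6)) ≤ K ^ (5 / 6 - δ) :=
        Real.rpow_le_rpow_of_exponent_le hK (by linarith)
      rw [e1] at h3 e2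
      have e4 : 0 ≤ (K ^ (1 - κ / 2)) ^ θ := Real.rpow_nonneg (by positivity) _
      have e5 : A0 * (K ^ (1 - κ / 2)) ^ θ ≤ |A0| * K ^ (5 / 6 - δ) :=
        mul_le_mul hA0' (e2.trans e3) e4 (abs_nonneg _)
      have e6 : c0 * K ^ ((1 - κ / 2) * (5 / 6)) ≤ c0 * K ^ (5 / 6 - δ) :=
        mul_le_mul_of_nonneg_left e3 hc0
      linarith
    have b2 : (({t | t ∈ pr K ∧ K ^ (1 / 3 + κ / 4) ≤ (t.1 : ℝ)} : Set (ℤ × ℤ)).ncard : ℝ) ≤
        2 * |A1| * K ^ (5 / 6 - δ) := by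
      have h4 := hA1 K hK hf2.toFinset (fun t ht => (hf2.mem_toFinset.1 ht))
      rw [← Set.ncard_eq_toFinset_card _ hf2] at h4
      have e1 : K ^ θ ≤ K ^ (5 / 6 - δ) := Real.rpow_le_rpow_of_exponent_le hK (by linarith)
      have e2 : K ^ (5 / 6 - κ / 4 / 2) ≤ K ^ (5 / 6 - δ) :=
        Real.rpow_le_rpow_of_exponent_le hK (by linarith)
      have e3 : 0 ≤ K ^ θ + K ^ (5 / 6 - κ / 4 / 2) :=
        add_nonneg (Real.rpow_nonneg hKp.le _) (Real.rpow_nonneg hKp.le _)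
      have e4 : A1 * (K ^ θ + K ^ (5 / 6 - κ / 4 / 2)) ≤
          |A1| * (K ^ (5 / 6 - δ) + K ^ (5 / 6 - δ)) :=
        mul_le_mul hA1' (add_le_add e1 e2) e3 (abs_nonneg _)
      linarith
    have b3 : ((big κ K).ncard : ℝ) ≤ ((pr (K ^ (1 - κ / 2))).ncard : ℝ) +
        (({t | t ∈ pr K ∧ K ^ (1 / 3 + κ / 4) ≤ (t.1 : ℝ)} : Set (ℤ × ℤ)).ncard : ℝ) := by
      have c1 := Set.ncard_le_ncard (big_split hκ hκ' hK h2) ((hf1.image kk).union (hf2.image kk))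
      have c2 := Set.ncard_union_le (kk '' pr (K ^ (1 - κ / 2)))
        (kk '' {t | t ∈ pr K ∧ K ^ (1 / 3 + κ / 4) ≤ (t.1 : ℝ)})
      have c3 := Set.ncard_image_le (f := kk) hf1
      have c4 := Set.ncard_image_le (f := kk) hf2
      exact_mod_cast (c1.trans c2).trans (add_le_add c3 c4)
    have : 0 ≤ 3 * K0 * K ^ (5 / 6 - δ) := by positivity
    linarith
  · push Not at h2
    have hKK0 : K ≤ K0 := by
      have h3 := Real.rpow_le_rpow (Real.rpow_nonneg hKp.le _) h2.le (show 0 ≤ 8 / κ by positivity)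
      rw [← Real.rpow_mul hKp.le] at h3
      have e1 : κ / 8 * (8 / κ) = 1 := by field_simp
      rw [e1, Real.rpow_one] at h3
      exact h3
    have hsub : big κ K ⊆ Set.Icc (-⌊K⌋) ⌊K⌋ := by
      rintro k ⟨-, hkK, -⟩
      have h3 := abs_le.1 hkK
      constructor
      · have : -k ≤ ⌊K⌋ := Int.le_floor.2 (by push_cast; linarith [h3.1])
        linarith
      · exact Int.le_floor.2 h3.2
    have c1 := Set.ncard_le_ncard hsub (Set.finite_Icc _ _)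
    have c2 : (Set.Icc (-⌊K⌋) ⌊K⌋).ncard = (⌊K⌋ + 1 - -⌊K⌋).toNat := by
      rw [← Int.card_Icc, ← Set.ncard_coe_finset, Finset.coe_Icc]
    rw [c2] at c1
    have hfl : 0 ≤ ⌊K⌋ := Int.floor_nonneg.2 hKp.le
    have c3 : ((big κ K).ncard : ℝ) ≤ 2 * (⌊K⌋ : ℝ) + 1 := by
      have : ((big κ K).ncard : ℤ) ≤ 2 * ⌊K⌋ + 1 := by omega
      exact_mod_cast this
    have c4 := Int.floor_le K
    have c5 : 3 * K0 ≤ 3 * K0 * K ^ (5 / 6 - δ) := le_mul_of_one_le_right (by positivity) h1K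
    have c6 : 0 ≤ (c0 + |A0| + 2 * |A1|) * K ^ (5 / 6 - δ) := by positivity
    linarith

theorem hall {θ : ℝ} (hA : Asy θ) (hθ : θ < 5 / 6) (κ : ℝ) (hκ : 0 < κ) :
    ∃ δ : ℝ, 0 < δ ∧ ∃ A : ℝ, ∀ K : ℝ, 1 ≤ K →
      (big κ K).Finite ∧ ((big κ K).ncard : ℝ) ≤ A * K ^ (5 / 6 - δ) := by
  obtain ⟨δ, hδ, A, h⟩ := hall_aux hA hθ (min κ (1 / 2)) (lt_min hκ (by norm_num))
    (min_le_right _ _)
  refine ⟨δ, hδ, A, fun K hK => ?_⟩
  have hsub := big_anti (min_le_left κ (1 / 2)) K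
  refine ⟨(h K hK).1.subset hsub, ?_⟩
  refine le_trans ?_ (h K hK).2
  exact_mod_cast Set.ncard_le_ncard hsub (h K hK).1

end Pool.Agent.Work.MP_f2148a_nt.As
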