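import Mathlib
import Pool.Agent.Work.MP_f2148a_nt.As.Defs

/-!
# As/PrimA (size S-M): reduction to primitive pairs

Strong induction on `|y|`: if some prime `p` has `p ^ 2 ∣ x` and `p ^ 3 ∣ y`, apply the induction hypothesis to
`(x / p ^ 2, y / p ^ 3)` and multiply `D` by `p`.
-/

set_option autoImplicit false

namespace Pool.Agent.Work.MP_f2148a_nt.As

theorem exists_prim (x y : ℤ) (hy : 0 < y) : ∃ (D : ℕ) (t : ℤ × ℤ), 1 ≤ D ∧ 0 < t.2 ∧ IsPrim t ∧
    x = (D : ℤ) ^ 2 * t.1 ∧ y = (D : ℤ) ^ 3 * t.2 := by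
  obtain ⟨n, hn⟩ : ∃ n : ℕ, y.toNat = n := ⟨_, rfl⟩
  induction n using Nat.strong_induction_on generalizing x y with
  | _ n ih =>
    by_cases hp : IsPrim (x, y)
    · exact ⟨1, (x, y), le_refl 1, hy, hp, by push_cast; ring, by push_cast; ring⟩
    · rw [IsPrim] at hp
      push Not at hp
      obtain ⟨p, hpp, ⟨x', hx'⟩, ⟨y', hy'⟩⟩ := hp
      simp only at hx' hy'
      have hp2 : (2 : ℤ) ≤ p := by exact_mod_cast hpp.two_le
      have hp3 : (1 : ℤ) < (p : ℤ) ^ 3 := by
        have : (2 : ℤ) ^ 3 ≤ (p : ℤ) ^ 3 := pow_le_pow_left₀ (by norm_num) hp2 3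
        linarith
      have hy0 : 0 < y' := by
        rw [hy'] at hy
        exact (mul_pos_iff_of_pos_left (by positivity)).1 hy
      have hlt : y' < y := by
        rw [hy']
        nlinarith
      obtain ⟨D, t, hD, ht, hprim, e1, e2⟩ := ih y'.toNat (by omega) x' y' hy0 rfl
      refine ⟨p * D, t, Nat.one_le_iff_ne_zero.2 (Nat.mul_ne_zero hpp.ne_zero (by omega)), ht,
        hprim, ?_, ?_⟩
      · rw [hx', e1]
        push_cast
        ring
      · rw [hy', e2]
        push_cast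
        ring

end Pool.Agent.Work.MP_f2148a_nt.As
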