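import Mathlib
import Pool.Agent.Work.MP_f2148a_nt.As.PrimA

/-!
# As/PrimB (size M-L): from primitive pairs to all pairs

Let `A`, `d` be as in `PrimGiants`; we may assume `d ≤ 1 / 12` (`K ≥ 1`) and `A ≥ 0`. Let `S` be a set as in `Giants`.
The elements with `y = 0`: `x ^ 3 ≤ K`, `x ≥ K ^ (53 / 20) ≥ K ≥ x ^ 3`, `x = 1`: at most one. By the symmetry
`y ↦ -y` it is enough to bound the elements with `y > 0` (twice). For these let `(D, t)` be as in `exists_prim`;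
`y ^ 2 - x ^ 3 = D ^ 6 (t.2 ^ 2 - t.1 ^ 3)`, so `1 ≤ |t.2 ^ 2 - t.1 ^ 3| ≤ K / D ^ 6`. Let `j` be the natural number with
`K_j / 2 < |t.2 ^ 2 - t.1 ^ 3| ≤ K_j`, `K_j = K D⁻⁶ 2 ^ (-j)`; then `K_j ≥ 1`, and
`t.1 = x / D ^ 2 ≥ K ^ (53 / 20) / D ^ 2 ≥ K_j ^ (53 / 20)` (`D ≥ 1`). The map `(x, y) ↦ (D, j, t)` is injective; for given
`(D, j)` there are at most `A K_j ^ (5 / 6 - d) ≤ A K ^ (5 / 6 - d) D ^ (-4) 2 ^ (-j / 2)` values of `t`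
(`5 / 6 - d ≥ 3 / 4`, `6 * 3 / 4 ≥ 4`, so `D ^ (-6 (5 / 6 - d)) ≤ D ^ (-4)` and `2 ^ (-j (5 / 6 - d)) ≤ 2 ^ (-j / 2)`; for
`D ^ 6 2 ^ j > K` none). Sum over `D`, `j` (a convergent double series, or `D ^ (-4) ≤ D ^ (-2)`,
`∑ 1 / D ^ 2 ≤ 2`, `∑ (2 ^ (-1 / 2)) ^ j ≤ 4`).
-/

set_option autoImplicit false

namespace Pool.Agent.Work.MP_f2148a_nt.As

private noncomputable def pbF (x : ℕ × ℕ) : ℝ := (1 / (x.1 : ℝ) ^ 2) * ((√2)⁻¹) ^ x.2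

private theorem pb_sqrt2 : (1 : ℝ) < √2 := by
  rw [Real.lt_sqrt (by norm_num)]
  norm_num

private theorem pb_summable : Summable pbF := by
  have h1 : Summable fun n : ℕ => 1 / (n : ℝ) ^ 2 :=
    Real.summable_one_div_nat_pow.2 (by norm_num)
  have h2 : Summable fun n : ℕ => ((√2 : ℝ)⁻¹) ^ n :=
    summable_geometric_of_lt_one (inv_nonneg.2 (Real.sqrt_nonneg _)) (inv_lt_one_of_one_lt₀ pb_sqrt2)
  exact h1.mul_of_nonneg h2 (fun n => by positivity) (fun n => by positivity)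

private theorem pb_nonneg (x : ℕ × ℕ) : 0 ≤ pbF x := by
  unfold pbF
  positivity

/-- the exponent -/
private theorem pb_est {K e : ℝ} (hK : 1 ≤ K) (he : 1 / 2 ≤ e) (D j : ℕ) (hD : 1 ≤ D) :
    (K / ((D : ℝ) ^ 6 * 2 ^ j)) ^ e ≤ K ^ e * pbF (D, j) := by
  have hD' : (1 : ℝ) ≤ D := by exact_mod_cast hD
  have hX : (1 : ℝ) ≤ (D : ℝ) ^ 6 * 2 ^ j :=
    one_le_mul_of_one_le_of_one_le (one_le_pow₀ hD') (one_le_pow₀ (by norm_num))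
  have hX0 : (0 : ℝ) < (D : ℝ) ^ 6 * 2 ^ j := by linarith
  rw [Real.div_rpow (by linarith) hX0.le, div_eq_mul_inv]
  refine mul_le_mul_of_nonneg_left ?_ (Real.rpow_nonneg (by linarith) _)
  have h1 : √((D : ℝ) ^ 6 * 2 ^ j) ≤ ((D : ℝ) ^ 6 * 2 ^ j) ^ e := by
    rw [Real.sqrt_eq_rpow]
    exact Real.rpow_le_rpow_of_exponent_le hX he
  have h2 : √((D : ℝ) ^ 6 * 2 ^ j) = (D : ℝ) ^ 3 * (√2) ^ j := by
    rw [Real.sqrt_mul (by positivity), show (D : ℝ) ^ 6 = ((D : ℝ) ^ 3) ^ 2 by ring,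
      Real.sqrt_sq (by positivity)]
    congr 1
    rw [Real.sqrt_eq_iff_mul_self_eq (by positivity) (by positivity), ← mul_pow,
      Real.mul_self_sqrt (by norm_num)]
  have h3 : (D : ℝ) ^ 2 * (√2) ^ j ≤ ((D : ℝ) ^ 6 * 2 ^ j) ^ e := by
    refine le_trans ?_ (h2 ▸ h1)
    exact mul_le_mul_of_nonneg_right (pow_le_pow_right₀ hD' (by norm_num)) (by positivity)
  have h4 : pbF (D, j) = ((D : ℝ) ^ 2 * (√2) ^ j)⁻¹ := by
    unfold pbF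
    rw [mul_inv, inv_pow, one_div]
  rw [h4]
  have h5 : (0 : ℝ) < (D : ℝ) ^ 2 * (√2) ^ j := by
    have := pb_sqrt2
    positivity
  exact inv_anti₀ h5 h3

private theorem pb_pos {A e : ℝ} (hA0 : 0 ≤ A) (he : 1 / 2 ≤ e)
    (h : ∀ K : ℝ, 1 ≤ K → ∀ S : Finset (ℤ × ℤ),
      (∀ t ∈ S, 0 < t.2 ∧ IsPrim t ∧ K / 2 < |(t.2 : ℝ) ^ 2 - (t.1 : ℝ) ^ 3| ∧
        |(t.2 : ℝ) ^ 2 - (t.1 : ℝ) ^ 3| ≤ K ∧ K ^ (53 / 20 : ℝ) ≤ (t.1 : ℝ)) →
      (S.card : ℝ) ≤ A * K ^ e) :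
    ∀ K : ℝ, 1 ≤ K → ∀ S : Finset (ℤ × ℤ),
      (∀ t ∈ S, t ∈ pr K ∧ 0 < t.2 ∧ K ^ (53 / 20 : ℝ) ≤ (t.1 : ℝ)) →
      (S.card : ℝ) ≤ A * (∑' x, pbF x) * K ^ e := by
  classical
  intro K hK S hS
  have hK0 : (0 : ℝ) < K := by linarith
  have hex : ∀ t ∈ S, ∃ (D j : ℕ) (t' : ℤ × ℤ), 1 ≤ D ∧ 0 < t'.2 ∧ IsPrim t' ∧
      t.1 = (D : ℤ) ^ 2 * t'.1 ∧ t.2 = (D : ℤ) ^ 3 * t'.2 ∧
      K / ((D : ℝ) ^ 6 * 2 ^ j) / 2 < |(t'.2 : ℝ) ^ 2 - (t'.1 : ℝ) ^ 3| ∧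
      |(t'.2 : ℝ) ^ 2 - (t'.1 : ℝ) ^ 3| ≤ K / ((D : ℝ) ^ 6 * 2 ^ j) ∧
      1 ≤ K / ((D : ℝ) ^ 6 * 2 ^ j) := by
    intro t ht
    obtain ⟨⟨hne, hle⟩, hpos, hbig⟩ := hS t ht
    obtain ⟨D, t', hD, ht', hprim, e1, e2⟩ := exists_prim t.1 t.2 hpos
    have hD' : (1 : ℝ) ≤ D := by exact_mod_cast hD
    have hD0 : (0 : ℝ) < (D : ℝ) ^ 6 := by positivity
    have e3 : (t.2 : ℝ) ^ 2 - (t.1 : ℝ) ^ 3 = (D : ℝ) ^ 6 * ((t'.2 : ℝ) ^ 2 - (t'.1 : ℝ) ^ 3) := by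
      rw [e1, e2]
      push_cast
      ring
    have hm : (1 : ℝ) ≤ |(t'.2 : ℝ) ^ 2 - (t'.1 : ℝ) ^ 3| := by
      have h1 : t'.2 ^ 2 - t'.1 ^ 3 ≠ 0 := by
        intro h0
        apply hne
        rw [e1, e2]
        have h2 : t'.2 ^ 2 = t'.1 ^ 3 := by linarith
        calc ((D : ℤ) ^ 3 * t'.2) ^ 2 = (D : ℤ) ^ 6 * t'.2 ^ 2 := by ring
          _ = (D : ℤ) ^ 6 * t'.1 ^ 3 := by rw [h2]
          _ = ((D : ℤ) ^ 2 * t'.1) ^ 3 := by ring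
      have h2 : 1 ≤ |t'.2 ^ 2 - t'.1 ^ 3| := Int.one_le_abs h1
      have h3 : ((1 : ℤ) : ℝ) ≤ ((|t'.2 ^ 2 - t'.1 ^ 3| : ℤ) : ℝ) := Int.cast_le.2 h2
      push_cast at h3
      exact h3
    have hm0 : (0 : ℝ) < |(t'.2 : ℝ) ^ 2 - (t'.1 : ℝ) ^ 3| := by linarith
    rw [e3, abs_mul, abs_of_pos hD0] at hle
    have hx : 1 ≤ K / ((D : ℝ) ^ 6 * |(t'.2 : ℝ) ^ 2 - (t'.1 : ℝ) ^ 3|) := by
      rw [one_le_div (by positivity)]
      exact hle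
    obtain ⟨j, hj1, hj2⟩ := exists_nat_pow_near hx (by norm_num : (1 : ℝ) < 2)
    rw [le_div_iff₀ (by positivity)] at hj1
    rw [div_lt_iff₀ (by positivity)] at hj2
    have hX0 : (0 : ℝ) < (D : ℝ) ^ 6 * 2 ^ j := by positivity
    have h5 : |(t'.2 : ℝ) ^ 2 - (t'.1 : ℝ) ^ 3| ≤ K / ((D : ℝ) ^ 6 * 2 ^ j) := by
      rw [le_div_iff₀ hX0]
      calc |(t'.2 : ℝ) ^ 2 - (t'.1 : ℝ) ^ 3| * ((D : ℝ) ^ 6 * 2 ^ j) =
          2 ^ j * ((D : ℝ) ^ 6 * |(t'.2 : ℝ) ^ 2 - (t'.1 : ℝ) ^ 3|) := by ring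
        _ ≤ K := hj1
    refine ⟨D, j, t', hD, ht', hprim, e1, e2, ?_, h5, hm.trans h5⟩
    rw [div_div, div_lt_iff₀ (by positivity)]
    calc K < 2 ^ (j + 1) * ((D : ℝ) ^ 6 * |(t'.2 : ℝ) ^ 2 - (t'.1 : ℝ) ^ 3|) := hj2
      _ = |(t'.2 : ℝ) ^ 2 - (t'.1 : ℝ) ^ 3| * ((D : ℝ) ^ 6 * 2 ^ j * 2) := by ring
  choose! D j t' hD ht' hprim e1 e2 h5 h6 h7 using hex
  have hfib : ∀ b ∈ S.image (fun t => (D t, j t)),
      (({t ∈ S | (D t, j t) = b} : Finset (ℤ × ℤ)).card : ℝ) ≤ A * (K ^ e * pbF b) := by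
    rintro ⟨D₀, j₀⟩ hb
    obtain ⟨t₀, ht₀, heq⟩ := Finset.mem_image.1 hb
    have hD₀ : D t₀ = D₀ := congrArg Prod.fst heq
    have hj₀ : j t₀ = j₀ := congrArg Prod.snd heq
    have hinj : Set.InjOn t' (({t ∈ S | (D t, j t) = (D₀, j₀)} : Finset (ℤ × ℤ)) : Set (ℤ × ℤ)) := by
      intro s hs u hu hsu
      rw [Finset.mem_coe, Finset.mem_filter] at hs hu
      have h1 : D s = D₀ := congrArg Prod.fst hs.2
      have h2 : D u = D₀ := congrArg Prod.fst hu.2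
      apply Prod.ext
      · rw [e1 s hs.1, e1 u hu.1, h1, h2, hsu]
      · rw [e2 s hs.1, e2 u hu.1, h1, h2, hsu]
    have hcard := Finset.card_image_of_injOn hinj
    have h8 : 1 ≤ K / ((D₀ : ℝ) ^ 6 * 2 ^ j₀) := by
      have := h7 t₀ ht₀
      rw [hD₀, hj₀] at this
      exact this
    have hD1 : 1 ≤ D₀ := by
      have := hD t₀ ht₀
      rw [hD₀] at this
      exact this
    have hD1' : (1 : ℝ) ≤ D₀ := by exact_mod_cast hD1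
    have h9 := h (K / ((D₀ : ℝ) ^ 6 * 2 ^ j₀)) h8
      (({t ∈ S | (D t, j t) = (D₀, j₀)} : Finset (ℤ × ℤ)).image t') (by
      intro s hs
      obtain ⟨t, ht, rfl⟩ := Finset.mem_image.1 hs
      rw [Finset.mem_filter] at ht
      obtain ⟨htS, htb⟩ := ht
      have h1 : D t = D₀ := congrArg Prod.fst htb
      have h2 : j t = j₀ := congrArg Prod.snd htb
      have k5 := h5 t htS
      have k6 := h6 t htS
      rw [h1, h2] at k5 k6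
      refine ⟨ht' t htS, hprim t htS, k5, k6, ?_⟩
      have k7 := (hS t htS).2.2
      have k8 : (t.1 : ℝ) = (D₀ : ℝ) ^ 2 * ((t' t).1 : ℝ) := by
        have := e1 t htS
        rw [h1] at this
        have h10 := congrArg (fun z : ℤ => (z : ℝ)) this
        push_cast at h10
        exact h10
      rw [k8] at k7
      have hX : (1 : ℝ) ≤ (D₀ : ℝ) ^ 6 * 2 ^ j₀ :=
        one_le_mul_of_one_le_of_one_le (one_le_pow₀ hD1') (one_le_pow₀ (by norm_num))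
      have hX0 : (0 : ℝ) < (D₀ : ℝ) ^ 6 * 2 ^ j₀ := by linarith
      rw [Real.div_rpow hK0.le hX0.le, div_le_iff₀ (Real.rpow_pos_of_pos hX0 _)]
      have k9 : (D₀ : ℝ) ^ 2 ≤ ((D₀ : ℝ) ^ 6 * 2 ^ j₀) ^ (53 / 20 : ℝ) := by
        calc (D₀ : ℝ) ^ 2 ≤ (D₀ : ℝ) ^ 6 := pow_le_pow_right₀ hD1' (by norm_num)
          _ = (D₀ : ℝ) ^ 6 * 1 := (mul_one _).symm
          _ ≤ (D₀ : ℝ) ^ 6 * 2 ^ j₀ :=
            mul_le_mul_of_nonneg_left (one_le_pow₀ (by norm_num)) (by positivity)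
          _ = ((D₀ : ℝ) ^ 6 * 2 ^ j₀) ^ (1 : ℝ) := (Real.rpow_one _).symm
          _ ≤ ((D₀ : ℝ) ^ 6 * 2 ^ j₀) ^ (53 / 20 : ℝ) :=
            Real.rpow_le_rpow_of_exponent_le hX (by norm_num)
      have k10 : (0 : ℝ) ≤ ((t' t).1 : ℝ) := by
        have h11 : (0 : ℝ) < K ^ (53 / 20 : ℝ) := Real.rpow_pos_of_pos hK0 _
        have h12 : (0 : ℝ) < (D₀ : ℝ) ^ 2 * ((t' t).1 : ℝ) := by linarith
        exact (pos_of_mul_pos_right h12 (by positivity)).le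
      calc K ^ (53 / 20 : ℝ) ≤ (D₀ : ℝ) ^ 2 * ((t' t).1 : ℝ) := k7
        _ ≤ ((D₀ : ℝ) ^ 6 * 2 ^ j₀) ^ (53 / 20 : ℝ) * ((t' t).1 : ℝ) :=
          mul_le_mul_of_nonneg_right k9 k10
        _ = ((t' t).1 : ℝ) * ((D₀ : ℝ) ^ 6 * 2 ^ j₀) ^ (53 / 20 : ℝ) := mul_comm _ _)
    rw [hcard] at h9
    exact h9.trans (mul_le_mul_of_nonneg_left (pb_est hK he D₀ j₀ hD1) hA0)
  rw [Finset.card_eq_sum_card_image (fun t => (D t, j t)) S]
  push_cast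
  calc ∑ b ∈ S.image (fun t => (D t, j t)),
        (({t ∈ S | (D t, j t) = b} : Finset (ℤ × ℤ)).card : ℝ)
      ≤ ∑ b ∈ S.image (fun t => (D t, j t)), A * (K ^ e * pbF b) := Finset.sum_le_sum hfib
    _ = A * (∑ b ∈ S.image (fun t => (D t, j t)), pbF b) * K ^ e := by
        rw [← Finset.mul_sum, ← Finset.mul_sum]
        ring
    _ ≤ A * (∑' x, pbF x) * K ^ e := by
        refine mul_le_mul_of_nonneg_right (mul_le_mul_of_nonneg_left ?_ hA0)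
          (Real.rpow_nonneg hK0.le _)
        exact pb_summable.sum_le_tsum _ fun x _ => pb_nonneg x

theorem prim (h : PrimGiants) : ∃ d : ℝ, 0 < d ∧ Giants (53 / 20) (5 / 6 - d) := by
  classical
  obtain ⟨A, d, hd, hA⟩ := h
  refine ⟨min d (1 / 12), lt_min hd (by norm_num), ?_⟩
  set d' := min d (1 / 12) with hd'
  have hd1 : d' ≤ d := min_le_left _ _
  have hd2 : d' ≤ 1 / 12 := min_le_right _ _
  have he : (1 : ℝ) / 2 ≤ 5 / 6 - d' := by linarith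
  have hA' : ∀ K : ℝ, 1 ≤ K → ∀ S : Finset (ℤ × ℤ),
      (∀ t ∈ S, 0 < t.2 ∧ IsPrim t ∧ K / 2 < |(t.2 : ℝ) ^ 2 - (t.1 : ℝ) ^ 3| ∧
        |(t.2 : ℝ) ^ 2 - (t.1 : ℝ) ^ 3| ≤ K ∧ K ^ (53 / 20 : ℝ) ≤ (t.1 : ℝ)) →
      (S.card : ℝ) ≤ max A 0 * K ^ (5 / 6 - d') := by
    intro K hK S hS
    refine (hA K hK S hS).trans ?_
    exact mul_le_mul (le_max_left _ _)
      (Real.rpow_le_rpow_of_exponent_le hK (by linarith)) (Real.rpow_nonneg (by linarith) _)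
      (le_max_right _ _)
  have hB := pb_pos (le_max_right A 0) he hA'
  refine ⟨1 + 2 * (max A 0 * ∑' x, pbF x), fun K hK S hS => ?_⟩
  have hK0 : (0 : ℝ) < K := by linarith
  have hKe : (1 : ℝ) ≤ K ^ (5 / 6 - d') := Real.one_le_rpow hK (by linarith)
  have hKb : (1 : ℝ) ≤ K ^ (53 / 20 : ℝ) := Real.one_le_rpow hK (by norm_num)
  have hKK : K ≤ K ^ (53 / 20 : ℝ) := by
    calc K = K ^ (1 : ℝ) := (Real.rpow_one K).symm
      _ ≤ _ := Real.rpow_le_rpow_of_exponent_le hK (by norm_num)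
  have h1 := hB K hK (S.filter fun t => 0 < t.2) (by
    intro t ht
    rw [Finset.mem_filter] at ht
    exact ⟨(hS t ht.1).1, ht.2, (hS t ht.1).2⟩)
  have h2 := hB K hK ((S.filter fun t => t.2 < 0).image fun t => (t.1, -t.2)) (by
    intro s hs
    obtain ⟨t, ht, rfl⟩ := Finset.mem_image.1 hs
    rw [Finset.mem_filter] at ht
    obtain ⟨⟨hne, hle⟩, hb⟩ := hS t ht.1
    refine ⟨⟨?_, ?_⟩, ?_, hb⟩
    · show (-t.2) ^ 2 ≠ t.1 ^ 3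
      rw [neg_sq]
      exact hne
    · show |((-t.2 : ℤ) : ℝ) ^ 2 - (t.1 : ℝ) ^ 3| ≤ K
      push_cast
      rw [neg_sq]
      exact hle
    · show 0 < -t.2
      linarith [ht.2])
  rw [Finset.card_image_of_injective _ (by
    intro s t hst
    simp only [Prod.mk.injEq, neg_inj] at hst
    exact Prod.ext hst.1 hst.2)] at h2
  have h3 : (S.filter fun t => t.2 = 0).card ≤ 1 := by
    rw [Finset.card_le_one]
    have key : ∀ t ∈ S.filter fun t => t.2 = 0, t = (1, 0) := by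
      intro t ht
      rw [Finset.mem_filter] at ht
      obtain ⟨⟨hne, hle⟩, hb⟩ := hS t ht.1
      rw [ht.2] at hle
      have hx1 : (1 : ℝ) ≤ (t.1 : ℝ) := hKb.trans hb
      have hx1' : 1 ≤ t.1 := by exact_mod_cast hx1
      have h4 : (t.1 : ℝ) ^ 3 ≤ K := by
        have h5 : |((0 : ℤ) : ℝ) ^ 2 - (t.1 : ℝ) ^ 3| = (t.1 : ℝ) ^ 3 := by
          rw [Int.cast_zero, zero_pow two_ne_zero, zero_sub, abs_neg, abs_of_pos (by positivity)]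
        rw [h5] at hle
        exact hle
      have h6 : (t.1 : ℝ) ^ 3 ≤ (t.1 : ℝ) := h4.trans (hKK.trans hb)
      have h7 : t.1 ^ 3 ≤ t.1 := by exact_mod_cast h6
      have h8 : t.1 = 1 := by
        by_contra h9
        have h10 : 2 ≤ t.1 := by omega
        nlinarith [mul_pos (by linarith : (0 : ℤ) < t.1) (by linarith : (0 : ℤ) < t.1)]
      exact Prod.ext h8 ht.2
    intro a ha b hb
    rw [key a ha, key b hb]
  have h4 : S.card ≤ (S.filter fun t => 0 < t.2).card + (S.filter fun t => t.2 < 0).card +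
      (S.filter fun t => t.2 = 0).card := by
    have h5 : S ⊆ ((S.filter fun t => 0 < t.2) ∪ (S.filter fun t => t.2 < 0)) ∪
        (S.filter fun t => t.2 = 0) := by
      intro t ht
      simp only [Finset.mem_union, Finset.mem_filter]
      rcases lt_trichotomy t.2 0 with h | h | h
      · exact Or.inl (Or.inr ⟨ht, h⟩)
      · exact Or.inr ⟨ht, h⟩
      · exact Or.inl (Or.inl ⟨ht, h⟩)
    refine (Finset.card_le_card h5).trans ((Finset.card_union_le _ _).trans ?_)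
    exact Nat.add_le_add_right (Finset.card_union_le _ _) _
  have h5 : (S.card : ℝ) ≤ (S.filter fun t => 0 < t.2).card + (S.filter fun t => t.2 < 0).card +
      (S.filter fun t => t.2 = 0).card := by exact_mod_cast h4
  have h6 : ((S.filter fun t => t.2 = 0).card : ℝ) ≤ 1 := by exact_mod_cast h3
  calc (S.card : ℝ) ≤ _ := h5
    _ ≤ max A 0 * (∑' x, pbF x) * K ^ (5 / 6 - d') + max A 0 * (∑' x, pbF x) * K ^ (5 / 6 - d') +
        K ^ (5 / 6 - d') := add_le_add (add_le_add h1 h2) (h6.trans hKe)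
    _ = (1 + 2 * (max A 0 * ∑' x, pbF x)) * K ^ (5 / 6 - d') := by ring

end Pool.Agent.Work.MP_f2148a_nt.As
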