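import Mathlib
import Pool.Agent.Work.MP_f2148a_nt.As.AsyM
import Pool.Agent.Work.MP_f2148a_nt.As.Cnt
import Pool.Agent.Work.MP_f2148a_nt.As.Hall
import Pool.Agent.Work.MP_f2148a_nt.As.PrimB

/-!
# As/Final: the assembly
-/

set_option autoImplicit false

namespace Pool.Agent.Work.MP_f2148a_nt.As

theorem giants_mono {β θ θ' : ℝ} (h : θ ≤ θ') (hG : Giants β θ) : Giants β θ' := by
  obtain ⟨A, hA⟩ := hG
  refine ⟨|A|, fun K hK S hS => (hA K hK S hS).trans ?_⟩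
  have h1 : K ^ θ ≤ K ^ θ' := Real.rpow_le_rpow_of_exponent_le hK h
  have h2 : 0 ≤ K ^ θ := Real.rpow_nonneg (by linarith) _
  calc A * K ^ θ ≤ |A| * K ^ θ := mul_le_mul_of_nonneg_right (le_abs_self A) h2
    _ ≤ |A| * K ^ θ' := mul_le_mul_of_nonneg_left h1 (abs_nonneg A)

theorem exists_asy (h : PrimGiants) : ∃ θ : ℝ, 4 / 5 < θ ∧ θ < 5 / 6 ∧ Asy θ := by
  obtain ⟨d, hd, hG⟩ := prim h
  refine ⟨max (5 / 6 - d) (83 / 100), ?_, ?_, ?_⟩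
  · exact lt_max_of_lt_right (by norm_num)
  · exact max_lt (by linarith) (by norm_num)
  · refine asy (β := 53 / 20) (by norm_num) ?_ (giants_mono (le_max_left _ _) hG)
    exact lt_max_of_lt_right (by norm_num)

theorem final (h : PrimGiants) :
    (∃ δ : ℝ, 0 < δ ∧ ∃ A : ℝ, ∀ K : ℝ, 1 ≤ K →
      (pr K).Finite ∧ |((pr K).ncard : ℝ) - c0 * K ^ (5 / 6 : ℝ)| ≤ A * K ^ (5 / 6 - δ)) ∧
    (∃ δ : ℝ, 0 < δ ∧ ∃ A : ℝ, ∀ K : ℝ, 1 ≤ K →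
      (sol K).Finite ∧ |((sol K).ncard : ℝ) - c0 / 2 * K ^ (5 / 6 : ℝ)| ≤ A * K ^ (5 / 6 - δ)) ∧
    ∀ κ : ℝ, 0 < κ → ∃ δ : ℝ, 0 < δ ∧ ∃ A : ℝ, ∀ K : ℝ, 1 ≤ K →
      (big κ K).Finite ∧ ((big κ K).ncard : ℝ) ≤ A * K ^ (5 / 6 - δ) := by
  obtain ⟨θ, h1, h2, hA⟩ := exists_asy h
  refine ⟨⟨5 / 6 - θ, by linarith, ?_⟩, ⟨5 / 6 - θ, by linarith, ?_⟩, hall hA h2⟩
  · obtain ⟨A, hA⟩ := hA
    refine ⟨A, fun K hK => ?_⟩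
    rw [sub_sub_cancel]
    exact hA K hK
  · obtain ⟨A, hA⟩ := cnt hA h1
    refine ⟨A, fun K hK => ?_⟩
    rw [sub_sub_cancel]
    exact hA K hK

end Pool.Agent.Work.MP_f2148a_nt.As
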