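import Mathlib
import Pool.Agent.Work.MP_f2148a_nt.As.Final
import Pool.Agent.Work.MP_f2148a_nt.M56.Giants

/-!
# As/Bridge: `PrimGiants` from the theorem of the block M56; the unconditional final theorem
-/

set_option autoImplicit false

namespace Pool.Agent.Work.MP_f2148a_nt.As

theorem isUnit_of_isPrim {t : ℤ × ℤ} (ht : IsPrim t) (hy : 0 < t.2) (d : ℤ) (h1 : d ^ 2 ∣ t.1)
    (h2 : d ^ 3 ∣ t.2) : IsUnit d := by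
  by_contra hd
  have hd0 : d ≠ 0 := by
    rintro rfl
    rw [zero_pow (by norm_num), zero_dvd_iff] at h2
    exact hy.ne' h2
  have h3 : d.natAbs ≠ 1 := fun h => hd (Int.isUnit_iff_natAbs_eq.2 h)
  obtain ⟨p, hp, hpd⟩ := Nat.exists_prime_and_dvd h3
  have h4 : (p : ℤ) ∣ d := Int.natCast_dvd.2 hpd
  exact ht p hp ⟨(pow_dvd_pow_of_dvd h4 2).trans h1, (pow_dvd_pow_of_dvd h4 3).trans h2⟩

theorem primGiants : PrimGiants := by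
  obtain ⟨A, d, hd, h⟩ := M56.giants
  refine ⟨A, d, hd, fun K hK S hS => h K hK S fun p hp => ?_⟩
  obtain ⟨h1, h2, h3, h4, h5⟩ := hS p hp
  refine ⟨h1, h5, ?_, ?_, isUnit_of_isPrim h2 h1⟩
  · push_cast
    exact h3
  · push_cast
    exact h4

theorem main :
    (∃ δ : ℝ, 0 < δ ∧ ∃ A : ℝ, ∀ K : ℝ, 1 ≤ K →
      (pr K).Finite ∧ |((pr K).ncard : ℝ) - c0 * K ^ (5 / 6 : ℝ)| ≤ A * K ^ (5 / 6 - δ)) ∧
    (∃ δ : ℝ, 0 < δ ∧ ∃ A : ℝ, ∀ K : ℝ, 1 ≤ K →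
      (sol K).Finite ∧ |((sol K).ncard : ℝ) - c0 / 2 * K ^ (5 / 6 : ℝ)| ≤ A * K ^ (5 / 6 - δ)) ∧
    ∀ κ : ℝ, 0 < κ → ∃ δ : ℝ, 0 < δ ∧ ∃ A : ℝ, ∀ K : ℝ, 1 ≤ K →
      (big κ K).Finite ∧ ((big κ K).ncard : ℝ) ≤ A * K ^ (5 / 6 - δ) :=
  final primGiants

end Pool.Agent.Work.MP_f2148a_nt.As
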