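import Mathlib
import Pool.Agent.Work.MP_f2148a_nt.As.Bridge
import Pool.Agent.Work.MP_f2148a_nt.As.Two
import Pool.Agent.Work.MP_f2148a_nt.As.VolB

/-!
# As/Full: the final theorem in one statement (helper4)
-/

set_option autoImplicit false

namespace Pool.Agent.Work.MP_f2148a_nt.As

/-- the `k` with `0 < |k| ≤ K` for which `y ^ 2 = x ^ 3 + k` has a solution of size larger than
`|k| ^ (1 / 2 + κ)` or two solutions with different `x` -/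
def bad (κ K : ℝ) : Set ℤ := {k | k ≠ 0 ∧ |(k : ℝ)| ≤ K ∧ ∃ x y : ℤ, y ^ 2 = x ^ 3 + k ∧
  (|(k : ℝ)| ^ (1 / 2 + κ) < max |(x : ℝ)| |(y : ℝ)| ∨ ∃ x' y' : ℤ, y' ^ 2 = x' ^ 3 + k ∧ x' ≠ x)}

theorem full (hP : PrimGiants) (κ : ℝ) (hκ : 0 < κ) : ∃ δ : ℝ, 0 < δ ∧ ∃ A : ℝ, ∀ K : ℝ, 1 ≤ K →
    (pr K).Finite ∧ |((pr K).ncard : ℝ) - c0 * K ^ (5 / 6 : ℝ)| ≤ A * K ^ (5 / 6 - δ) ∧
    |((sol K).ncard : ℝ) - c0 / 2 * K ^ (5 / 6 : ℝ)| ≤ A * K ^ (5 / 6 - δ) ∧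
    ((bad κ K).ncard : ℝ) ≤ A * K ^ (5 / 6 - δ) := by
  obtain ⟨θ, h1, h2, hA⟩ := exists_asy hP
  obtain ⟨δ₁, hδ₁, A₁, H1⟩ := hall hA h2 κ hκ
  obtain ⟨A₂, H2⟩ := cnt hA h1
  obtain ⟨A₃, H3⟩ := card_two hA h1
  obtain ⟨A₀, H0⟩ := hA
  refine ⟨min δ₁ (5 / 6 - θ), lt_min hδ₁ (by linarith), |A₀| + |A₁| + |A₂| + |A₃|,
    fun K hK => ?_⟩
  obtain ⟨f0, g0⟩ := H0 K hK
  obtain ⟨f1, g1⟩ := H1 K hK
  obtain ⟨f2, g2⟩ := H2 K hK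
  obtain ⟨f3, g3⟩ := H3 K hK
  have hK0 : (0 : ℝ) < K := by linarith
  have hm1 : min δ₁ (5 / 6 - θ) ≤ δ₁ := min_le_left _ _
  have hm2 : min δ₁ (5 / 6 - θ) ≤ 5 / 6 - θ := min_le_right _ _
  generalize min δ₁ (5 / 6 - θ) = δ at hm1 hm2 ⊢
  have p0 : 0 ≤ K ^ θ := Real.rpow_nonneg hK0.le _
  have p1 : 0 ≤ K ^ (5 / 6 - δ₁) := Real.rpow_nonneg hK0.le _
  have pp : 0 ≤ K ^ (5 / 6 - δ) := Real.rpow_nonneg hK0.le _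
  have q0 : K ^ θ ≤ K ^ (5 / 6 - δ) := Real.rpow_le_rpow_of_exponent_le hK (by linarith)
  have q1 : K ^ (5 / 6 - δ₁) ≤ K ^ (5 / 6 - δ) :=
    Real.rpow_le_rpow_of_exponent_le hK (by linarith)
  have key : ∀ B p : ℝ, 0 ≤ p → p ≤ K ^ (5 / 6 - δ) → B * p ≤ |B| * K ^ (5 / 6 - δ) := by
    intro B p hp hpq
    calc B * p ≤ |B| * p := mul_le_mul_of_nonneg_right (le_abs_self B) hp
      _ ≤ |B| * K ^ (5 / 6 - δ) := mul_le_mul_of_nonneg_left hpq (abs_nonneg B)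
  have k0 := key A₀ _ p0 q0
  have k1 := key A₁ _ p1 q1
  have k2 := key A₂ _ p0 q0
  have k3 := key A₃ _ p0 q0
  have n0 : 0 ≤ |A₀| * K ^ (5 / 6 - δ) := by positivity
  have n1 : 0 ≤ |A₁| * K ^ (5 / 6 - δ) := by positivity
  have n2 : 0 ≤ |A₂| * K ^ (5 / 6 - δ) := by positivity
  have n3 : 0 ≤ |A₃| * K ^ (5 / 6 - δ) := by positivity
  have e : (|A₀| + |A₁| + |A₂| + |A₃|) * K ^ (5 / 6 - δ) = |A₀| * K ^ (5 / 6 - δ)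
      + |A₁| * K ^ (5 / 6 - δ) + |A₂| * K ^ (5 / 6 - δ) + |A₃| * K ^ (5 / 6 - δ) := by ring
  rw [e]
  refine ⟨f0, by linarith, by linarith, ?_⟩
  have hsub : bad κ K ⊆ big κ K ∪ two K := by
    rintro k ⟨a1, a2, x, y, a3, a4 | ⟨x', y', a5, a6⟩⟩
    · exact Or.inl ⟨a1, a2, x, y, a3, a4⟩
    · exact Or.inr ⟨a1, a2, x, y, x', y', a3, a5, a6⟩
  have h5 : (bad κ K).ncard ≤ (big κ K).ncard + (two K).ncard :=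
    (Set.ncard_le_ncard hsub (f1.union f3)).trans (Set.ncard_union_le _ _)
  have h6 : ((bad κ K).ncard : ℝ) ≤ ((big κ K).ncard : ℝ) + ((two K).ncard : ℝ) := by
    exact_mod_cast h5
  linarith

end Pool.Agent.Work.MP_f2148a_nt.As
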