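import Mathlib
import Pool.Agent.Work.MP_f2148a_nt.As.HallT

/-!
# As/HallL: the law of the size of the solutions, lower bound (helper4)

`X = ⌈(2 T ^ 2 K) ^ (1 / 3)⌉`. The pairs with `X < x ≤ 2 X`, `y ≥ 0`, `0 < |y ^ 2 - x ^ 3| ≤ K` are at least
`K / √(8 X) - 2 X` (`fib`, `len K x ≥ 2 K / √(x ^ 3)`), and they have `y ^ 2 ≥ x ^ 3 - K > T ^ 2 K`. Their `k` are distinct up to
`O(K ^ θ)`, since the number of all pairs with `y ≥ 0` and the number of all solvable `k` differ by `O(K ^ θ)`.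
-/

set_option autoImplicit false

namespace Pool.Agent.Work.MP_f2148a_nt.As

private theorem len_ge {K x : ℝ} (hK : 0 ≤ K) (hx : K ≤ x ^ 3) (hx0 : 0 < x ^ 3) :
    2 * K / √(x ^ 3) ≤ len K x := by
  unfold len
  rw [div_le_iff₀ (Real.sqrt_pos.2 hx0)]
  have ha := Real.sq_sqrt (show 0 ≤ x ^ 3 + K by linarith)
  have hb := Real.sq_sqrt (show 0 ≤ x ^ 3 - K by linarith)
  have hc := Real.sq_sqrt hx0.le
  have a0 := Real.sqrt_nonneg (x ^ 3 + K)
  have b0 := Real.sqrt_nonneg (x ^ 3 - K)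
  have c0 := Real.sqrt_nonneg (x ^ 3)
  have hab : √(x ^ 3 - K) ≤ √(x ^ 3 + K) := Real.sqrt_le_sqrt (by linarith)
  set a := √(x ^ 3 + K)
  set b := √(x ^ 3 - K)
  set c := √(x ^ 3)
  have h1 : a + b ≤ 2 * c := by
    apply le_of_sq_le_sq _ (by positivity)
    nlinarith [sq_nonneg (a - b)]
  have h2 : (a - b) * (a + b) = 2 * K := by ring_nf; linarith
  nlinarith [mul_le_mul_of_nonneg_left h1 (sub_nonneg.2 hab)]

open Classical in
private theorem fibre_ge {K : ℝ} (hK : 0 ≤ K) (n : ℤ) :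
    len K n / 2 - 2 ≤ (((fib hK n).1.toFinset.filter fun y => 0 ≤ y ∧ y ^ 2 ≠ n ^ 3).card : ℝ) := by
  obtain ⟨hf, hc⟩ := fib hK n
  set Y := hf.toFinset with hY
  have hYm : ∀ y, y ∈ Y ↔ |(y : ℝ) ^ 2 - (n : ℝ) ^ 3| ≤ K := fun y => Set.Finite.mem_toFinset _
  rw [Set.ncard_eq_toFinset_card _ hf] at hc
  set P := Y.filter fun y => 0 ≤ y ∧ y ^ 2 ≠ n ^ 3 with hP
  set Z := Y.filter fun y => y ^ 2 = n ^ 3 with hZ
  have hZc : Z.card ≤ 2 := by
    rcases Z.eq_empty_or_nonempty with h | ⟨s, hs⟩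
    · rw [h]
      simp
    · have hsub : Z ⊆ {s, -s} := by
        intro y hy
        rw [hZ, Finset.mem_filter] at hy hs
        rw [Finset.mem_insert, Finset.mem_singleton]
        exact sq_eq_sq_iff_eq_or_eq_neg.1 (hy.2.trans hs.2.symm)
      exact (Finset.card_le_card hsub).trans Finset.card_le_two
  have hsub : Y ⊆ (P ∪ P.image fun y => -y) ∪ Z := by
    intro y hy
    by_cases h1 : y ^ 2 = n ^ 3
    · exact Finset.mem_union_right _ (Finset.mem_filter.2 ⟨hy, h1⟩)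
    · refine Finset.mem_union_left _ ?_
      rcases le_total 0 y with h2 | h2
      · exact Finset.mem_union_left _ (Finset.mem_filter.2 ⟨hy, h2, h1⟩)
      · refine Finset.mem_union_right _ (Finset.mem_image.2 ⟨-y, Finset.mem_filter.2 ⟨?_, ?_, ?_⟩, ?_⟩)
        · rw [hYm] at hy ⊢
          push_cast
          rw [neg_sq]
          exact hy
        · linarith
        · rw [neg_sq]
          exact h1
        · ring
  have h1 := (Finset.card_le_card hsub).trans (Finset.card_union_le _ _)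
  have h2 := Finset.card_union_le P (P.image fun y => -y)
  have h3 := Finset.card_image_le (s := P) (f := fun y => -y)
  have h4 : (Y.card : ℝ) ≤ 2 * P.card + 2 := by
    have : Y.card ≤ 2 * P.card + 2 := by omega
    exact_mod_cast this
  have h5 := (abs_le.1 hc).1
  linarith

open Classical in
/-- many pairs with `x > X` -/
private theorem many {K : ℝ} (hK : 1 ≤ K) (X : ℕ) (hX : K ≤ (X : ℝ) ^ 3) :
    ∃ G : Finset (ℤ × ℤ), (∀ t ∈ G, t ∈ pr K ∧ (X : ℤ) < t.1 ∧ 0 ≤ t.2) ∧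
      K / √(8 * X) - 2 * X ≤ (G.card : ℝ) := by
  have hK0 : 0 ≤ K := by linarith
  have hX1 : 1 ≤ X := by
    rcases Nat.eq_zero_or_pos X with h | h
    · subst h; norm_num at hX; linarith
    · exact h
  have hX1' : (1 : ℝ) ≤ X := by exact_mod_cast hX1
  refine ⟨(Finset.Ioc (X : ℤ) (2 * X)).biUnion fun n =>
    ((fib hK0 n).1.toFinset.filter fun y => 0 ≤ y ∧ y ^ 2 ≠ n ^ 3).image fun y => (n, y), ?_, ?_⟩
  · intro t ht
    obtain ⟨n, hn, ht⟩ := Finset.mem_biUnion.1 ht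
    obtain ⟨y, hy, rfl⟩ := Finset.mem_image.1 ht
    obtain ⟨h1, h2, h3⟩ := Finset.mem_filter.1 hy
    have h4 : |(y : ℝ) ^ 2 - (n : ℝ) ^ 3| ≤ K := (Set.Finite.mem_toFinset (fib hK0 n).1).1 h1
    exact ⟨⟨h3, h4⟩, (Finset.mem_Ioc.1 hn).1, h2⟩
  · rw [Finset.card_biUnion]
    · push_cast
      have hle : ∀ n ∈ Finset.Ioc (X : ℤ) (2 * X), K / √(8 * (X : ℝ) ^ 3) - 2 ≤
          ((((fib hK0 n).1.toFinset.filter fun y => 0 ≤ y ∧ y ^ 2 ≠ n ^ 3).image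
            fun y => (n, y)).card : ℝ) := by
        intro n hn
        rw [Finset.card_image_of_injective _ (fun y y' h => (Prod.mk.inj h).2)]
        refine le_trans ?_ (fibre_ge hK0 n)
        obtain ⟨h1, h2⟩ := Finset.mem_Ioc.1 hn
        have h1' : (X : ℝ) < n := by exact_mod_cast h1
        have h2' : (n : ℝ) ≤ 2 * X := by exact_mod_cast h2
        have h3 : (X : ℝ) ^ 3 ≤ (n : ℝ) ^ 3 := pow_le_pow_left₀ (by linarith) h1'.le 3
        have h4 : (n : ℝ) ^ 3 ≤ (2 * X) ^ 3 := pow_le_pow_left₀ (by linarith) h2' 3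
        have h5 : (2 * (X : ℝ)) ^ 3 = 8 * (X : ℝ) ^ 3 := by ring
        have h6 := len_ge hK0 (hX.trans h3) (show 0 < (n : ℝ) ^ 3 by linarith)
        have h7 : 2 * K / √(8 * (X : ℝ) ^ 3) ≤ 2 * K / √((n : ℝ) ^ 3) := by
          apply div_le_div_of_nonneg_left (by linarith) (Real.sqrt_pos.2 (by linarith))
          exact Real.sqrt_le_sqrt (by linarith)
        have h8 : 2 * K / √(8 * (X : ℝ) ^ 3) = 2 * (K / √(8 * (X : ℝ) ^ 3)) := by ring
        linarith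
      refine le_trans ?_ (Finset.sum_le_sum hle)
      rw [Finset.sum_const, Int.card_Ioc, nsmul_eq_mul]
      have h9 : (2 * (X : ℤ) - X).toNat = X := by omega
      rw [h9]
      have h10 : √(8 * (X : ℝ) ^ 3) = X * √(8 * X) := by
        have : 8 * (X : ℝ) ^ 3 = (X : ℝ) ^ 2 * (8 * X) := by ring
        rw [this, Real.sqrt_mul (by positivity), Real.sqrt_sq (by positivity)]
      rw [h10]
      have h11 : 0 < √(8 * (X : ℝ)) := Real.sqrt_pos.2 (by positivity)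
      have h12 : (X : ℝ) * (K / (X * √(8 * X)) - 2) = K / √(8 * X) - 2 * X := by
        field_simp
      rw [h12]
    · intro n _ n' _ hne
      refine Finset.disjoint_left.2 fun t ht ht' => ?_
      obtain ⟨y, -, rfl⟩ := Finset.mem_image.1 ht
      obtain ⟨y', -, h⟩ := Finset.mem_image.1 ht'
      exact hne (Prod.mk.inj h).1.symm

/-- distinct values -/
private theorem distinct {θ : ℝ} (hA : Asy θ) (hθ : 4 / 5 < θ) : ∃ A : ℝ, 0 ≤ A ∧
    ∀ K : ℝ, 1 ≤ K → ∀ G : Finset (ℤ × ℤ), (∀ t ∈ G, t ∈ pr K ∧ 0 ≤ t.2) →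
    (G.card : ℝ) - A * K ^ θ ≤ ((G.image fun t => t.2 ^ 2 - t.1 ^ 3).card : ℝ) := by
  classical
  obtain ⟨A1, hA1⟩ := cnt hA hθ
  obtain ⟨A0, hA0⟩ := hA
  refine ⟨|A0| / 2 + |A1| + 2, by positivity, fun K hK G hG => ?_⟩
  obtain ⟨hfin, hasy⟩ := hA0 K hK
  obtain ⟨hsfin, hsasy⟩ := hA1 K hK
  set F : Finset (ℤ × ℤ) := hfin.toFinset with hFdef
  have hFm : ∀ t, t ∈ F ↔ t ∈ pr K := fun t => Set.Finite.mem_toFinset _
  have hFc : (pr K).ncard = F.card := Set.ncard_eq_toFinset_card _ hfin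
  rw [hFc] at hasy
  set S : Finset ℤ := hsfin.toFinset with hSdef
  have hSm : ∀ t, t ∈ S ↔ t ∈ sol K := fun t => Set.Finite.mem_toFinset _
  have hSc : (sol K).ncard = S.card := Set.ncard_eq_toFinset_card _ hsfin
  rw [hSc] at hsasy
  set φ : ℤ × ℤ → ℤ := fun t => t.2 ^ 2 - t.1 ^ 3 with hφ
  set P := F.filter fun t => 0 ≤ t.2 with hP
  have hsym : ∀ t ∈ F, (t.1, -t.2) ∈ F := by
    intro t ht
    rw [hFm] at ht ⊢
    obtain ⟨h1, h2⟩ := ht
    refine ⟨by simpa using h1, ?_⟩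
    simpa using h2
  have hhalf := card_half F hsym
  have hZ := card_zero hK (F.filter fun t => t.2 = 0) (fun t ht => by
    rw [Finset.mem_filter, hFm] at ht
    exact ht)
  have hGP : G ⊆ P := fun t ht => Finset.mem_filter.2 ⟨(hFm t).2 (hG t ht).1, (hG t ht).2⟩
  have hsub : S ⊆ G.image φ ∪ (P \ G).image φ := by
    intro k hk
    rw [hSm] at hk
    obtain ⟨h0, hkK, x, y, hxy⟩ := hk
    obtain ⟨m1, m2⟩ := mem_pr_abs h0 hkK hxy
    have hmem : ((x, |y|) : ℤ × ℤ) ∈ P := Finset.mem_filter.2 ⟨(hFm _).2 m1, abs_nonneg _⟩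
    by_cases h : ((x, |y|) : ℤ × ℤ) ∈ G
    · exact Finset.mem_union_left _ (Finset.mem_image.2 ⟨_, h, m2⟩)
    · exact Finset.mem_union_right _ (Finset.mem_image.2 ⟨_, Finset.mem_sdiff.2 ⟨hmem, h⟩, m2⟩)
  have h1 := (Finset.card_le_card hsub).trans (Finset.card_union_le _ _)
  have h2 := Finset.card_image_le (s := P \ G) (f := φ)
  have h3 := Finset.card_sdiff_add_card_eq_card hGP
  have h4 : (S.card : ℝ) + G.card ≤ ((G.image φ).card : ℝ) + P.card := by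
    have : S.card + G.card ≤ (G.image φ).card + P.card := by omega
    exact_mod_cast this
  have hhalf' : (F.card : ℝ) + ((F.filter fun t => t.2 = 0).card : ℝ) = 2 * (P.card : ℝ) := by
    exact_mod_cast hhalf
  have hK0 : (0 : ℝ) < K := by linarith
  have hpow : 0 ≤ K ^ θ := Real.rpow_nonneg hK0.le _
  have h13 : K ^ (1 / 3 : ℝ) ≤ K ^ θ := Real.rpow_le_rpow_of_exponent_le hK (by linarith)
  have b0 : A0 * K ^ θ ≤ |A0| * K ^ θ := mul_le_mul_of_nonneg_right (le_abs_self _) hpow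
  have b1 : A1 * K ^ θ ≤ |A1| * K ^ θ := mul_le_mul_of_nonneg_right (le_abs_self _) hpow
  have c1 := (abs_le.1 hasy).2
  have c2 := (abs_le.1 hsasy).1
  have e1 : (|A0| / 2 + |A1| + 2) * K ^ θ = (|A0| * K ^ θ) / 2 + |A1| * K ^ θ + 2 * K ^ θ := by
    ring
  rw [e1]
  linarith

/-- the lower bound -/
theorem bigT_ge {θ : ℝ} (hA : Asy θ) (hθ : 4 / 5 < θ) (hθ' : θ < 5 / 6) : ∃ A : ℝ, 0 ≤ A ∧
    ∀ K : ℝ, 1 ≤ K → ∀ T : ℝ, 1 ≤ T →
    1 / 5 * (T ^ (-(1 / 3) : ℝ) * K ^ (5 / 6 : ℝ)) - A * K ^ θ ≤ ((bigT T K).ncard : ℝ) := by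
  classical
  obtain ⟨A, hA0, H⟩ := distinct hA hθ
  obtain ⟨B2, hB2, H2⟩ := sol_le hA hθ hθ'
  refine ⟨A + 12, by positivity, fun K hK T hT => ?_⟩
  have hK0 : 0 < K := by linarith
  have hT0 : 0 < T := by linarith
  have hθ0 : 0 ≤ K ^ θ := Real.rpow_nonneg hK0.le _
  rcases le_total T (K ^ (1 / 8 : ℝ)) with hTK | hTK
  swap
  · have h1 : T ^ (-(1 / 3) : ℝ) * K ^ (5 / 6 : ℝ) ≤ K ^ θ := by
      have h2 : T ^ (-(1 / 3) : ℝ) ≤ (K ^ (1 / 8 : ℝ)) ^ (-(1 / 3) : ℝ) :=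
        Real.rpow_le_rpow_of_nonpos (Real.rpow_pos_of_pos hK0 _) hTK (by norm_num)
      rw [← Real.rpow_mul hK0.le] at h2
      refine (mul_le_mul_of_nonneg_right h2 (Real.rpow_nonneg hK0.le _)).trans ?_
      rw [← Real.rpow_add hK0]
      exact Real.rpow_le_rpow_of_exponent_le hK (by linarith)
    have h3 : (0 : ℝ) ≤ ((bigT T K).ncard : ℝ) := Nat.cast_nonneg _
    have h4 : 0 ≤ A * K ^ θ := mul_nonneg hA0 hθ0
    linarith
  set r : ℝ := (2 * T ^ 2 * K) ^ (1 / 3 : ℝ) with hr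
  have hb : 0 ≤ 2 * T ^ 2 * K := by positivity
  have hr0 : 0 ≤ r := Real.rpow_nonneg hb _
  have hr3 : r ^ 3 = 2 * T ^ 2 * K := by
    rw [hr, ← Real.rpow_natCast, ← Real.rpow_mul hb]
    norm_num
  have hT2 : 1 ≤ T ^ 2 := by nlinarith
  have hTK1 : K ≤ T ^ 2 * K := le_mul_of_one_le_left hK0.le hT2
  have hr1 : 1 ≤ r := by
    have : (1 : ℝ) ^ 3 ≤ r ^ 3 := by
      rw [hr3]
      linarith
    exact le_of_pow_le_pow_left₀ (by norm_num) hr0 this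
  set X : ℕ := ⌈r⌉₊ with hX
  have hXge : r ≤ (X : ℝ) := Nat.le_ceil r
  have hXle : (X : ℝ) ≤ 2 * r := by
    have := Nat.ceil_lt_add_one hr0
    rw [← hX] at this
    linarith
  have hX3 : 2 * T ^ 2 * K ≤ (X : ℝ) ^ 3 := by
    rw [← hr3]
    exact pow_le_pow_left₀ hr0 hXge 3
  obtain ⟨G, hG, hGc⟩ := many hK X (by linarith)
  have hdis := H K hK G fun t ht => ⟨(hG t ht).1, (hG t ht).2.2⟩
  have hsub : ((G.image fun t => t.2 ^ 2 - t.1 ^ 3 : Finset ℤ) : Set ℤ) ⊆ bigT T K := by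
    intro k hk
    obtain ⟨t, ht, rfl⟩ := Finset.mem_image.1 (Finset.mem_coe.1 hk)
    obtain ⟨⟨h1, h2⟩, h3, h4⟩ := hG t ht
    have hkr : (((t.2 ^ 2 - t.1 ^ 3 : ℤ)) : ℝ) = (t.2 : ℝ) ^ 2 - (t.1 : ℝ) ^ 3 := by push_cast; ring
    refine ⟨sub_ne_zero.2 h1, by rw [hkr]; exact h2, t.1, t.2, by ring, ?_⟩
    refine lt_of_lt_of_le ?_ (le_max_right _ _)
    rw [hkr, ← Real.sqrt_eq_rpow]
    have h3' : (X : ℝ) < (t.1 : ℝ) := by exact_mod_cast h3
    have h5 : (X : ℝ) ^ 3 < (t.1 : ℝ) ^ 3 := pow_lt_pow_left₀ h3' (Nat.cast_nonneg X) (by norm_num)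
    have h6 := abs_le.1 h2
    have h7 : T ^ 2 * K < (t.2 : ℝ) ^ 2 := by linarith
    apply lt_of_pow_lt_pow_left₀ 2 (abs_nonneg _)
    rw [mul_pow, Real.sq_sqrt (abs_nonneg _), sq_abs]
    calc T ^ 2 * |(t.2 : ℝ) ^ 2 - (t.1 : ℝ) ^ 3| ≤ T ^ 2 * K :=
          mul_le_mul_of_nonneg_left h2 (by positivity)
      _ < (t.2 : ℝ) ^ 2 := h7
  have hfin : (bigT T K).Finite := (H2 K hK).1.subset (bigT_sub_sol _ _)
  have h1 := Set.ncard_le_ncard hsub hfin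
  rw [Set.ncard_coe_finset] at h1
  have h2 : ((G.image fun t => t.2 ^ 2 - t.1 ^ 3).card : ℝ) ≤ ((bigT T K).ncard : ℝ) := by
    exact_mod_cast h1
  -- the sizes
  have hTK2 : T ^ 2 ≤ K ^ (1 / 4 : ℝ) := by
    have := pow_le_pow_left₀ hT0.le hTK 2
    rw [← Real.rpow_natCast (K ^ (1 / 8 : ℝ)), ← Real.rpow_mul hK0.le] at this
    norm_num at this
    exact this
  have d1 : r ≤ 2 * K ^ θ := by
    have e2 : 2 * T ^ 2 * K ≤ 8 * K ^ (5 / 4 : ℝ) := by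
      have h1 : K ^ (5 / 4 : ℝ) = K ^ (1 / 4 : ℝ) * K := by
        nth_rewrite 3 [← Real.rpow_one K]
        rw [← Real.rpow_add hK0]
        norm_num
      rw [h1]
      have h2 := mul_le_mul_of_nonneg_right hTK2 hK0.le
      have h3 : 0 ≤ K ^ (1 / 4 : ℝ) * K := by positivity
      linarith
    have e3 : (8 * K ^ (5 / 4 : ℝ)) ^ (1 / 3 : ℝ) = 2 * K ^ (5 / 12 : ℝ) := by
      rw [Real.mul_rpow (by norm_num) (Real.rpow_nonneg hK0.le _), ← Real.rpow_mul hK0.le,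
        show (8 : ℝ) = 2 ^ (3 : ℝ) by norm_num, ← Real.rpow_mul (by norm_num)]
      norm_num
    calc r ≤ (8 * K ^ (5 / 4 : ℝ)) ^ (1 / 3 : ℝ) := Real.rpow_le_rpow hb e2 (by norm_num)
      _ = 2 * K ^ (5 / 12 : ℝ) := e3
      _ ≤ 2 * K ^ θ := mul_le_mul_of_nonneg_left
          (Real.rpow_le_rpow_of_exponent_le hK (by linarith)) (by norm_num)
  have d2 : 1 / 5 * (T ^ (-(1 / 3) : ℝ) * K ^ (5 / 6 : ℝ)) ≤ K / √(8 * X) := by
    have hs : 0 < √(8 * (X : ℝ)) := Real.sqrt_pos.2 (by linarith)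
    rw [le_div_iff₀ hs]
    have e1 : √(8 * (X : ℝ)) ≤ 4 * √r := by
      rw [Real.sqrt_le_left (by positivity), mul_pow, Real.sq_sqrt hr0]
      linarith
    have e2 : √r ≤ 5 / 4 * (T ^ (1 / 3 : ℝ) * K ^ (1 / 6 : ℝ)) := by
      have f1 : √r = (2 * T ^ 2 * K) ^ (1 / 6 : ℝ) := by
        rw [Real.sqrt_eq_rpow, hr, ← Real.rpow_mul hb]
        norm_num
      have f2 : (2 : ℝ) ^ (1 / 6 : ℝ) ≤ 5 / 4 := by
        have : ((2 : ℝ) ^ (1 / 6 : ℝ)) ^ 6 = 2 := by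
          rw [← Real.rpow_natCast, ← Real.rpow_mul (by norm_num)]
          norm_num
        by_contra hc
        push Not at hc
        have h6 := pow_lt_pow_left₀ hc (by norm_num) (n := 6) (by norm_num)
        rw [this] at h6
        norm_num at h6
      rw [f1, Real.mul_rpow (by positivity) hK0.le, Real.mul_rpow (by norm_num) (by positivity),
        ← Real.rpow_natCast T, ← Real.rpow_mul hT0.le]
      have f3 : ((2 : ℕ) : ℝ) * (1 / 6 : ℝ) = 1 / 3 := by norm_num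
      rw [f3]
      have f4 : 0 ≤ T ^ (1 / 3 : ℝ) * K ^ (1 / 6 : ℝ) := by positivity
      calc (2 : ℝ) ^ (1 / 6 : ℝ) * T ^ (1 / 3 : ℝ) * K ^ (1 / 6 : ℝ) =
          (2 : ℝ) ^ (1 / 6 : ℝ) * (T ^ (1 / 3 : ℝ) * K ^ (1 / 6 : ℝ)) := by ring
        _ ≤ _ := mul_le_mul_of_nonneg_right f2 f4
    have e3 : √(8 * (X : ℝ)) ≤ 5 * (T ^ (1 / 3 : ℝ) * K ^ (1 / 6 : ℝ)) := by linarith
    have hU0 : 0 ≤ T ^ (-(1 / 3) : ℝ) * K ^ (5 / 6 : ℝ) := by positivity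
    have e4 : T ^ (-(1 / 3) : ℝ) * T ^ (1 / 3 : ℝ) = 1 := by
      rw [← Real.rpow_add hT0]
      norm_num
    have e5 : K ^ (5 / 6 : ℝ) * K ^ (1 / 6 : ℝ) = K := by
      rw [← Real.rpow_add hK0]
      norm_num
    calc 1 / 5 * (T ^ (-(1 / 3) : ℝ) * K ^ (5 / 6 : ℝ)) * √(8 * X) ≤
        1 / 5 * (T ^ (-(1 / 3) : ℝ) * K ^ (5 / 6 : ℝ)) * (5 * (T ^ (1 / 3 : ℝ) * K ^ (1 / 6 : ℝ))) :=
          mul_le_mul_of_nonneg_left e3 (by positivity)
      _ = (T ^ (-(1 / 3) : ℝ) * T ^ (1 / 3 : ℝ)) * (K ^ (5 / 6 : ℝ) * K ^ (1 / 6 : ℝ)) := by ring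
      _ = K := by rw [e4, e5, one_mul]
  have e : (A + 12) * K ^ θ = A * K ^ θ + 12 * K ^ θ := by ring
  rw [e]
  linarith

end Pool.Agent.Work.MP_f2148a_nt.As
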